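import Pool.Agent.H35.WS.CasA

set_option autoImplicit false

/-! The rest has a small exponent. -/

namespace Pool.Agent.H35.WS

open Finset Real Pool.Agent.K1H88.WS Pool.Agent.W57.SW

lemma lam_pos_of_dvd {x D k : ℕ} (h : Lam x D ∣ k) (hk : 1 ≤ k) : 0 < Lam x D :=
  Nat.pos_of_dvd_of_pos h hk

lemma case3_w (x : ℕ) (R e : ℝ) (hR : 0 < R) (he : 0 < e)
    (hUL : ∀ m0 N : ℕ, 1 ≤ N → N ≤ x → ∑ m ∈ UL x m0 N, (m : ℝ) ^ (-(5 / 12 + 2 * e)) ≤ R)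
    (Y : ℝ) (hY : 1 ≤ Y) (p T : ℕ) (hp : 1 ≤ p) (hT : 1 ≤ T) (M : ℕ)
    (hM : (M : ℝ) ≤ Y ^ (3 : ℝ) / T) (hMx : ∀ k, 1 ≤ k → k ≤ M → k * T ≤ x) :
    ∑ k ∈ Icc 1 M, ∑ u ∈ UL x p (k * T), ((p : ℝ) * u) ^ (-(5 / 12 + 2 * e)) *
      (Y ^ (3 / 2 : ℝ) * (((k * T : ℕ) : ℝ)) ^ (-(2 / 3 : ℝ))) ≤
    3 * R * (Y ^ (5 / 2 : ℝ) * (p : ℝ) ^ (-(5 / 12 : ℝ))) * (1 / (T : ℝ)) := by
  have hY0 : 0 < Y := by linarith
  have hp1 : (1 : ℝ) ≤ p := by exact_mod_cast hp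
  have hp0 : (0 : ℝ) < p := by linarith
  have hT1 : (1 : ℝ) ≤ T := by exact_mod_cast hT
  have hT0 : (0 : ℝ) < T := by linarith
  have h1 : ∀ k ∈ Icc 1 M, ∑ u ∈ UL x p (k * T), ((p : ℝ) * u) ^ (-(5 / 12 + 2 * e)) *
      (Y ^ (3 / 2 : ℝ) * (((k * T : ℕ) : ℝ)) ^ (-(2 / 3 : ℝ))) ≤
      (p : ℝ) ^ (-(5 / 12 : ℝ)) * Y ^ (3 / 2 : ℝ) * (T : ℝ) ^ (-(2 / 3 : ℝ)) * R *
        (k : ℝ) ^ (-(2 / 3 : ℝ)) := by
    intro k hk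
    rw [mem_Icc] at hk
    have h2 : ∀ u ∈ UL x p (k * T), ((p : ℝ) * u) ^ (-(5 / 12 + 2 * e)) *
        (Y ^ (3 / 2 : ℝ) * (((k * T : ℕ) : ℝ)) ^ (-(2 / 3 : ℝ))) =
        ((p : ℝ) ^ (-(5 / 12 + 2 * e)) * (Y ^ (3 / 2 : ℝ) * (((k * T : ℕ) : ℝ)) ^ (-(2 / 3 : ℝ)))) *
          (u : ℝ) ^ (-(5 / 12 + 2 * e)) := by
      intro u _
      rw [mul_rpow (Nat.cast_nonneg _) (Nat.cast_nonneg _)]
      ring
    rw [sum_congr rfl h2, ← mul_sum]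
    have h3 := hUL p (k * T) (Nat.mul_pos hk.1 hT) (hMx k hk.1 hk.2)
    have h4 : (p : ℝ) ^ (-(5 / 12 + 2 * e)) ≤ (p : ℝ) ^ (-(5 / 12 : ℝ)) :=
      rpow_le_rpow_of_exponent_le hp1 (by linarith)
    have h5 : (((k * T : ℕ) : ℝ)) ^ (-(2 / 3 : ℝ)) = (k : ℝ) ^ (-(2 / 3 : ℝ)) *
        (T : ℝ) ^ (-(2 / 3 : ℝ)) := by
      push_cast
      exact mul_rpow (Nat.cast_nonneg _) (Nat.cast_nonneg _)
    rw [h5]
    calc _ ≤ ((p : ℝ) ^ (-(5 / 12 : ℝ)) * (Y ^ (3 / 2 : ℝ) * ((k : ℝ) ^ (-(2 / 3 : ℝ)) *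
        (T : ℝ) ^ (-(2 / 3 : ℝ))))) * R := by gcongr
      _ = _ := by ring
  refine (sum_le_sum h1).trans ?_
  rw [← mul_sum]
  have h6 := sum_rpow_le (2 / 3) (by norm_num) (by norm_num) M
  have h7 : (M : ℝ) ^ (1 - 2 / 3 : ℝ) / (1 - 2 / 3) ≤ 3 * (Y * (T : ℝ) ^ (-(1 / 3 : ℝ))) := by
    have i1 : (M : ℝ) ^ (1 - 2 / 3 : ℝ) ≤ (Y ^ (3 : ℝ) / T) ^ (1 - 2 / 3 : ℝ) :=
      rpow_le_rpow (Nat.cast_nonneg _) hM (by norm_num)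
    have i2 : (Y ^ (3 : ℝ) / T) ^ (1 - 2 / 3 : ℝ) = Y * (T : ℝ) ^ (-(1 / 3 : ℝ)) := by
      rw [div_rpow (by positivity) hT0.le, ← rpow_mul hY0.le, rpow_neg hT0.le, div_eq_mul_inv]
      norm_num
    rw [i2] at i1
    rw [div_le_iff₀ (by norm_num)]
    linarith
  calc _ ≤ (p : ℝ) ^ (-(5 / 12 : ℝ)) * Y ^ (3 / 2 : ℝ) * (T : ℝ) ^ (-(2 / 3 : ℝ)) * R *
      (3 * (Y * (T : ℝ) ^ (-(1 / 3 : ℝ)))) :=
        mul_le_mul_of_nonneg_left (h6.trans h7) (by positivity)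
    _ = 3 * R * ((Y ^ (3 / 2 : ℝ) * Y) * (p : ℝ) ^ (-(5 / 12 : ℝ))) *
        ((T : ℝ) ^ (-(2 / 3 : ℝ)) * (T : ℝ) ^ (-(1 / 3 : ℝ))) := by ring
    _ = _ := by
        rw [← rpow_add hT0]
        have i3 : Y ^ (3 / 2 : ℝ) * Y = Y ^ (5 / 2 : ℝ) := by
          nth_rewrite 2 [← rpow_one Y]
          rw [← rpow_add hY0]; norm_num
        have i4 : (T : ℝ) ^ (-(2 / 3 : ℝ) + -(1 / 3 : ℝ)) = 1 / T := by
          rw [show (-(2 / 3 : ℝ) + -(1 / 3 : ℝ)) = -1 by norm_num, rpow_neg_one, one_div]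
        rw [i3, i4]

theorem case3 : ∃ C : ℝ, 0 < C ∧ ∀ x : ℕ, 1 ≤ x → ∀ Y : ℕ → ℝ, (∀ p, 1 ≤ Y p) → ∀ A : Finset ℕ,
    (∀ n ∈ A, ∃ p u s : ℕ, n = p * u * s ∧ n ≤ x ∧ p.Prime ∧ Nz x p ∧
      (Y p) ^ (5 / 2 : ℝ) * (p : ℝ) ^ (-(5 / 12 : ℝ)) ≤ (x : ℝ) ^ (25 / 378 : ℝ) ∧
      1 ≤ u ∧ Squarefree u ∧ u.primeFactors ⊆ PP x p ∧
      (1 ≤ s ∧ Odd s ∧ Lam x (p * u) ∣ p * u * s - 1 ∧ Nz x s ∧ (Sy x s p ∨ Sy x s 1)) ∧
      (Y p) ^ (2 : ℝ) ≤ s ∧ (s : ℝ) ≤ (Y p) ^ (6 : ℝ) ∧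
      ((Lam x (p * u) : ℕ) : ℝ) ≤ (Y p) ^ (3 : ℝ)) →
    (A.card : ℝ) ≤ C * (x : ℝ) ^ (31 / 64 : ℝ) := by
  classical
  obtain ⟨C, hC, hfib⟩ := ap_fib3 (1 / 1000000) (by norm_num) (by norm_num)
  obtain ⟨R, hR, hUL⟩ := UL_sum (1 / 1000000) (by norm_num) (by norm_num)
  obtain ⟨C', hC', hsum⟩ := inv_lam_sum (1 / 1000000) (by norm_num)
  refine ⟨3 * C * R * C', by positivity, ?_⟩
  intro x hx1 Y hY A hA
  have hx1' : (1 : ℝ) ≤ x := by exact_mod_cast hx1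
  have hx0 : (0 : ℝ) < x := by linarith
  -- the parameters
  let P : Finset ℕ := (P0 x).filter (fun p =>
    (Y p) ^ (5 / 2 : ℝ) * (p : ℝ) ^ (-(5 / 12 : ℝ)) ≤ (x : ℝ) ^ (25 / 378 : ℝ))
  let M : ℕ → ℕ := fun p => min ⌊(Y p) ^ (3 : ℝ) / (Lam x p : ℕ)⌋₊ (x / Lam x p)
  let K : Finset ((_ : ℕ) × (_ : ℕ) × ℕ) := P.sigma
    (fun p => (Icc 1 (M p)).sigma (fun k => UL x p (k * Lam x p)))
  let F : ((_ : ℕ) × (_ : ℕ) × ℕ) → Finset ℕ := fun k =>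
    (Icc 1 x).filter (fun s => ((1 ≤ s ∧ Odd s ∧ k.1 * k.2.2 * s ≤ x ∧
      Lam x (k.1 * k.2.2) ∣ k.1 * k.2.2 * s - 1 ∧ Nz x s ∧ (Sy x s k.1 ∨ Sy x s 1)) ∧
      (Y k.1) ^ (2 : ℝ) ≤ s ∧ (s : ℝ) ≤ (Y k.1) ^ (6 : ℝ) ∧
      ((Lam x (k.1 * k.2.2) : ℕ) : ℝ) ≤ (Y k.1) ^ (3 : ℝ)) ∧
      Lam x (k.1 * k.2.2) = k.2.1 * Lam x k.1 ∧ 2 ≤ k.1 * k.2.2)
  have h1 := count_img K A F (fun k s => k.1 * k.2.2 * s)
    (fun k => ((k.1 : ℝ) * k.2.2) ^ (-(5 / 12 + 2 * (1 / 1000000 : ℝ))) *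
      ((Y k.1) ^ (3 / 2 : ℝ) * (((k.2.1 * Lam x k.1 : ℕ) : ℝ)) ^ (-(2 / 3 : ℝ))))
    (C * (x : ℝ) ^ (5 / 12 + 4 * (1 / 1000000 : ℝ))) (by
      intro n hn
      obtain ⟨p, u, s, h1, h2, h3, h4, h5, h6, h7, h8, ⟨h9, h10, h11, h12, h13⟩, h14, h15,
        h16⟩ := hA n hn
      have hp2 := h3.two_le
      have hDs : p * u * s ≤ x := by rw [← h1]; exact h2
      have hpu2 : 2 ≤ p * u := by nlinarith
      have hpux : p * u ≤ x := by nlinarith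
      have hpx : p ≤ x := by nlinarith
      have hux : u ≤ x := by nlinarith
      have hDs2 : 2 ≤ p * u * s := by nlinarith
      have hL0 := lam_pos h3 h4
      have hN0 := lam_pos_of_dvd h11 (by omega)
      obtain ⟨k, hk⟩ : Lam x p ∣ Lam x (p * u) := lam_dvd_lam (dvd_mul_right p u)
      have hk1 : 1 ≤ k := by
        rcases Nat.eq_zero_or_pos k with h | h
        · rw [h, mul_zero] at hk; omega
        · exact h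
      have hNx : Lam x (p * u) ≤ x := by
        have := Nat.le_of_dvd (by omega) h11
        omega
      have hL0' : (0 : ℝ) < (Lam x p : ℕ) := by exact_mod_cast hL0
      refine ⟨⟨p, k, u⟩, ?_, s, ?_, h1⟩
      · rw [mem_sigma]
        refine ⟨mem_filter.2 ⟨mem_P0.2 ⟨⟨h3.one_lt.le, hpx⟩, h3, h4⟩, h5⟩, ?_⟩
        rw [mem_sigma, mem_Icc]
        refine ⟨⟨hk1, ?_⟩, ?_⟩
        · show k ≤ min _ _
          rw [le_min_iff]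
          constructor
          · apply Nat.le_floor
            rw [le_div_iff₀ hL0']
            have : ((Lam x (p * u) : ℕ) : ℝ) = (Lam x p : ℕ) * k := by exact_mod_cast hk
            rw [this] at h16
            linarith
          · rw [Nat.le_div_iff_mul_le hL0, mul_comm, ← hk]
            exact hNx
        · show u ∈ UL x p (k * Lam x p)
          rw [mem_UL]
          refine ⟨⟨h6, hux⟩, h7, fun q hq => ?_⟩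
          rw [mem_PL]
          refine ⟨h8 hq, ?_⟩
          rw [mul_comm k, ← hk]
          exact lam_dvd_lam ((Nat.dvd_of_mem_primeFactors hq).trans (dvd_mul_left u p))
      · rw [mem_filter, mem_Icc]
        exact ⟨⟨h9, by nlinarith⟩, ⟨⟨h9, h10, hDs, h11, h12, h13⟩, h14, h15, h16⟩,
          by show Lam x (p * u) = k * Lam x p; rw [hk, mul_comm], hpu2⟩) (by
      rintro ⟨p, k, u⟩ hk
      have hYp := hY p
      have hYp0 : 0 < Y p := by linarith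
      rcases (F ⟨p, k, u⟩).eq_empty_or_nonempty with h0 | ⟨q0, hq0⟩
      · rw [h0]; simp; positivity
      · have hD2 : 2 ≤ p * u := (mem_filter.1 hq0).2.2.2
        have hN : Lam x (p * u) = k * Lam x p := (mem_filter.1 hq0).2.2.1
        have h2 := hfib x (p * u) p (Y p) hD2 hYp (F ⟨p, k, u⟩) (by
          intro q hq
          exact (mem_filter.1 hq).2.1)
        rw [hN] at h2
        push_cast at h2 ⊢
        exact h2)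
  have h2 : ∑ k ∈ K, ((k.1 : ℝ) * k.2.2) ^ (-(5 / 12 + 2 * (1 / 1000000 : ℝ))) *
      ((Y k.1) ^ (3 / 2 : ℝ) * (((k.2.1 * Lam x k.1 : ℕ) : ℝ)) ^ (-(2 / 3 : ℝ))) ≤
      3 * R * (x : ℝ) ^ (25 / 378 : ℝ) * (C' * (x : ℝ) ^ (1 / 1000000 : ℝ)) := by
    rw [Finset.sum_sigma]
    have h3 : ∀ p ∈ P, ∑ s ∈ (Icc 1 (M p)).sigma (fun k => UL x p (k * Lam x p)),
        ((p : ℝ) * s.2) ^ (-(5 / 12 + 2 * (1 / 1000000 : ℝ))) *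
        ((Y p) ^ (3 / 2 : ℝ) * (((s.1 * Lam x p : ℕ) : ℝ)) ^ (-(2 / 3 : ℝ))) ≤
        3 * R * (x : ℝ) ^ (25 / 378 : ℝ) * (1 / ((Lam x p : ℕ) : ℝ)) := by
      intro p hp
      rw [mem_filter, mem_P0] at hp
      obtain ⟨⟨⟨a1, a2⟩, a3, a4⟩, a5⟩ := hp
      have hL0 := lam_pos a3 a4
      have hL0' : (0 : ℝ) < (Lam x p : ℕ) := by exact_mod_cast hL0
      rw [Finset.sum_sigma]
      refine (case3_w x R (1 / 1000000) hR (by norm_num) (fun m0 N => hUL x m0 N) (Y p) (hY p)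
        p (Lam x p) a1 hL0 (M p) ?_ ?_).trans ?_
      · have hMp : M p ≤ ⌊(Y p) ^ (3 : ℝ) / (Lam x p : ℕ)⌋₊ := min_le_left _ _
        calc ((M p : ℕ) : ℝ) ≤ (⌊(Y p) ^ (3 : ℝ) / (Lam x p : ℕ)⌋₊ : ℝ) := by
              exact_mod_cast hMp
          _ ≤ _ := Nat.floor_le (by
            have := hY p
            positivity)
      · intro k _ hkM
        have h4 : k ≤ x / Lam x p := hkM.trans (min_le_right _ _)
        rwa [Nat.le_div_iff_mul_le hL0] at h4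
      · apply mul_le_mul_of_nonneg_right _ (by positivity)
        exact mul_le_mul_of_nonneg_left a5 (by positivity)
    refine (sum_le_sum h3).trans ?_
    rw [← mul_sum]
    apply mul_le_mul_of_nonneg_left _ (by positivity)
    apply hsum x hx1
    intro p hp
    rw [mem_filter, mem_P0] at hp
    exact ⟨hp.1.2.1, hp.1.1.2, hp.1.2.2⟩
  calc (A.card : ℝ) ≤ _ := h1
    _ ≤ _ * (3 * R * (x : ℝ) ^ (25 / 378 : ℝ) * (C' * (x : ℝ) ^ (1 / 1000000 : ℝ))) :=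
        mul_le_mul_of_nonneg_left h2 (by positivity)
    _ = 3 * C * R * C' * ((x : ℝ) ^ (5 / 12 + 4 * (1 / 1000000 : ℝ)) *
      (x : ℝ) ^ (25 / 378 : ℝ) * (x : ℝ) ^ (1 / 1000000 : ℝ)) := by ring
    _ = 3 * C * R * C' * (x : ℝ) ^ ((5 / 12 + 4 * (1 / 1000000 : ℝ)) + 25 / 378 + 1 / 1000000) := by
        rw [← rpow_add hx0, ← rpow_add hx0]
    _ ≤ _ := mul_le_mul_of_nonneg_left (fin_exp hx1 (by norm_num)) (by positivity)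

end Pool.Agent.H35.WS
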