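import Pool.Agent.H35.WS.Spa
import Pool.Graph.R_pool_sql_team_seeded_efc1946e.K1H88.WS.CaseA

set_option autoImplicit false

/-! Removing a factor with a large modulus. -/

namespace Pool.Agent.H35.WS

open Finset Real Pool.Agent.K1H88.WS Pool.Agent.W57.SW

/-- the saving -/
noncomputable def yy (x : ℕ) : ℝ := (x : ℝ) ^ (1 / 63 : ℝ)

/-- the saving needed if the prime `p` is free -/
noncomputable def yp (x p : ℕ) : ℝ := (x : ℝ) ^ (1 / 63 : ℝ) *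
  max 1 (((Lam x p : ℕ) : ℝ) / (p : ℝ) ^ (1 / 2 : ℝ))

lemma yy_one {x : ℕ} (hx : 1 ≤ x) : 1 ≤ yy x :=
  one_le_rpow (by exact_mod_cast hx) (by norm_num)

lemma yy_le_yp (x p : ℕ) : yy x ≤ yp x p := by
  unfold yy yp
  exact le_mul_of_one_le_right (by positivity) (le_max_left _ _)

lemma yp_one {x : ℕ} (hx : 1 ≤ x) (p : ℕ) : 1 ≤ yp x p := (yy_one hx).trans (yy_le_yp x p)

lemma pow_large (c : ℝ) (hc : 0 < c) (D : ℝ) : ∃ X0 : ℕ, 1 ≤ X0 ∧ ∀ x : ℕ, X0 ≤ x →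
    D ≤ (x : ℝ) ^ c := by
  have h : ∀ᶠ t : ℝ in Filter.atTop, D ≤ t ^ c :=
    (tendsto_rpow_atTop hc).eventually (Filter.eventually_ge_atTop _)
  obtain ⟨Y, hY⟩ := Filter.eventually_atTop.mp h
  refine ⟨⌈Y⌉₊ + 1, by omega, fun x hx => hY x ?_⟩
  exact (Nat.le_ceil Y).trans (by exact_mod_cast (by omega : ⌈Y⌉₊ ≤ x))

/-- the final exponent -/
lemma fin_exp {x : ℕ} (hx : 1 ≤ x) {a : ℝ} (ha : a ≤ 31 / 64) :
    (x : ℝ) ^ a ≤ (x : ℝ) ^ (31 / 64 : ℝ) :=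
  rpow_le_rpow_of_exponent_le (by exact_mod_cast hx) ha

theorem caseA1 : ∃ C : ℝ, 0 < C ∧ ∃ X0 : ℕ, ∀ x : ℕ, X0 ≤ x → ∀ A : Finset ℕ,
    (∀ n ∈ A, ∃ r p1 m q : ℕ, n = r * m * q ∧ n ≤ x ∧ 2 ≤ r ∧ r ∈ QQ x ∧ p1 ∣ r ∧ m ∈ UU x p1 ∧
      q ∈ PP x p1 ∧ (yy x) ^ (6 : ℝ) ≤ q ∧ Lam x q ∣ r * m - 1) →
    (A.card : ℝ) ≤ C * (x : ℝ) ^ (31 / 64 : ℝ) := by
  classical
  obtain ⟨C, hC, D0, hfib⟩ := prime_fib (1 / 1000000) (by norm_num) (by norm_num)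
  obtain ⟨C', hC', hsum⟩ := sumA (1 / 1000000) (by norm_num)
  obtain ⟨X0, hX01, hX0⟩ := pow_large (1 / 63) (by norm_num) D0
  refine ⟨C * C', by positivity, X0, ?_⟩
  intro x hx A hA
  have hx1 : 1 ≤ x := hX01.trans hx
  have hx1' : (1 : ℝ) ≤ x := by exact_mod_cast hx1
  have hx0 : (0 : ℝ) < x := by linarith
  have hy1 := yy_one hx1
  have hy0 : 0 < yy x := by linarith
  have hDz : (D0 : ℝ) ≤ (yy x) ^ (6 : ℝ) := by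
    refine (hX0 x hx).trans ?_
    calc (x : ℝ) ^ (1 / 63 : ℝ) = (yy x) ^ (1 : ℝ) := by rw [rpow_one]; rfl
      _ ≤ _ := rpow_le_rpow_of_exponent_le hy1 (by norm_num)
  let K : Finset ((_ : ℕ) × (_ : ℕ) × ℕ) := (QQ x).sigma
    (fun r => r.divisors.sigma (fun p1 => UU x p1))
  let F : ((_ : ℕ) × (_ : ℕ) × ℕ) → Finset ℕ := fun k =>
    (Icc 1 x).filter (fun q => q ∈ PP x k.2.1 ∧ D0 ≤ q ∧ k.1 * k.2.2 * q ≤ x ∧
      Lam x q ∣ k.1 * k.2.2 - 1 ∧ (yy x) ^ (6 : ℝ) ≤ q ∧ 2 ≤ k.1 * k.2.2)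
  have h1 := count_img K A F (fun k q => k.1 * k.2.2 * q)
    (fun k => ((k.1 : ℝ) * k.2.2) ^ (-(1 / 2 + 2 * (1 / 1000000 : ℝ))))
    (C * (x : ℝ) ^ (1 / 2 + 4 * (1 / 1000000 : ℝ)) * (yy x)⁻¹) (by
      intro n hn
      obtain ⟨r, p1, m, q, h1, h2, h3, h4, h5, h6, h7, h8, h9⟩ := hA n hn
      have hm := (mem_UU.1 h6).1.1
      have hr := (mem_QQ.1 h4).1.1
      refine ⟨⟨r, p1, m⟩, ?_, ?_⟩
      · rw [mem_sigma, mem_sigma, Nat.mem_divisors]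
        exact ⟨h4, ⟨h5, Nat.pos_iff_ne_zero.1 hr⟩, h6⟩
      · refine ⟨q, mem_filter.2 ⟨mem_Icc.2 (mem_PP.1 h7).1, h7, ?_, ?_, h9, h8, ?_⟩, h1⟩
        · exact_mod_cast hDz.trans h8
        · rw [← h1]; exact h2
        · show 2 ≤ r * m
          nlinarith) (by
      rintro ⟨r, p1, m⟩ hk
      rcases (F ⟨r, p1, m⟩).eq_empty_or_nonempty with h0 | ⟨q0, hq0⟩
      · rw [h0]; simp; positivity
      · have hD2 : 2 ≤ r * m := (mem_filter.1 hq0).2.2.2.2.2.2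
        have h2 := hfib x (r * m) p1 (yy x) hD2 hy1 (F ⟨r, p1, m⟩) (by
          intro q hq
          obtain ⟨_, a1, a2, a3, a4, a5, _⟩ := mem_filter.1 hq
          exact ⟨a1, a2, a3, a4, a5⟩)
        push_cast at h2
        refine h2.trans (le_of_eq ?_)
        ring)
  have h2 : ∑ k ∈ K, ((k.1 : ℝ) * k.2.2) ^ (-(1 / 2 + 2 * (1 / 1000000 : ℝ))) ≤
      C' * (x : ℝ) ^ (1 / 1000000 : ℝ) := by
    rw [Finset.sum_sigma]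
    refine le_trans (le_of_eq (sum_congr rfl fun r _ => ?_)) (hsum x hx1)
    rw [Finset.sum_sigma]
  have hyinv : (yy x)⁻¹ = (x : ℝ) ^ (-(1 / 63 : ℝ)) := by rw [yy, ← rpow_neg hx0.le]
  rw [hyinv] at h1
  calc (A.card : ℝ) ≤ _ := h1
    _ ≤ _ * (C' * (x : ℝ) ^ (1 / 1000000 : ℝ)) := mul_le_mul_of_nonneg_left h2 (by positivity)
    _ = C * C' * ((x : ℝ) ^ (1 / 2 + 4 * (1 / 1000000 : ℝ)) *
      (x : ℝ) ^ (-(1 / 63 : ℝ)) * (x : ℝ) ^ (1 / 1000000 : ℝ)) := by ring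
    _ = C * C' * (x : ℝ) ^ ((1 / 2 + 4 * (1 / 1000000 : ℝ)) + (-(1 / 63 : ℝ)) + 1 / 1000000) := by
        rw [← rpow_add hx0, ← rpow_add hx0]
    _ ≤ _ := mul_le_mul_of_nonneg_left (fin_exp hx1 (by norm_num)) (by positivity)

theorem caseA2 : ∃ C : ℝ, 0 < C ∧ ∀ x : ℕ, 1 ≤ x → ∀ A : Finset ℕ,
    (∀ n ∈ A, ∃ r p1 m E : ℕ, n = r * m * E ∧ n ≤ x ∧ 2 ≤ r ∧ r ∈ QQ x ∧ p1 ∣ r ∧ m ∈ UU x p1 ∧
      1 ≤ E ∧ Odd E ∧ Lam x (r * m) ∣ r * m * E - 1 ∧ Nz x E ∧ (Sy x E p1 ∨ Sy x E 1) ∧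
      yy x ≤ (E : ℝ) ^ (1 / 2 : ℝ) ∧
      yy x * ((E : ℝ) / (Lam x (r * m) : ℕ)) ^ (2 / 3 : ℝ) ≤ (E : ℝ) ^ (1 / 2 : ℝ)) →
    (A.card : ℝ) ≤ C * (x : ℝ) ^ (31 / 64 : ℝ) := by
  classical
  obtain ⟨C, hC, hfib⟩ := ap_fib (1 / 1000000) (by norm_num) (by norm_num)
  obtain ⟨C', hC', hsum⟩ := sumA (1 / 1000000) (by norm_num)
  refine ⟨C * C', by positivity, ?_⟩
  intro x hx1 A hA
  have hx1' : (1 : ℝ) ≤ x := by exact_mod_cast hx1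
  have hx0 : (0 : ℝ) < x := by linarith
  have hy1 := yy_one hx1
  have hy0 : 0 < yy x := by linarith
  let K : Finset ((_ : ℕ) × (_ : ℕ) × ℕ) := (QQ x).sigma
    (fun r => r.divisors.sigma (fun p1 => UU x p1))
  let F : ((_ : ℕ) × (_ : ℕ) × ℕ) → Finset ℕ := fun k =>
    (Icc 1 x).filter (fun E => ((1 ≤ E ∧ Odd E ∧ k.1 * k.2.2 * E ≤ x ∧
      Lam x (k.1 * k.2.2) ∣ k.1 * k.2.2 * E - 1 ∧ Nz x E ∧ (Sy x E k.2.1 ∨ Sy x E 1)) ∧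
      yy x ≤ (E : ℝ) ^ (1 / 2 : ℝ) ∧
      yy x * ((E : ℝ) / (Lam x (k.1 * k.2.2) : ℕ)) ^ (2 / 3 : ℝ) ≤ (E : ℝ) ^ (1 / 2 : ℝ)) ∧
      2 ≤ k.1 * k.2.2)
  have h1 := count_img K A F (fun k q => k.1 * k.2.2 * q)
    (fun k => ((k.1 : ℝ) * k.2.2) ^ (-(1 / 2 + 2 * (1 / 1000000 : ℝ))))
    (C * (x : ℝ) ^ (1 / 2 + 4 * (1 / 1000000 : ℝ)) * (yy x)⁻¹) (by
      intro n hn
      obtain ⟨r, p1, m, E, h1, h2, h3, h4, h5, h6, h8, h9, h12, h13, h14, h15, h16⟩ := hA n hn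
      have hm := (mem_UU.1 h6).1.1
      have hr := (mem_QQ.1 h4).1.1
      have hD2 : 2 ≤ r * m := by nlinarith
      have hDE : r * m * E ≤ x := by rw [← h1]; exact h2
      refine ⟨⟨r, p1, m⟩, ?_, ?_⟩
      · rw [mem_sigma, mem_sigma, Nat.mem_divisors]
        exact ⟨h4, ⟨h5, Nat.pos_iff_ne_zero.1 hr⟩, h6⟩
      · exact ⟨E, mem_filter.2 ⟨mem_Icc.2 ⟨h8, by nlinarith⟩, ⟨⟨h8, h9, hDE, h12, h13, h14⟩,
          h15, h16⟩, hD2⟩, h1⟩) (by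
      rintro ⟨r, p1, m⟩ hk
      rcases (F ⟨r, p1, m⟩).eq_empty_or_nonempty with h0 | ⟨q0, hq0⟩
      · rw [h0]; simp; positivity
      · have hD2 : 2 ≤ r * m := (mem_filter.1 hq0).2.2
        have h2 := hfib x (r * m) p1 (yy x) hD2 hy1 (F ⟨r, p1, m⟩) (by
          intro q hq
          exact (mem_filter.1 hq).2.1)
        push_cast at h2
        refine h2.trans (le_of_eq ?_)
        ring)
  have h2 : ∑ k ∈ K, ((k.1 : ℝ) * k.2.2) ^ (-(1 / 2 + 2 * (1 / 1000000 : ℝ))) ≤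
      C' * (x : ℝ) ^ (1 / 1000000 : ℝ) := by
    rw [Finset.sum_sigma]
    refine le_trans (le_of_eq (sum_congr rfl fun r _ => ?_)) (hsum x hx1)
    rw [Finset.sum_sigma]
  have hyinv : (yy x)⁻¹ = (x : ℝ) ^ (-(1 / 63 : ℝ)) := by rw [yy, ← rpow_neg hx0.le]
  rw [hyinv] at h1
  calc (A.card : ℝ) ≤ _ := h1
    _ ≤ _ * (C' * (x : ℝ) ^ (1 / 1000000 : ℝ)) := mul_le_mul_of_nonneg_left h2 (by positivity)
    _ = C * C' * ((x : ℝ) ^ (1 / 2 + 4 * (1 / 1000000 : ℝ)) *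
      (x : ℝ) ^ (-(1 / 63 : ℝ)) * (x : ℝ) ^ (1 / 1000000 : ℝ)) := by ring
    _ = C * C' * (x : ℝ) ^ ((1 / 2 + 4 * (1 / 1000000 : ℝ)) + (-(1 / 63 : ℝ)) + 1 / 1000000) := by
        rw [← rpow_add hx0, ← rpow_add hx0]
    _ ≤ _ := mul_le_mul_of_nonneg_left (fin_exp hx1 (by norm_num)) (by positivity)

/-- the free prime is determined by the rest -/
theorem caseB0 : ∃ C : ℝ, 0 < C ∧ ∀ x : ℕ, 1 ≤ x → ∀ A : Finset ℕ,
    (∀ n ∈ A, ∃ p m : ℕ, n = p * m ∧ n ≤ x ∧ p.Prime ∧ Nz x p ∧ 2 ≤ m ∧ m ∈ UU x 1 ∧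
      Lam x p ∣ m - 1 ∧ (p : ℝ) ^ (1 / 2 : ℝ) * (x : ℝ) ^ (1 / 63 : ℝ) ≤ Lam x p) →
    (A.card : ℝ) ≤ C * (x : ℝ) ^ (31 / 64 : ℝ) := by
  classical
  obtain ⟨R, hR, hU⟩ := UU_sum (1 / 1000000) (by norm_num)
  obtain ⟨C', hC', hd⟩ := card_divisors_le (1 / 1000000) (by norm_num)
  refine ⟨C' * R, by positivity, ?_⟩
  intro x hx1 A hA
  have hx1' : (1 : ℝ) ≤ x := by exact_mod_cast hx1
  have hx0 : (0 : ℝ) < x := by linarith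
  let K : Finset ((_ : ℕ) × ℕ) := (UU x 1).sigma (fun m => (m - 1).divisors)
  let F : ((_ : ℕ) × ℕ) → Finset ℕ := fun k => (Icc 1 x).filter (fun p =>
    2 ≤ p ∧ p * k.1 ≤ x ∧ k.2 ∣ p - 1 ∧
      (p : ℝ) ^ (1 / 2 : ℝ) * (x : ℝ) ^ (1 / 63 : ℝ) ≤ k.2)
  have h1 := count_img K A F (fun k p => p * k.1)
    (fun k => (k.1 : ℝ) ^ (-(1 / 2 + 2 * (1 / 1000000 : ℝ))))
    ((x : ℝ) ^ (1 / 2 + 2 * (1 / 1000000 : ℝ)) * (x : ℝ) ^ (-(1 / 63 : ℝ))) (by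
      intro n hn
      obtain ⟨p, m, h1, h2, h3, h4, h5, h6, h7, h8⟩ := hA n hn
      have hp := h3.two_le
      refine ⟨⟨m, Lam x p⟩, ?_, p, ?_, h1⟩
      · rw [mem_sigma, Nat.mem_divisors]
        exact ⟨h6, h7, show m - 1 ≠ 0 by omega⟩
      · rw [mem_filter, mem_Icc]
        have hpm : p * m ≤ x := by rw [← h1]; exact h2
        exact ⟨⟨by omega, by nlinarith⟩, hp, hpm, lam_dvd_pred h3 h4, h8⟩) (by
      rintro ⟨m, T⟩ hk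
      rw [mem_sigma] at hk
      have hm1 : 1 ≤ m := (mem_UU.1 hk.1).1.1
      have hT1 : 1 ≤ T := Nat.pos_of_mem_divisors hk.2
      have hm0 : (0 : ℝ) < m := by exact_mod_cast hm1
      have hT0 : (0 : ℝ) < T := by exact_mod_cast hT1
      rcases (F ⟨m, T⟩).eq_empty_or_nonempty with h0 | hne
      · rw [h0]; simp; positivity
      obtain ⟨F', hF'⟩ : ∃ F', F' = F ⟨m, T⟩ := ⟨_, rfl⟩
      rw [← hF'] at hne ⊢
      have hFm : ∀ p ∈ F', 2 ≤ p ∧ p * m ≤ x ∧ T ∣ p - 1 ∧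
          (p : ℝ) ^ (1 / 2 : ℝ) * (x : ℝ) ^ (1 / 63 : ℝ) ≤ T := by
        intro p hp
        rw [hF'] at hp
        exact (mem_filter.1 hp).2
      obtain ⟨X', hX'⟩ : ∃ X', X' = F'.max' hne := ⟨_, rfl⟩
      have hX'F : X' ∈ F' := by rw [hX']; exact F'.max'_mem hne
      obtain ⟨g1, g2, g3, g4⟩ := hFm X' hX'F
      have hX0 : (0 : ℝ) < X' := by exact_mod_cast (by omega : 0 < X')
      have hsub : F' ⊆ (Icc 1 (X' / T)).image (fun k => 1 + T * k) := by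
        intro p hp
        obtain ⟨b1, b2, ⟨k, hk⟩, b4⟩ := hFm p hp
        have hpX : p ≤ X' := by rw [hX']; exact F'.le_max' p hp
        rw [mem_image]
        refine ⟨k, ?_, by omega⟩
        rw [mem_Icc]
        constructor
        · rcases Nat.eq_zero_or_pos k with h | h
          · rw [h, mul_zero] at hk; omega
          · exact h
        · rw [Nat.le_div_iff_mul_le hT1, mul_comm, ← hk]; omega
      have h2 : (F'.card : ℝ) ≤ (X' : ℝ) / T := by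
        have h3 := (card_le_card hsub).trans card_image_le
        rw [Nat.card_Icc, Nat.add_sub_cancel] at h3
        exact le_trans (by exact_mod_cast h3) Nat.cast_div_le
      have hxκ : 0 < (x : ℝ) ^ (1 / 63 : ℝ) := by positivity
      have h3 : (X' : ℝ) / T ≤ (X' : ℝ) ^ (1 / 2 : ℝ) * (x : ℝ) ^ (-(1 / 63 : ℝ)) := by
        rw [div_le_iff₀ hT0]
        calc (X' : ℝ) = (X' : ℝ) ^ (1 / 2 : ℝ) * (x : ℝ) ^ (-(1 / 63 : ℝ)) *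
              ((X' : ℝ) ^ (1 / 2 : ℝ) * (x : ℝ) ^ (1 / 63 : ℝ)) := by
              have i1 : (X' : ℝ) ^ (1 / 2 : ℝ) * (X' : ℝ) ^ (1 / 2 : ℝ) = X' := by
                rw [← rpow_add hX0]; norm_num
              have i2 : (x : ℝ) ^ (-(1 / 63 : ℝ)) * (x : ℝ) ^ (1 / 63 : ℝ) = 1 := by
                rw [← rpow_add hx0]; norm_num
              calc (X' : ℝ) = X' * 1 := (mul_one _).symm
                _ = ((X' : ℝ) ^ (1 / 2 : ℝ) * (X' : ℝ) ^ (1 / 2 : ℝ)) *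
                    ((x : ℝ) ^ (-(1 / 63 : ℝ)) * (x : ℝ) ^ (1 / 63 : ℝ)) := by rw [i1, i2]
                _ = _ := by ring
          _ ≤ _ := mul_le_mul_of_nonneg_left g4 (by positivity)
      have h4 : (X' : ℝ) ^ (1 / 2 : ℝ) ≤ (x : ℝ) ^ (1 / 2 + 2 * (1 / 1000000 : ℝ)) *
          (m : ℝ) ^ (-(1 / 2 + 2 * (1 / 1000000 : ℝ))) :=
        weight_le (by norm_num) (by norm_num) hm1 (by omega) (by rw [mul_comm]; exact g2)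
      calc (F'.card : ℝ) ≤ _ := h2
        _ ≤ _ := h3
        _ ≤ ((x : ℝ) ^ (1 / 2 + 2 * (1 / 1000000 : ℝ)) *
            (m : ℝ) ^ (-(1 / 2 + 2 * (1 / 1000000 : ℝ)))) * (x : ℝ) ^ (-(1 / 63 : ℝ)) :=
            mul_le_mul_of_nonneg_right h4 (by positivity)
        _ = _ := by ring)
  have h2 : ∑ k ∈ K, (k.1 : ℝ) ^ (-(1 / 2 + 2 * (1 / 1000000 : ℝ))) ≤
      C' * (x : ℝ) ^ (1 / 1000000 : ℝ) * R := by
    rw [Finset.sum_sigma]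
    have h3 : ∀ m ∈ UU x 1, ∑ _s ∈ (m - 1).divisors, (m : ℝ) ^ (-(1 / 2 + 2 * (1 / 1000000 : ℝ))) ≤
        C' * (x : ℝ) ^ (1 / 1000000 : ℝ) * (m : ℝ) ^ (-(1 / 2 + 2 * (1 / 1000000 : ℝ))) := by
      intro m hm
      rw [sum_const, nsmul_eq_mul]
      apply mul_le_mul_of_nonneg_right _ (by positivity)
      rcases Nat.lt_or_ge m 2 with h | h
      · have : m - 1 = 0 := by omega
        rw [this]; simp; positivity
      · have := (mem_UU.1 hm).1.2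
        exact hd x (m - 1) (by omega) (by omega)
    refine (sum_le_sum h3).trans ?_
    rw [← mul_sum]
    exact mul_le_mul_of_nonneg_left (hU x 1) (by positivity)
  calc (A.card : ℝ) ≤ _ := h1
    _ ≤ _ * (C' * (x : ℝ) ^ (1 / 1000000 : ℝ) * R) :=
        mul_le_mul_of_nonneg_left h2 (by positivity)
    _ = C' * R * ((x : ℝ) ^ (1 / 2 + 2 * (1 / 1000000 : ℝ)) * (x : ℝ) ^ (-(1 / 63 : ℝ)) *
        (x : ℝ) ^ (1 / 1000000 : ℝ)) := by ring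
    _ = C' * R * (x : ℝ) ^ (1 / 2 + 2 * (1 / 1000000 : ℝ) + -(1 / 63 : ℝ) + 1 / 1000000) := by
        rw [← rpow_add hx0, ← rpow_add hx0]
    _ ≤ _ := mul_le_mul_of_nonneg_left (fin_exp hx1 (by norm_num)) (by positivity)

open Classical in
/-- the primes without small divisors -/
noncomputable def P0 (x : ℕ) : Finset ℕ := (Icc 1 x).filter (fun p => p.Prime ∧ Nz x p)

lemma mem_P0 {x p : ℕ} : p ∈ P0 x ↔ (1 ≤ p ∧ p ≤ x) ∧ p.Prime ∧ Nz x p := by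
  unfold P0
  simp only [mem_filter, mem_Icc]

/-- the weights if one prime is free -/
theorem sumB : ∃ C : ℝ, 0 < C ∧ ∀ x : ℕ, 1 ≤ x →
    ∑ k ∈ P0 x ×ˢ UU x 1, ((k.1 : ℝ) * k.2) ^ (-(1 / 2 + 2 * (1 / 1000000 : ℝ))) * (yp x k.1)⁻¹ ≤
      C * ((x : ℝ) ^ (-(1 / 63 : ℝ)) * (x : ℝ) ^ (1 / 1000000 : ℝ)) := by
  obtain ⟨R, hR, hU⟩ := UU_sum (1 / 1000000) (by norm_num)
  obtain ⟨C', hC', hsum⟩ := inv_lam_sum (1 / 1000000) (by norm_num)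
  refine ⟨C' * R, by positivity, fun x hx1 => ?_⟩
  have hx1' : (1 : ℝ) ≤ x := by exact_mod_cast hx1
  have hx0 : (0 : ℝ) < x := by linarith
  rw [Finset.sum_product]
  have h1 : ∀ p ∈ P0 x, ∑ m ∈ UU x 1, ((p : ℝ) * m) ^ (-(1 / 2 + 2 * (1 / 1000000 : ℝ))) *
      (yp x p)⁻¹ ≤ (x : ℝ) ^ (-(1 / 63 : ℝ)) * R * (1 / ((Lam x p : ℕ) : ℝ)) := by
    intro p hp
    obtain ⟨⟨a1, a2⟩, a3, a4⟩ := mem_P0.1 hp
    have hp1 : (1 : ℝ) ≤ p := by exact_mod_cast a1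
    have hp0 : (0 : ℝ) < p := by linarith
    have hL0 : (0 : ℝ) < (Lam x p : ℕ) := by exact_mod_cast lam_pos a3 a4
    have hyp := yp_one hx1 p
    have hyp0 : 0 < yp x p := by linarith
    have h2 : ∀ m ∈ UU x 1, ((p : ℝ) * m) ^ (-(1 / 2 + 2 * (1 / 1000000 : ℝ))) * (yp x p)⁻¹ =
        (p : ℝ) ^ (-(1 / 2 + 2 * (1 / 1000000 : ℝ))) * (yp x p)⁻¹ *
          (m : ℝ) ^ (-(1 / 2 + 2 * (1 / 1000000 : ℝ))) := by
      intro m _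
      rw [mul_rpow (Nat.cast_nonneg _) (Nat.cast_nonneg _)]
      ring
    rw [sum_congr rfl h2, ← mul_sum]
    have h3 : (p : ℝ) ^ (-(1 / 2 + 2 * (1 / 1000000 : ℝ))) * (yp x p)⁻¹ ≤
        (x : ℝ) ^ (-(1 / 63 : ℝ)) * (1 / ((Lam x p : ℕ) : ℝ)) := by
      have i1 : (p : ℝ) ^ (-(1 / 2 + 2 * (1 / 1000000 : ℝ))) ≤ (p : ℝ) ^ (-(1 / 2 : ℝ)) :=
        rpow_le_rpow_of_exponent_le hp1 (by norm_num)
      have i2 : (x : ℝ) ^ (1 / 63 : ℝ) * (((Lam x p : ℕ) : ℝ) / (p : ℝ) ^ (1 / 2 : ℝ)) ≤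
          yp x p := by
        unfold yp
        exact mul_le_mul_of_nonneg_left (le_max_right _ _) (by positivity)
      have i3 : (yp x p)⁻¹ ≤ ((x : ℝ) ^ (1 / 63 : ℝ) *
          (((Lam x p : ℕ) : ℝ) / (p : ℝ) ^ (1 / 2 : ℝ)))⁻¹ := inv_anti₀ (by positivity) i2
      calc _ ≤ (p : ℝ) ^ (-(1 / 2 : ℝ)) * ((x : ℝ) ^ (1 / 63 : ℝ) *
          (((Lam x p : ℕ) : ℝ) / (p : ℝ) ^ (1 / 2 : ℝ)))⁻¹ := by gcongr
        _ = _ := by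
          rw [rpow_neg hp0.le, rpow_neg hx0.le]
          have : (p : ℝ) ^ (1 / 2 : ℝ) ≠ 0 := by positivity
          field_simp
    calc _ ≤ ((x : ℝ) ^ (-(1 / 63 : ℝ)) * (1 / ((Lam x p : ℕ) : ℝ))) * R :=
          mul_le_mul h3 (hU x 1) (sum_nonneg fun _ _ => by positivity) (by positivity)
      _ = _ := by ring
  refine (sum_le_sum h1).trans ?_
  rw [← mul_sum]
  have h4 := hsum x hx1 (P0 x) (by
    intro p hp
    obtain ⟨⟨a1, a2⟩, a3, a4⟩ := mem_P0.1 hp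
    exact ⟨a3, a2, a4⟩)
  calc _ ≤ (x : ℝ) ^ (-(1 / 63 : ℝ)) * R * (C' * (x : ℝ) ^ (1 / 1000000 : ℝ)) :=
        mul_le_mul_of_nonneg_left h4 (by positivity)
    _ = _ := by ring

theorem caseB1 : ∃ C : ℝ, 0 < C ∧ ∃ X0 : ℕ, ∀ x : ℕ, X0 ≤ x → ∀ A : Finset ℕ,
    (∀ n ∈ A, ∃ p m q : ℕ, n = p * m * q ∧ n ≤ x ∧ p ∈ P0 x ∧ m ∈ UU x 1 ∧
      q ∈ PP x 1 ∧ (yp x p) ^ (6 : ℝ) ≤ q ∧ Lam x q ∣ p * m - 1) →
    (A.card : ℝ) ≤ C * (x : ℝ) ^ (31 / 64 : ℝ) := by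
  classical
  obtain ⟨C, hC, D0, hfib⟩ := prime_fib (1 / 1000000) (by norm_num) (by norm_num)
  obtain ⟨C', hC', hsum⟩ := sumB
  obtain ⟨X0, hX01, hX0⟩ := pow_large (1 / 63) (by norm_num) D0
  refine ⟨C * C', by positivity, X0, ?_⟩
  intro x hx A hA
  have hx1 : 1 ≤ x := hX01.trans hx
  have hx1' : (1 : ℝ) ≤ x := by exact_mod_cast hx1
  have hx0 : (0 : ℝ) < x := by linarith
  have hDz : ∀ p, (D0 : ℝ) ≤ (yp x p) ^ (6 : ℝ) := by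
    intro p
    refine (hX0 x hx).trans ?_
    calc (x : ℝ) ^ (1 / 63 : ℝ) ≤ yp x p := yy_le_yp x p
      _ = (yp x p) ^ (1 : ℝ) := (rpow_one _).symm
      _ ≤ _ := rpow_le_rpow_of_exponent_le (yp_one hx1 p) (by norm_num)
  let F : ℕ × ℕ → Finset ℕ := fun k =>
    (Icc 1 x).filter (fun q => q ∈ PP x 1 ∧ D0 ≤ q ∧ k.1 * k.2 * q ≤ x ∧
      Lam x q ∣ k.1 * k.2 - 1 ∧ (yp x k.1) ^ (6 : ℝ) ≤ q ∧ 2 ≤ k.1 * k.2)
  have h1 := count_img (P0 x ×ˢ UU x 1) A F (fun k q => k.1 * k.2 * q)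
    (fun k => ((k.1 : ℝ) * k.2) ^ (-(1 / 2 + 2 * (1 / 1000000 : ℝ))) * (yp x k.1)⁻¹)
    (C * (x : ℝ) ^ (1 / 2 + 4 * (1 / 1000000 : ℝ))) (by
      intro n hn
      obtain ⟨p, m, q, h1, h2, h3, h6, h7, h8, h9⟩ := hA n hn
      have hm := (mem_UU.1 h6).1.1
      have hp := (mem_P0.1 h3).2.1.two_le
      refine ⟨⟨p, m⟩, ?_, ?_⟩
      · rw [mem_product]
        exact ⟨h3, h6⟩
      · refine ⟨q, mem_filter.2 ⟨mem_Icc.2 (mem_PP.1 h7).1, h7, ?_, ?_, h9, h8, ?_⟩, h1⟩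
        · exact_mod_cast (hDz p).trans h8
        · rw [← h1]; exact h2
        · show 2 ≤ p * m
          nlinarith) (by
      rintro ⟨p, m⟩ hk
      have hyp := yp_one hx1 p
      have hyp0 : 0 < yp x p := by linarith
      rcases (F ⟨p, m⟩).eq_empty_or_nonempty with h0 | ⟨q0, hq0⟩
      · rw [h0]; simp; positivity
      · have hD2 : 2 ≤ p * m := (mem_filter.1 hq0).2.2.2.2.2.2
        have h2 := hfib x (p * m) 1 (yp x p) hD2 hyp (F ⟨p, m⟩) (by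
          intro q hq
          obtain ⟨_, a1, a2, a3, a4, a5, _⟩ := mem_filter.1 hq
          exact ⟨a1, a2, a3, a4, a5⟩)
        push_cast at h2
        exact h2)
  have h2 := hsum x hx1
  calc (A.card : ℝ) ≤ _ := h1
    _ ≤ _ * (C' * ((x : ℝ) ^ (-(1 / 63 : ℝ)) * (x : ℝ) ^ (1 / 1000000 : ℝ))) :=
        mul_le_mul_of_nonneg_left h2 (by positivity)
    _ = C * C' * ((x : ℝ) ^ (1 / 2 + 4 * (1 / 1000000 : ℝ)) * (x : ℝ) ^ (-(1 / 63 : ℝ)) *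
      (x : ℝ) ^ (1 / 1000000 : ℝ)) := by ring
    _ = C * C' * (x : ℝ) ^ ((1 / 2 + 4 * (1 / 1000000 : ℝ)) + (-(1 / 63 : ℝ)) + 1 / 1000000) := by
        rw [← rpow_add hx0, ← rpow_add hx0]
    _ ≤ _ := mul_le_mul_of_nonneg_left (fin_exp hx1 (by norm_num)) (by positivity)

theorem caseB2 : ∃ C : ℝ, 0 < C ∧ ∀ x : ℕ, 1 ≤ x → ∀ A : Finset ℕ,
    (∀ n ∈ A, ∃ p m E : ℕ, n = p * m * E ∧ n ≤ x ∧ p ∈ P0 x ∧ m ∈ UU x 1 ∧
      1 ≤ E ∧ Odd E ∧ Lam x (p * m) ∣ p * m * E - 1 ∧ Nz x E ∧ (Sy x E 1 ∨ Sy x E 1) ∧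
      yp x p ≤ (E : ℝ) ^ (1 / 2 : ℝ) ∧
      yp x p * ((E : ℝ) / (Lam x (p * m) : ℕ)) ^ (2 / 3 : ℝ) ≤ (E : ℝ) ^ (1 / 2 : ℝ)) →
    (A.card : ℝ) ≤ C * (x : ℝ) ^ (31 / 64 : ℝ) := by
  classical
  obtain ⟨C, hC, hfib⟩ := ap_fib (1 / 1000000) (by norm_num) (by norm_num)
  obtain ⟨C', hC', hsum⟩ := sumB
  refine ⟨C * C', by positivity, ?_⟩
  intro x hx1 A hA
  have hx1' : (1 : ℝ) ≤ x := by exact_mod_cast hx1
  have hx0 : (0 : ℝ) < x := by linarith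
  let F : ℕ × ℕ → Finset ℕ := fun k =>
    (Icc 1 x).filter (fun E => ((1 ≤ E ∧ Odd E ∧ k.1 * k.2 * E ≤ x ∧
      Lam x (k.1 * k.2) ∣ k.1 * k.2 * E - 1 ∧ Nz x E ∧ (Sy x E 1 ∨ Sy x E 1)) ∧
      yp x k.1 ≤ (E : ℝ) ^ (1 / 2 : ℝ) ∧
      yp x k.1 * ((E : ℝ) / (Lam x (k.1 * k.2) : ℕ)) ^ (2 / 3 : ℝ) ≤ (E : ℝ) ^ (1 / 2 : ℝ)) ∧
      2 ≤ k.1 * k.2)
  have h1 := count_img (P0 x ×ˢ UU x 1) A F (fun k q => k.1 * k.2 * q)
    (fun k => ((k.1 : ℝ) * k.2) ^ (-(1 / 2 + 2 * (1 / 1000000 : ℝ))) * (yp x k.1)⁻¹)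
    (C * (x : ℝ) ^ (1 / 2 + 4 * (1 / 1000000 : ℝ))) (by
      intro n hn
      obtain ⟨p, m, E, h1, h2, h3, h6, h8, h9, h12, h13, h14, h15, h16⟩ := hA n hn
      have hm := (mem_UU.1 h6).1.1
      have hp := (mem_P0.1 h3).2.1.two_le
      have hD2 : 2 ≤ p * m := by nlinarith
      have hDE : p * m * E ≤ x := by rw [← h1]; exact h2
      refine ⟨⟨p, m⟩, ?_, ?_⟩
      · rw [mem_product]
        exact ⟨h3, h6⟩
      · exact ⟨E, mem_filter.2 ⟨mem_Icc.2 ⟨h8, by nlinarith⟩, ⟨⟨h8, h9, hDE, h12, h13, h14⟩,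
          h15, h16⟩, hD2⟩, h1⟩) (by
      rintro ⟨p, m⟩ hk
      have hyp := yp_one hx1 p
      have hyp0 : 0 < yp x p := by linarith
      rcases (F ⟨p, m⟩).eq_empty_or_nonempty with h0 | ⟨q0, hq0⟩
      · rw [h0]; simp; positivity
      · have hD2 : 2 ≤ p * m := (mem_filter.1 hq0).2.2
        have h2 := hfib x (p * m) 1 (yp x p) hD2 hyp (F ⟨p, m⟩) (by
          intro q hq
          exact (mem_filter.1 hq).2.1)
        push_cast at h2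
        exact h2)
  have h2 := hsum x hx1
  calc (A.card : ℝ) ≤ _ := h1
    _ ≤ _ * (C' * ((x : ℝ) ^ (-(1 / 63 : ℝ)) * (x : ℝ) ^ (1 / 1000000 : ℝ))) :=
        mul_le_mul_of_nonneg_left h2 (by positivity)
    _ = C * C' * ((x : ℝ) ^ (1 / 2 + 4 * (1 / 1000000 : ℝ)) * (x : ℝ) ^ (-(1 / 63 : ℝ)) *
      (x : ℝ) ^ (1 / 1000000 : ℝ)) := by ring
    _ = C * C' * (x : ℝ) ^ ((1 / 2 + 4 * (1 / 1000000 : ℝ)) + (-(1 / 63 : ℝ)) + 1 / 1000000) := by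
        rw [← rpow_add hx0, ← rpow_add hx0]
    _ ≤ _ := mul_le_mul_of_nonneg_left (fin_exp hx1 (by norm_num)) (by positivity)

end Pool.Agent.H35.WS
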