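import Pool.Agent.H35.WS.Ls

set_option autoImplicit false

/-! The number of possible last factors. -/

namespace Pool.Agent.H35.WS

open Finset Real Pool.Agent.K1H88.WS Pool.Agent.W57.SW

/-- primes in a progression with prescribed symbols and large order -/
lemma ap_prime0 (δ : ℝ) (hδ : 0 < δ) (hδ1 : δ ≤ 1 / 1000) : ∃ C : ℝ, 0 < C ∧ ∃ D0 : ℕ,
    ∀ x X T m0 : ℕ, X ≤ x → 1 ≤ T → T ≤ X → ∀ F : Finset ℕ, F.Nonempty →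
    (∀ q ∈ F, q ∈ PP x m0 ∧ D0 ≤ q ∧ q ≤ X ∧ Lam x q = T) →
    ∃ X' : ℕ, 1 ≤ X' ∧ X' ≤ X ∧ T ≤ X' ∧ (X' : ℝ) ^ (1 / 2 - δ) ≤ T ∧
    (F.card : ℝ) ≤ C * (X : ℝ) ^ δ * (((X' : ℝ) / T) ^ (2 / 3 : ℝ) + 1) := by
  classical
  obtain ⟨C, hC, hap⟩ := Pool.Agent.H35.WS.ap_count δ hδ (by linarith)
  obtain ⟨D0, hD0⟩ := lam_lower δ hδ
  refine ⟨2 * C, by positivity, D0, ?_⟩
  intro x X T m0 hXx hT1 hTX F hne hF
  obtain ⟨X', hX'⟩ : ∃ X', X' = F.max' hne := ⟨_, rfl⟩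
  have hX'F : X' ∈ F := by rw [hX']; exact F.max'_mem hne
  obtain ⟨g1, g2, g3, g4⟩ := hF X' hX'F
  rw [mem_PP] at g1
  obtain ⟨⟨g5, g6⟩, g7, g8, g9, g10⟩ := g1
  have hlow := hD0 x X' g7 g2 g6 g9
  rw [g4] at hlow
  have hTX' : T ≤ X' := by
    have h2 := Nat.le_of_dvd (Nat.sub_pos_of_lt g7.one_lt) (lam_dvd_pred g7 g9)
    rw [g4] at h2
    omega
  refine ⟨X', g5, g3, hTX', hlow, ?_⟩
  have hcount : ∀ m1 : ℕ, ((F.filter (fun q => Sy x q m1)).card : ℝ) ≤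
      C * (X : ℝ) ^ δ * (((X' : ℝ) / T) ^ (2 / 3 : ℝ) + 1) := by
    intro m1
    refine hap x X X' T 1 m1 hXx g3 hT1 hTX (F.filter (fun q => Sy x q m1)) ?_
    intro q hq
    rw [mem_filter] at hq
    obtain ⟨hqF, hqs⟩ := hq
    obtain ⟨b1, b2, b3, b4⟩ := hF q hqF
    have hqodd := PP_odd b1
    rw [mem_PP] at b1
    obtain ⟨⟨b5, b6⟩, b7, b8, b9, b10⟩ := b1
    refine ⟨b5, by rw [hX']; exact F.le_max' q hqF, hqodd, ?_, hqs, b9⟩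
    have h2 := lam_dvd_pred b7 b9
    rw [b4] at h2
    exact ((Nat.modEq_iff_dvd' b5).2 h2).symm
  have h3 : F ⊆ F.filter (fun q => Sy x q m0) ∪ F.filter (fun q => Sy x q 1) := by
    intro q hq
    rw [mem_union]
    rcases (mem_PP.1 (hF q hq).1).2.2.2.2 with h5 | h5
    · exact Or.inl (mem_filter.2 ⟨hq, h5⟩)
    · exact Or.inr (mem_filter.2 ⟨hq, h5⟩)
  have h4 := (card_le_card h3).trans (card_union_le _ _)
  have h5 : (F.card : ℝ) ≤ ((F.filter (fun q => Sy x q m0)).card : ℝ) +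
    ((F.filter (fun q => Sy x q 1)).card : ℝ) := by exact_mod_cast h4
  have h6 := hcount m0
  have h7 := hcount 1
  linarith

/-- the count for a fixed order -/
lemma ap_prime (δ : ℝ) (hδ : 0 < δ) (hδ1 : δ ≤ 1 / 1000) : ∃ C : ℝ, 0 < C ∧ ∃ D0 : ℕ,
    ∀ x X T m0 : ℕ, X ≤ x → 1 ≤ T → T ≤ X → ∀ F : Finset ℕ,
    (∀ q ∈ F, q ∈ PP x m0 ∧ D0 ≤ q ∧ q ≤ X ∧ Lam x q = T) →
    (F.card : ℝ) ≤ C * (X : ℝ) ^ (1 / 3 + 3 * δ) := by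
  classical
  obtain ⟨C, hC, D0, h⟩ := ap_prime0 δ hδ hδ1
  refine ⟨2 * C, by positivity, D0, ?_⟩
  intro x X T m0 hXx hT1 hTX F hF
  rcases F.eq_empty_or_nonempty with h0 | hne
  · rw [h0]; simp; positivity
  obtain ⟨X', g1, g2, g3, g4, g5⟩ := h x X T m0 hXx hT1 hTX F hne hF
  have hX'1 : (1 : ℝ) ≤ X' := by exact_mod_cast g1
  have hX'0 : (0 : ℝ) < X' := by linarith
  have hX'X : (X' : ℝ) ≤ X := by exact_mod_cast g2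
  have hX1 : (1 : ℝ) ≤ X := hX'1.trans hX'X
  have hX0 : (0 : ℝ) < X := by linarith
  have hT0 : (0 : ℝ) < T := by exact_mod_cast hT1
  have hZ : (X' : ℝ) / T ≤ (X : ℝ) ^ (1 / 2 + δ) := by
    have h1 : (X' : ℝ) / T ≤ (X' : ℝ) / (X' : ℝ) ^ (1 / 2 - δ) :=
      div_le_div_of_nonneg_left hX'0.le (by positivity) g4
    have h2 : (X' : ℝ) / (X' : ℝ) ^ (1 / 2 - δ) = (X' : ℝ) ^ (1 / 2 + δ) := by
      rw [div_eq_iff (by positivity), ← rpow_add hX'0]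
      rw [show (1 / 2 + δ + (1 / 2 - δ) : ℝ) = 1 by ring, rpow_one]
    rw [h2] at h1
    exact h1.trans (rpow_le_rpow hX'0.le hX'X (by linarith))
  refine g5.trans ?_
  have h2 : ((X' : ℝ) / T) ^ (2 / 3 : ℝ) ≤ (X : ℝ) ^ (1 / 3 + 2 * δ) := by
    calc ((X' : ℝ) / T) ^ (2 / 3 : ℝ) ≤ ((X : ℝ) ^ (1 / 2 + δ)) ^ (2 / 3 : ℝ) :=
          rpow_le_rpow (by positivity) hZ (by norm_num)
      _ = (X : ℝ) ^ ((1 / 2 + δ) * (2 / 3)) := by rw [← rpow_mul hX0.le]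
      _ ≤ (X : ℝ) ^ (1 / 3 + 2 * δ) := rpow_le_rpow_of_exponent_le hX1 (by linarith)
  have h3 : (1 : ℝ) ≤ (X : ℝ) ^ (1 / 3 + 2 * δ) := one_le_rpow hX1 (by positivity)
  calc C * (X : ℝ) ^ δ * (((X' : ℝ) / T) ^ (2 / 3 : ℝ) + 1) ≤
      C * (X : ℝ) ^ δ * (2 * (X : ℝ) ^ (1 / 3 + 2 * δ)) :=
        mul_le_mul_of_nonneg_left (by linarith) (by positivity)
    _ = 2 * C * ((X : ℝ) ^ δ * (X : ℝ) ^ (1 / 3 + 2 * δ)) := by ring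
    _ = 2 * C * (X : ℝ) ^ (1 / 3 + 3 * δ) := by
        rw [← rpow_add hX0]; congr 2; ring

/-- the count for a fixed order, with a factor for the order -/
lemma ap_prime_T (δ : ℝ) (hδ : 0 < δ) (hδ1 : δ ≤ 1 / 1000) : ∃ C : ℝ, 0 < C ∧ ∃ D0 : ℕ,
    ∀ x X T m0 : ℕ, X ≤ x → 1 ≤ T → T ≤ X → ∀ F : Finset ℕ,
    (∀ q ∈ F, q ∈ PP x m0 ∧ D0 ≤ q ∧ q ≤ X ∧ Lam x q = T) →
    (F.card : ℝ) ≤ C * (X : ℝ) ^ (5 / 12 + 2 * δ) * (T : ℝ) ^ (-(1 / 6 : ℝ)) := by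
  classical
  obtain ⟨C, hC, D0, h⟩ := ap_prime0 δ hδ hδ1
  refine ⟨2 * C, by positivity, D0, ?_⟩
  intro x X T m0 hXx hT1 hTX F hF
  rcases F.eq_empty_or_nonempty with h0 | hne
  · rw [h0]; simp; positivity
  obtain ⟨X', g1, g2, g3, g4, g5⟩ := h x X T m0 hXx hT1 hTX F hne hF
  have hX'1 : (1 : ℝ) ≤ X' := by exact_mod_cast g1
  have hX'0 : (0 : ℝ) < X' := by linarith
  have hX'X : (X' : ℝ) ≤ X := by exact_mod_cast g2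
  have hX1 : (1 : ℝ) ≤ X := hX'1.trans hX'X
  have hX0 : (0 : ℝ) < X := by linarith
  have hT1' : (1 : ℝ) ≤ T := by exact_mod_cast hT1
  have hT0 : (0 : ℝ) < T := by linarith
  have hTX' : (T : ℝ) ≤ X' := by exact_mod_cast g3
  refine g5.trans ?_
  have h2 : ((X' : ℝ) / T) ^ (2 / 3 : ℝ) ≤ (X : ℝ) ^ (5 / 12 + δ) * (T : ℝ) ^ (-(1 / 6 : ℝ)) := by
    have i1 : (T : ℝ) ^ (-(1 / 2 : ℝ)) ≤ (X' : ℝ) ^ (-(1 / 4 - δ / 2)) := by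
      calc (T : ℝ) ^ (-(1 / 2 : ℝ)) ≤ ((X' : ℝ) ^ (1 / 2 - δ)) ^ (-(1 / 2 : ℝ)) :=
            rpow_le_rpow_of_nonpos (by positivity) g4 (by norm_num)
        _ = _ := by rw [← rpow_mul hX'0.le]; congr 1; ring
    calc ((X' : ℝ) / T) ^ (2 / 3 : ℝ) = (X' : ℝ) ^ (2 / 3 : ℝ) *
          ((T : ℝ) ^ (-(1 / 2 : ℝ)) * (T : ℝ) ^ (-(1 / 6 : ℝ))) := by
          rw [← rpow_add hT0, div_rpow hX'0.le hT0.le, div_eq_mul_inv, ← rpow_neg hT0.le]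
          norm_num
      _ ≤ (X' : ℝ) ^ (2 / 3 : ℝ) * ((X' : ℝ) ^ (-(1 / 4 - δ / 2)) * (T : ℝ) ^ (-(1 / 6 : ℝ))) := by
          gcongr
      _ = (X' : ℝ) ^ (5 / 12 + δ / 2) * (T : ℝ) ^ (-(1 / 6 : ℝ)) := by
          rw [← mul_assoc, ← rpow_add hX'0]
          congr 2
          ring
      _ ≤ (X : ℝ) ^ (5 / 12 + δ) * (T : ℝ) ^ (-(1 / 6 : ℝ)) := by
          apply mul_le_mul_of_nonneg_right _ (by positivity)
          calc (X' : ℝ) ^ (5 / 12 + δ / 2) ≤ (X : ℝ) ^ (5 / 12 + δ / 2) :=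
                rpow_le_rpow hX'0.le hX'X (by positivity)
            _ ≤ _ := rpow_le_rpow_of_exponent_le hX1 (by linarith)
  have h3 : (1 : ℝ) ≤ (X : ℝ) ^ (5 / 12 + δ) * (T : ℝ) ^ (-(1 / 6 : ℝ)) := by
    have i1 : (X : ℝ) ^ (-(1 / 6 : ℝ)) ≤ (T : ℝ) ^ (-(1 / 6 : ℝ)) :=
      rpow_le_rpow_of_nonpos hT0 (hTX'.trans hX'X) (by norm_num)
    calc (1 : ℝ) ≤ (X : ℝ) ^ (1 / 4 + δ) := one_le_rpow hX1 (by positivity)
      _ = (X : ℝ) ^ (5 / 12 + δ) * (X : ℝ) ^ (-(1 / 6 : ℝ)) := by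
          rw [← rpow_add hX0]; congr 1; ring
      _ ≤ _ := mul_le_mul_of_nonneg_left i1 (by positivity)
  calc C * (X : ℝ) ^ δ * (((X' : ℝ) / T) ^ (2 / 3 : ℝ) + 1) ≤
      C * (X : ℝ) ^ δ * (2 * ((X : ℝ) ^ (5 / 12 + δ) * (T : ℝ) ^ (-(1 / 6 : ℝ)))) :=
        mul_le_mul_of_nonneg_left (by linarith) (by positivity)
    _ = 2 * C * ((X : ℝ) ^ δ * (X : ℝ) ^ (5 / 12 + δ)) * (T : ℝ) ^ (-(1 / 6 : ℝ)) := by ring
    _ = _ := by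
        rw [← rpow_add hX0]; congr 3; ring

/-- a prime last factor -/
theorem prime_fib (e : ℝ) (he : 0 < e) (he1 : e ≤ 1 / 1000) : ∃ C : ℝ, 0 < C ∧ ∃ D0 : ℕ,
    ∀ (x D m0 : ℕ) (y : ℝ), 2 ≤ D → 1 ≤ y → ∀ F : Finset ℕ,
    (∀ q ∈ F, q ∈ PP x m0 ∧ D0 ≤ q ∧ D * q ≤ x ∧ Lam x q ∣ D - 1 ∧ y ^ (6 : ℝ) ≤ q) →
    (F.card : ℝ) ≤ C * (x : ℝ) ^ (1 / 2 + 4 * e) * ((D : ℝ) ^ (-(1 / 2 + 2 * e)) * y⁻¹) := by
  classical
  obtain ⟨C, hC, D0, hap⟩ := Pool.Agent.H35.WS.ap_prime e he he1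
  obtain ⟨C', hC', hdiv⟩ := card_divisors_le e he
  refine ⟨C' * C, by positivity, D0, ?_⟩
  intro x D m0 y hD2 hy F hF
  have hD0 : (0 : ℝ) < D := by exact_mod_cast (by omega : 0 < D)
  have hy0 : 0 < y := by linarith
  rcases F.eq_empty_or_nonempty with h0 | ⟨q0, hq0⟩
  · rw [h0]; simp; positivity
  obtain ⟨a1, a2, a3, a4, a5⟩ := hF q0 hq0
  have hq1 : 1 ≤ q0 := (mem_PP.1 a1).1.1
  have hDx : D ≤ x := by nlinarith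
  have hx1 : (1 : ℝ) ≤ x := by exact_mod_cast (by omega : 1 ≤ x)
  have hx0 : (0 : ℝ) < x := by linarith
  have hcov : F ⊆ (D - 1).divisors.biUnion (fun T => F.filter (fun q => Lam x q = T)) := by
    intro q hq
    rw [mem_biUnion]
    refine ⟨Lam x q, ?_, mem_filter.2 ⟨hq, rfl⟩⟩
    rw [Nat.mem_divisors]
    exact ⟨(hF q hq).2.2.2.1, by omega⟩
  have h1 : (F.card : ℝ) ≤ ∑ T ∈ (D - 1).divisors, ((F.filter (fun q => Lam x q = T)).card : ℝ) := by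
    exact_mod_cast (card_le_card hcov).trans card_biUnion_le
  have h2 : ∀ T ∈ (D - 1).divisors, ((F.filter (fun q => Lam x q = T)).card : ℝ) ≤
      C * ((x : ℝ) / D) ^ (1 / 3 + 3 * e) := by
    intro T hT
    rcases (F.filter (fun q => Lam x q = T)).eq_empty_or_nonempty with h0 | ⟨q0, hq0⟩
    · rw [h0]; simp; positivity
    · rw [mem_filter] at hq0
      obtain ⟨a1, a2, a3, a4, a5⟩ := hF q0 hq0.1
      rw [mem_PP] at a1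
      have hq0X : q0 ≤ x / D := by
        rw [Nat.le_div_iff_mul_le (by omega)]
        rw [mul_comm]; exact a3
      have h3 := Nat.le_of_dvd (Nat.sub_pos_of_lt a1.2.1.one_lt)
        (lam_dvd_pred a1.2.1 a1.2.2.2.1)
      have h4 := lam_pos a1.2.1 a1.2.2.2.1
      rw [hq0.2] at h3 h4
      have h5 := hap x (x / D) T m0 (Nat.div_le_self _ _) h4 (by omega)
        (F.filter (fun q => Lam x q = T)) (by
          intro q hq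
          rw [mem_filter] at hq
          obtain ⟨b1, b2, b3, b4, b5⟩ := hF q hq.1
          refine ⟨b1, b2, ?_, hq.2⟩
          rw [Nat.le_div_iff_mul_le (by omega), mul_comm]
          exact b3)
      refine h5.trans (mul_le_mul_of_nonneg_left ?_ hC.le)
      exact rpow_le_rpow (Nat.cast_nonneg _) Nat.cast_div_le (by linarith)
  have h3 := sum_le_sum h2
  rw [sum_const, nsmul_eq_mul] at h3
  have h4 := hdiv x (D - 1) (by omega) (by omega)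
  have hxD : y ^ (6 : ℝ) ≤ (x : ℝ) / D := by
    rw [le_div_iff₀ hD0]
    have h2 : ((D * q0 : ℕ) : ℝ) ≤ x := by exact_mod_cast a3
    push_cast at h2
    nlinarith
  have hy6 : (1 : ℝ) ≤ y ^ (6 : ℝ) := one_le_rpow hy (by norm_num)
  have hxD0 : 0 < (x : ℝ) / D := by linarith
  have hxD1 : (x : ℝ) / D ≤ x := div_le_self hx0.le (by exact_mod_cast (by omega : 1 ≤ D))
  have h5 : ((x : ℝ) / D) ^ (1 / 3 + 3 * e) ≤
      (x : ℝ) ^ (1 / 2 + 3 * e) * ((D : ℝ) ^ (-(1 / 2 + 2 * e)) * y⁻¹) := by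
    have i1 : ((x : ℝ) / D) ^ (-(1 / 6 : ℝ)) ≤ y⁻¹ := by
      calc ((x : ℝ) / D) ^ (-(1 / 6 : ℝ)) ≤ (y ^ (6 : ℝ)) ^ (-(1 / 6 : ℝ)) :=
            rpow_le_rpow_of_nonpos (by positivity) hxD (by norm_num)
        _ = y⁻¹ := by rw [← rpow_mul hy0.le]; norm_num; exact rpow_neg_one y
    calc ((x : ℝ) / D) ^ (1 / 3 + 3 * e) =
        ((x : ℝ) / D) ^ (1 / 2 + 2 * e) * (((x : ℝ) / D) ^ e * ((x : ℝ) / D) ^ (-(1 / 6 : ℝ))) := by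
          rw [← rpow_add hxD0, ← rpow_add hxD0]; congr 1; ring
      _ ≤ ((x : ℝ) / D) ^ (1 / 2 + 2 * e) * ((x : ℝ) ^ e * y⁻¹) := by
          gcongr
      _ = (x : ℝ) ^ (1 / 2 + 2 * e) * (D : ℝ) ^ (-(1 / 2 + 2 * e)) * ((x : ℝ) ^ e * y⁻¹) := by
          congr 1
          rw [div_rpow hx0.le hD0.le, rpow_neg hD0.le, div_eq_mul_inv]
      _ = ((x : ℝ) ^ (1 / 2 + 2 * e) * (x : ℝ) ^ e) * ((D : ℝ) ^ (-(1 / 2 + 2 * e)) * y⁻¹) := by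
          ring
      _ = _ := by rw [← rpow_add hx0]; congr 2; ring
  calc (F.card : ℝ) ≤ _ := h1
    _ ≤ _ := h3
    _ ≤ (C' * (x : ℝ) ^ e) * (C * ((x : ℝ) / D) ^ (1 / 3 + 3 * e)) :=
        mul_le_mul_of_nonneg_right h4 (by positivity)
    _ ≤ (C' * (x : ℝ) ^ e) * (C * ((x : ℝ) ^ (1 / 2 + 3 * e) *
        ((D : ℝ) ^ (-(1 / 2 + 2 * e)) * y⁻¹))) := by gcongr
    _ = C' * C * ((x : ℝ) ^ e * (x : ℝ) ^ (1 / 2 + 3 * e)) *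
        ((D : ℝ) ^ (-(1 / 2 + 2 * e)) * y⁻¹) := by ring
    _ = _ := by rw [← rpow_add hx0]; congr 3; ring

/-- a last factor in a progression -/
theorem ap_fib0 (e : ℝ) (he : 0 < e) (he1 : e ≤ 1 / 4) : ∃ C : ℝ, 0 < C ∧
    ∀ (x D m0 : ℕ), 2 ≤ D → ∀ F : Finset ℕ, F.Nonempty →
    (∀ E ∈ F, 1 ≤ E ∧ Odd E ∧ D * E ≤ x ∧ Lam x D ∣ D * E - 1 ∧
      Nz x E ∧ (Sy x E m0 ∨ Sy x E 1)) →
    ∃ X' ∈ F, 0 < Lam x D ∧
    (F.card : ℝ) ≤ C * (x : ℝ) ^ e * (((X' : ℝ) / (Lam x D : ℕ)) ^ (2 / 3 : ℝ) + 1) := by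
  classical
  obtain ⟨C, hC, hap⟩ := Pool.Agent.H35.WS.ap_count e he he1
  refine ⟨2 * C, by positivity, ?_⟩
  intro x D m0 hD2 F hne hF
  obtain ⟨X', hX'⟩ : ∃ X', X' = F.max' hne := ⟨_, rfl⟩
  have hX'F : X' ∈ F := by rw [hX']; exact F.max'_mem hne
  obtain ⟨g1, g2, g3, g6, g7, g8⟩ := hF X' hX'F
  obtain ⟨L, hL⟩ : ∃ L, L = Lam x D := ⟨_, rfl⟩
  rw [← hL] at g6 ⊢
  have hDX : 2 ≤ D * X' := by nlinarith
  have hL0 : 0 < L := Nat.pos_of_dvd_of_pos g6 (by omega)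
  have hLx : L ≤ x := by
    have := Nat.le_of_dvd (by omega) g6
    omega
  have hX'x : X' ≤ x := by nlinarith
  have hcop : Nat.Coprime L D := by
    have h1 : Nat.Coprime (D * X' - 1) (D * X') :=
      (Nat.coprime_self_sub_left (by omega : 1 ≤ D * X')).2 (Nat.coprime_one_left _)
    exact Nat.Coprime.coprime_dvd_left g6 (Nat.Coprime.coprime_dvd_right (dvd_mul_right D X') h1)
  have hmod : ∀ E ∈ F, E % L = X' % L := by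
    intro E hE
    obtain ⟨b1, b2, b3, b6, b7, b8⟩ := hF E hE
    rw [← hL] at b6
    have hDE : 1 ≤ D * E := by nlinarith
    have h1 : D * E ≡ 1 [MOD L] := ((Nat.modEq_iff_dvd' hDE).2 b6).symm
    have h2 : D * X' ≡ 1 [MOD L] := ((Nat.modEq_iff_dvd' (by omega)).2 g6).symm
    exact Nat.ModEq.cancel_left_of_coprime hcop (h1.trans h2.symm)
  have hcount : ∀ m1 : ℕ, ((F.filter (fun q => Sy x q m1)).card : ℝ) ≤
      C * (x : ℝ) ^ e * (((X' : ℝ) / L) ^ (2 / 3 : ℝ) + 1) := by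
    intro m1
    refine hap x x X' L X' m1 le_rfl hX'x hL0 hLx (F.filter (fun q => Sy x q m1)) ?_
    intro E hE
    rw [mem_filter] at hE
    obtain ⟨hEF, hEs⟩ := hE
    obtain ⟨b1, b2, b3, b6, b7, b8⟩ := hF E hEF
    exact ⟨b1, by rw [hX']; exact F.le_max' E hEF, b2, hmod E hEF, hEs, b7⟩
  have h3 : F ⊆ F.filter (fun q => Sy x q m0) ∪ F.filter (fun q => Sy x q 1) := by
    intro q hq
    rw [mem_union]
    rcases (hF q hq).2.2.2.2.2 with h5 | h5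
    · exact Or.inl (mem_filter.2 ⟨hq, h5⟩)
    · exact Or.inr (mem_filter.2 ⟨hq, h5⟩)
  have h4 := (card_le_card h3).trans (card_union_le _ _)
  have h5 : (F.card : ℝ) ≤ ((F.filter (fun q => Sy x q m0)).card : ℝ) +
    ((F.filter (fun q => Sy x q 1)).card : ℝ) := by exact_mod_cast h4
  have h6 := hcount m0
  have h7 := hcount 1
  refine ⟨X', hX'F, hL0, ?_⟩
  linarith

/-- auxiliary: the weights -/
lemma weight_le {x D E : ℕ} {a e : ℝ} (ha : 0 ≤ a) (he : 0 ≤ e) (hD : 1 ≤ D) (hE : 1 ≤ E)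
    (h : D * E ≤ x) :
    (E : ℝ) ^ a ≤ (x : ℝ) ^ (a + 2 * e) * (D : ℝ) ^ (-(a + 2 * e)) := by
  have hD0 : (0 : ℝ) < D := by exact_mod_cast hD
  have hE1 : (1 : ℝ) ≤ E := by exact_mod_cast hE
  have hE0 : (0 : ℝ) < E := by linarith
  have hx0 : (0 : ℝ) < x := by exact_mod_cast (lt_of_lt_of_le (Nat.mul_pos hD hE) h)
  have h1 : (E : ℝ) ≤ (x : ℝ) / D := by
    rw [le_div_iff₀ hD0]
    have : ((D * E : ℕ) : ℝ) ≤ x := by exact_mod_cast h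
    push_cast at this
    linarith
  calc (E : ℝ) ^ a ≤ (E : ℝ) ^ (a + 2 * e) := rpow_le_rpow_of_exponent_le hE1 (by linarith)
    _ ≤ ((x : ℝ) / D) ^ (a + 2 * e) := rpow_le_rpow hE0.le h1 (by linarith)
    _ = _ := by
      rw [div_rpow hx0.le hD0.le, rpow_neg hD0.le, div_eq_mul_inv]

/-- a last factor in a progression with a large modulus -/
theorem ap_fib (e : ℝ) (he : 0 < e) (he1 : e ≤ 1 / 4) : ∃ C : ℝ, 0 < C ∧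
    ∀ (x D m0 : ℕ) (y : ℝ), 2 ≤ D → 1 ≤ y → ∀ F : Finset ℕ,
    (∀ E ∈ F, (1 ≤ E ∧ Odd E ∧ D * E ≤ x ∧ Lam x D ∣ D * E - 1 ∧
      Nz x E ∧ (Sy x E m0 ∨ Sy x E 1)) ∧ y ≤ (E : ℝ) ^ (1 / 2 : ℝ) ∧
      y * ((E : ℝ) / (Lam x D : ℕ)) ^ (2 / 3 : ℝ) ≤ (E : ℝ) ^ (1 / 2 : ℝ)) →
    (F.card : ℝ) ≤ C * (x : ℝ) ^ (1 / 2 + 4 * e) * ((D : ℝ) ^ (-(1 / 2 + 2 * e)) * y⁻¹) := by
  obtain ⟨C, hC, hap⟩ := ap_fib0 e he he1
  refine ⟨2 * C, by positivity, ?_⟩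
  intro x D m0 y hD2 hy F hF
  have hD0 : (0 : ℝ) < D := by exact_mod_cast (by omega : 0 < D)
  have hy0 : 0 < y := by linarith
  rcases F.eq_empty_or_nonempty with h0 | hne
  · rw [h0]; simp; positivity
  obtain ⟨X', hX'F, hL0, hcard⟩ := hap x D m0 hD2 F hne fun E hE => (hF E hE).1
  obtain ⟨⟨g1, g2, g3, g4, g5, g6⟩, g7, g8⟩ := hF X' hX'F
  have hDX : 2 ≤ D * X' := by nlinarith
  have hx1 : (1 : ℝ) ≤ x := by exact_mod_cast (by omega : 1 ≤ x)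
  have hx0 : (0 : ℝ) < x := by linarith
  have h1 : ((X' : ℝ) / (Lam x D : ℕ)) ^ (2 / 3 : ℝ) ≤ (X' : ℝ) ^ (1 / 2 : ℝ) * y⁻¹ := by
    rw [← div_eq_mul_inv, le_div_iff₀ hy0, mul_comm]
    exact g8
  have h2 : (1 : ℝ) ≤ (X' : ℝ) ^ (1 / 2 : ℝ) * y⁻¹ := by
    rw [← div_eq_mul_inv, le_div_iff₀ hy0, one_mul]
    exact g7
  have h3 := weight_le (a := 1 / 2) (by norm_num) he.le (by omega : 1 ≤ D) g1 g3
  calc (F.card : ℝ) ≤ _ := hcard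
    _ ≤ C * (x : ℝ) ^ e * (2 * ((X' : ℝ) ^ (1 / 2 : ℝ) * y⁻¹)) := by
        apply mul_le_mul_of_nonneg_left _ (by positivity)
        linarith
    _ ≤ C * (x : ℝ) ^ e * (2 * (((x : ℝ) ^ (1 / 2 + 2 * e) * (D : ℝ) ^ (-(1 / 2 + 2 * e))) * y⁻¹)) := by
        gcongr
    _ = 2 * C * ((x : ℝ) ^ e * (x : ℝ) ^ (1 / 2 + 2 * e)) * ((D : ℝ) ^ (-(1 / 2 + 2 * e)) * y⁻¹) := by
        ring
    _ ≤ 2 * C * (x : ℝ) ^ (1 / 2 + 4 * e) * ((D : ℝ) ^ (-(1 / 2 + 2 * e)) * y⁻¹) := by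
        apply mul_le_mul_of_nonneg_right _ (by positivity)
        apply mul_le_mul_of_nonneg_left _ (by positivity)
        rw [← rpow_add hx0]
        exact rpow_le_rpow_of_exponent_le hx1 (by linarith)

/-- a last factor in a progression with a small modulus -/
theorem ap_fib3 (e : ℝ) (he : 0 < e) (he1 : e ≤ 1 / 4) : ∃ C : ℝ, 0 < C ∧
    ∀ (x D m0 : ℕ) (y : ℝ), 2 ≤ D → 1 ≤ y → ∀ F : Finset ℕ,
    (∀ E ∈ F, (1 ≤ E ∧ Odd E ∧ D * E ≤ x ∧ Lam x D ∣ D * E - 1 ∧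
      Nz x E ∧ (Sy x E m0 ∨ Sy x E 1)) ∧ y ^ (2 : ℝ) ≤ E ∧ (E : ℝ) ≤ y ^ (6 : ℝ) ∧
      ((Lam x D : ℕ) : ℝ) ≤ y ^ (3 : ℝ)) →
    (F.card : ℝ) ≤ C * (x : ℝ) ^ (5 / 12 + 4 * e) * ((D : ℝ) ^ (-(5 / 12 + 2 * e)) *
      (y ^ (3 / 2 : ℝ) * ((Lam x D : ℕ) : ℝ) ^ (-(2 / 3 : ℝ)))) := by
  obtain ⟨C, hC, hap⟩ := ap_fib0 e he he1
  refine ⟨2 * C, by positivity, ?_⟩
  intro x D m0 y hD2 hy F hF
  have hD0 : (0 : ℝ) < D := by exact_mod_cast (by omega : 0 < D)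
  have hy0 : 0 < y := by linarith
  rcases F.eq_empty_or_nonempty with h0 | hne
  · rw [h0]; simp; positivity
  obtain ⟨X', hX'F, hL0, hcard⟩ := hap x D m0 hD2 F hne fun E hE => (hF E hE).1
  obtain ⟨⟨g1, g2, g3, g4, g5, g6⟩, g7, g8, g9⟩ := hF X' hX'F
  obtain ⟨L, hL⟩ : ∃ L : ℝ, L = ((Lam x D : ℕ) : ℝ) := ⟨_, rfl⟩
  rw [← hL] at g9 hcard ⊢
  have hL0' : 0 < L := by rw [hL]; exact_mod_cast hL0
  have hDX : 2 ≤ D * X' := by nlinarith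
  have hx1 : (1 : ℝ) ≤ x := by exact_mod_cast (by omega : 1 ≤ x)
  have hx0 : (0 : ℝ) < x := by linarith
  have hX0 : (0 : ℝ) < X' := by exact_mod_cast g1
  obtain ⟨W, hW⟩ : ∃ W : ℝ, W = y ^ (3 / 2 : ℝ) * L ^ (-(2 / 3 : ℝ)) := ⟨_, rfl⟩
  have hW0 : 0 < W := by rw [hW]; positivity
  have h1 : ((X' : ℝ) / L) ^ (2 / 3 : ℝ) ≤ (X' : ℝ) ^ (5 / 12 : ℝ) * W := by
    calc ((X' : ℝ) / L) ^ (2 / 3 : ℝ) = (X' : ℝ) ^ (5 / 12 : ℝ) *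
          ((X' : ℝ) ^ (1 / 4 : ℝ) * L ^ (-(2 / 3 : ℝ))) := by
          rw [div_rpow hX0.le hL0'.le, rpow_neg hL0'.le, ← mul_assoc, ← rpow_add hX0,
            div_eq_mul_inv]
          norm_num
      _ ≤ (X' : ℝ) ^ (5 / 12 : ℝ) * ((y ^ (6 : ℝ)) ^ (1 / 4 : ℝ) * L ^ (-(2 / 3 : ℝ))) := by
          gcongr
      _ = _ := by
          rw [hW, ← rpow_mul hy0.le]
          norm_num
  have h2 : (1 : ℝ) ≤ (X' : ℝ) ^ (5 / 12 : ℝ) * W := by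
    have i1 : (y ^ (2 : ℝ)) ^ (5 / 12 : ℝ) ≤ (X' : ℝ) ^ (5 / 12 : ℝ) :=
      rpow_le_rpow (by positivity) g7 (by norm_num)
    have i2 : (y ^ (3 : ℝ)) ^ (-(2 / 3 : ℝ)) ≤ L ^ (-(2 / 3 : ℝ)) :=
      rpow_le_rpow_of_nonpos hL0' g9 (by norm_num)
    rw [← rpow_mul hy0.le] at i1 i2
    calc (1 : ℝ) ≤ y ^ (1 / 3 : ℝ) := one_le_rpow hy (by norm_num)
      _ = y ^ (2 * (5 / 12) : ℝ) * (y ^ (3 / 2 : ℝ) * y ^ (3 * (-(2 / 3)) : ℝ)) := by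
          rw [← rpow_add hy0, ← rpow_add hy0]; norm_num
      _ ≤ (X' : ℝ) ^ (5 / 12 : ℝ) * (y ^ (3 / 2 : ℝ) * L ^ (-(2 / 3 : ℝ))) := by
          gcongr
      _ = _ := by rw [hW]
  have h3 := weight_le (a := 5 / 12) (by norm_num) he.le (by omega : 1 ≤ D) g1 g3
  rw [← hW]
  calc (F.card : ℝ) ≤ _ := hcard
    _ ≤ C * (x : ℝ) ^ e * (2 * ((X' : ℝ) ^ (5 / 12 : ℝ) * W)) := by
        apply mul_le_mul_of_nonneg_left _ (by positivity)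
        linarith
    _ ≤ C * (x : ℝ) ^ e *
        (2 * (((x : ℝ) ^ (5 / 12 + 2 * e) * (D : ℝ) ^ (-(5 / 12 + 2 * e))) * W)) := by
        gcongr
    _ = 2 * C * ((x : ℝ) ^ e * (x : ℝ) ^ (5 / 12 + 2 * e)) *
        ((D : ℝ) ^ (-(5 / 12 + 2 * e)) * W) := by
        ring
    _ ≤ 2 * C * (x : ℝ) ^ (5 / 12 + 4 * e) * ((D : ℝ) ^ (-(5 / 12 + 2 * e)) * W) := by
        apply mul_le_mul_of_nonneg_right _ (by positivity)
        apply mul_le_mul_of_nonneg_left _ (by positivity)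
        rw [← rpow_add hx0]
        exact rpow_le_rpow_of_exponent_le hx1 (by linarith)

end Pool.Agent.H35.WS
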