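import Pool.Agent.H35.WS.PV
import Pool.Graph.R_pool_sql_team_seeded_efc1946e.K1H88.WS.Sums

set_option autoImplicit false

/-! Numbers with prescribed symbols in a progression: the large sieve with the bound of
Pólya and Vinogradov. -/

namespace Pool.Agent.H35.WS

open Finset Real Pool.Agent.K1H88.WS Pool.Agent.W57.SW

lemma pvb_le (e : ℝ) (he : 0 < e) : ∃ C : ℝ, 0 < C ∧ ∀ m : ℕ, 1 ≤ m →
    pvb m ≤ C * (m : ℝ) ^ (1 / 2 + e) := by
  obtain ⟨C, hC, hd⟩ := card_divisors_le (e / 2) (half_pos he)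
  refine ⟨C * (2 * (1 + 2 / e)), by positivity, fun m hm => ?_⟩
  have hm1 : (1 : ℝ) ≤ m := by exact_mod_cast hm
  have hm0 : (0 : ℝ) < m := by linarith
  have h1 := hd m m hm le_rfl
  have h2 : log (m : ℝ) ≤ (m : ℝ) ^ (e / 2) / (e / 2) := log_le_rpow_div hm0.le (half_pos he)
  have h3 : (1 : ℝ) ≤ (m : ℝ) ^ (e / 2) := one_le_rpow hm1 (half_pos he).le
  have h4 : (m : ℝ) ^ (e / 2) / (e / 2) = 2 / e * (m : ℝ) ^ (e / 2) := by field_simp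
  rw [h4] at h2
  have h5 : 1 + log (m : ℝ) ≤ (1 + 2 / e) * (m : ℝ) ^ (e / 2) := by linarith
  have hlog : 0 ≤ log (m : ℝ) := log_natCast_nonneg m
  unfold pvb
  rw [Real.sqrt_eq_rpow]
  calc (m.divisors.card : ℝ) * (2 * (m : ℝ) ^ (1 / 2 : ℝ) * (1 + log m)) ≤
      (C * (m : ℝ) ^ (e / 2)) * (2 * (m : ℝ) ^ (1 / 2 : ℝ) * ((1 + 2 / e) * (m : ℝ) ^ (e / 2))) := by
        gcongr
    _ = C * (2 * (1 + 2 / e)) * ((m : ℝ) ^ (e / 2) * (m : ℝ) ^ (1 / 2 : ℝ) * (m : ℝ) ^ (e / 2)) := by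
        ring
    _ = _ := by
        rw [← rpow_add hm0, ← rpow_add hm0]
        congr 2
        ring

/-- progressions -/
lemma ls_ap_pv (S T : Finset ℕ) (X L : ℕ) (B : ℝ) (hB0 : 0 ≤ B) (hL : 0 < L) (r0 : ℕ) (e : ℕ → ℤ)
    (hS : ∀ s ∈ S, Odd s ∧ Squarefree s ∧ Nat.Coprime s L)
    (hB : ∀ s ∈ S, ∀ s' ∈ S, 8 * pvb (s * s') ≤ B)
    (hT : ∀ n ∈ T, n ≤ X ∧ Odd n ∧ n % L = r0 ∧ ∀ s ∈ S, jacobiSym (s : ℤ) n = e s)
    (he : ∀ s ∈ S, |e s| = 1) :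
    (T.card : ℝ) * (S.card : ℝ) ^ 2 ≤
      (S.card : ℝ) * ((X : ℝ) / L + 1) + (S.card : ℝ) ^ 2 * B := by
  classical
  have hinj : Set.InjOn (fun n => n / L) (T : Set ℕ) := by
    intro n hn n' hn' h
    have h1 := (hT n hn).2.2.1
    have h2 := (hT n' hn').2.2.1
    simp only at h
    rw [← Nat.div_add_mod n L, ← Nat.div_add_mod n' L, h, h1, h2]
  have hcard : (T.image (fun n => n / L)).card = T.card := card_image_of_injOn hinj
  have hmain := ls_general S (T.image (fun n => n / L)) (X / L + 1) (fun k => r0 + L * k) e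
    (fun s s' => if s = s' then (X : ℝ) / L + 1 else B) ?_ he ?_
  · rw [hcard] at hmain
    refine hmain.trans ?_
    have h1 : ∀ s ∈ S, ∑ s' ∈ S, (if s = s' then (X : ℝ) / L + 1 else B) ≤
        ((X : ℝ) / L + 1) + (S.card : ℝ) * B := by
      intro s hs
      have h2 : ∀ s' ∈ S, (if s = s' then (X : ℝ) / L + 1 else B) ≤
          (if s = s' then (X : ℝ) / L + 1 else 0) + B := by
        intro s' _
        split_ifs
        · linarith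
        · linarith
      refine (sum_le_sum h2).trans ?_
      rw [sum_add_distrib, sum_ite_eq, if_pos hs, sum_const, nsmul_eq_mul]
    refine (sum_le_sum h1).trans ?_
    rw [sum_const, nsmul_eq_mul]
    apply le_of_eq
    ring
  · intro k hk
    rw [mem_image] at hk
    obtain ⟨n, hn, rfl⟩ := hk
    obtain ⟨h1, h2, h3, h4⟩ := hT n hn
    have h5 : r0 + L * (n / L) = n := by rw [← h3]; exact Nat.mod_add_div n L
    refine ⟨?_, ?_, ?_⟩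
    · exact Nat.lt_succ_of_le (Nat.div_le_div_right h1)
    · simp only [h5]; exact h2
    · simp only [h5]; exact h4
  · intro s hs s' hs'
    obtain ⟨h2, h3, h4⟩ := hS s hs
    obtain ⟨h2', h3', h4'⟩ := hS s' hs'
    split_ifs with h
    · push_cast
      refine (abs_sum_le_sum_abs _ _).trans ?_
      have h5 : ∀ k ∈ range (X / L + 1), |(jo (s * s') (r0 + L * k) : ℝ)| ≤ 1 := by
        intro k _
        exact_mod_cast jo_abs_le _ _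
      refine (sum_le_sum h5).trans ?_
      rw [sum_const, card_range, nsmul_eq_mul, mul_one]
      push_cast
      have : ((X / L : ℕ) : ℝ) ≤ (X : ℝ) / L := Nat.cast_div_le
      linarith
    · exact (ap_sum_pv h3 h3' h h2 h2' h4 h4' r0 _).trans (hB s hs s' hs')

/-- numbers with prescribed symbols in a progression -/
theorem ap_count (δ : ℝ) (hδ : 0 < δ) (hδ1 : δ ≤ 1 / 4) : ∃ C : ℝ, 0 < C ∧
    ∀ x Q X L E0 m0 : ℕ, Q ≤ x → X ≤ Q → 1 ≤ L → L ≤ Q → ∀ T : Finset ℕ,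
    (∀ n ∈ T, 1 ≤ n ∧ n ≤ X ∧ Odd n ∧ n % L = E0 % L ∧ Sy x n m0 ∧ Nz x n) →
    (T.card : ℝ) ≤ C * (Q : ℝ) ^ δ * (((X : ℝ) / L) ^ (2 / 3 : ℝ) + 1) := by
  classical
  obtain ⟨D0, hD0⟩ := smooth_avoid 2 δ (8 / δ) (by norm_num) hδ (by positivity)
  obtain ⟨CP, hCP, hpv⟩ := pvb_le (δ / 2) (half_pos hδ)
  have hev1 : ∀ᶠ q : ℝ in Filter.atTop, 2 * (D0 : ℝ) + 2 ≤ q ^ (2 / 3 * δ) :=
    (tendsto_rpow_atTop (by positivity)).eventually (Filter.eventually_ge_atTop _)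
  have hev2 : ∀ᶠ q : ℝ in Filter.atTop, 5 * log 2 / δ ≤ log q :=
    tendsto_log_atTop.eventually (Filter.eventually_ge_atTop _)
  obtain ⟨Y, hY⟩ := Filter.eventually_atTop.mp (hev1.and hev2)
  refine ⟨(⌈Y⌉₊ : ℝ) + (8 + 8 * CP), by positivity, ?_⟩
  intro x Q X L E0 m0 hQx hXQ hL1 hLQ T hT
  have hceil : (0 : ℝ) ≤ (⌈Y⌉₊ : ℝ) := Nat.cast_nonneg _
  rcases T.eq_empty_or_nonempty with h0 | ⟨n0, hn0⟩
  · rw [h0]; simp; positivity
  have hX1 : 1 ≤ X := (hT n0 hn0).1.trans (hT n0 hn0).2.1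
  have hQ1 : 1 ≤ Q := hX1.trans hXQ
  have hQ1' : (1 : ℝ) ≤ Q := by exact_mod_cast hQ1
  have hQpos : (0 : ℝ) < Q := by linarith
  have hL0 : (0 : ℝ) < L := by exact_mod_cast hL1
  have hX0 : (0 : ℝ) < X := by exact_mod_cast hX1
  have hQd : (1 : ℝ) ≤ (Q : ℝ) ^ δ := one_le_rpow hQ1' hδ.le
  obtain ⟨Z, hZ⟩ : ∃ Z : ℝ, Z = (X : ℝ) / L := ⟨_, rfl⟩
  have hZ0 : 0 < Z := by rw [hZ]; positivity
  have hZ23 : 0 ≤ Z ^ (2 / 3 : ℝ) := by positivity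
  rw [← hZ]
  rcases lt_or_ge Q ⌈Y⌉₊ with hsm | hlg
  · have h1 : T ⊆ Icc 1 X := fun n hn => mem_Icc.2 ⟨(hT n hn).1, (hT n hn).2.1⟩
    have h2 := card_le_card h1
    rw [Nat.card_Icc, Nat.add_sub_cancel] at h2
    have h3 : (T.card : ℝ) ≤ ⌈Y⌉₊ := by exact_mod_cast h2.trans (hXQ.trans hsm.le)
    calc (T.card : ℝ) ≤ ((⌈Y⌉₊ : ℝ) + (8 + 8 * CP)) * 1 * (0 + 1) := by linarith
      _ ≤ _ := by gcongr
  have hcardZ : (T.card : ℝ) ≤ Z + 1 := by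
    rw [hZ]
    exact card_ap (r := E0 % L) fun n hn => ⟨(hT n hn).2.1, (hT n hn).2.2.2.1⟩
  rcases le_or_gt Z ((Q : ℝ) ^ δ) with hZs | hZl
  · calc (T.card : ℝ) ≤ 8 * (Q : ℝ) ^ δ * (0 + 1) := by linarith
      _ ≤ _ := by gcongr; linarith
  obtain ⟨c1, c2⟩ := hY Q ((Nat.le_ceil Y).trans (by exact_mod_cast hlg))
  -- the length
  have hZ1 : 1 ≤ Z := hQd.trans hZl.le
  have hZ25 : 2 * (D0 : ℝ) + 2 ≤ Z ^ (2 / 3 : ℝ) := by
    refine c1.trans ?_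
    rw [mul_comm, rpow_mul hQpos.le]
    exact rpow_le_rpow (by positivity) hZl.le (by norm_num)
  obtain ⟨M, hM⟩ : ∃ M : ℕ, M = ⌊Z ^ (2 / 3 : ℝ)⌋₊ := ⟨_, rfl⟩
  have hMle : (M : ℝ) ≤ Z ^ (2 / 3 : ℝ) := by rw [hM]; exact Nat.floor_le (by positivity)
  have hMlt : Z ^ (2 / 3 : ℝ) < M + 1 := by rw [hM]; exact Nat.lt_floor_add_one _
  have hD00 : (0 : ℝ) ≤ D0 := Nat.cast_nonneg _
  have hMhalf : Z ^ (2 / 3 : ℝ) / 2 ≤ M := by linarith
  have hM1 : (1 : ℝ) ≤ M := by linarith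
  have hM0 : (0 : ℝ) < M := by linarith
  have hMD : D0 ≤ M := by
    have : (D0 : ℝ) ≤ M := by linarith
    exact_mod_cast this
  have hZX : Z ≤ X := by
    rw [hZ]; exact div_le_self hX0.le (by exact_mod_cast hL1)
  have hZQ : Z ≤ Q := hZX.trans (by exact_mod_cast hXQ)
  have hMx : M ≤ x := by
    have h1 : (M : ℝ) ≤ Q := by
      refine hMle.trans (le_trans ?_ hZQ)
      calc Z ^ (2 / 3 : ℝ) ≤ Z ^ (1 : ℝ) := rpow_le_rpow_of_exponent_le hZ1 (by norm_num)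
        _ = Z := rpow_one Z
    have h2 : M ≤ Q := by exact_mod_cast h1
    exact h2.trans hQx
  have hlogM : δ / 5 * log Q ≤ log M := by
    have h1 := log_le_log (by positivity) hMhalf
    rw [log_div (by positivity) (by norm_num), log_rpow hZ0] at h1
    have h2 := log_le_log (by positivity) hZl.le
    rw [log_rpow hQpos] at h2
    have h3 : log 2 ≤ δ / 5 * log Q := by
      rw [div_le_iff₀ hδ] at c2
      linarith
    have h4 : 0 ≤ δ * log Q := by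
      have : 0 ≤ log (Q : ℝ) := log_natCast_nonneg Q
      positivity
    linarith
  have hE : ((L.primeFactors.card : ℕ) : ℝ) ≤ 8 / δ * log M := by
    refine (card_primeFactors_le hL1).trans ?_
    have h1 : log (L : ℝ) ≤ log Q := log_le_log hL0 (by exact_mod_cast hLQ)
    have h2 : 8 / δ * (δ / 5 * log Q) ≤ 8 / δ * log M :=
      mul_le_mul_of_nonneg_left hlogM (by positivity)
    have h3 : 8 / δ * (δ / 5 * log Q) = 8 / 5 * log Q := by field_simp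
    have h4 : 0 ≤ log (Q : ℝ) := log_natCast_nonneg Q
    linarith
  obtain ⟨S, hS1, hS2⟩ := hD0 M hMD L.primeFactors hE
  have hlogMx : (log (M : ℝ)) ^ (2 : ℝ) ≤ (log (x : ℝ)) ^ (2 : ℝ) :=
    rpow_le_rpow (log_natCast_nonneg M) (log_le_log hM0 (by exact_mod_cast hMx)) (by norm_num)
  have hSV : ∀ s ∈ S, ∀ p : ℕ, p.Prime → p ∣ s → p ∈ Vs x := by
    intro s hs p hp hps
    obtain ⟨_, _, ho, _, h5⟩ := hS1 s hs
    rw [mem_Vs]
    refine ⟨hp, (h5 p hp hps).1.trans hlogMx, ?_⟩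
    rintro rfl
    exact (Nat.not_even_iff_odd.2 ho) (even_iff_two_dvd.2 hps)
  obtain ⟨B, hB⟩ : ∃ B : ℝ, B = 8 * (CP * (M : ℝ) ^ (1 + δ)) := ⟨_, rfl⟩
  have hB0 : 0 ≤ B := by rw [hB]; positivity
  have hls := ls_ap_pv S T X L B hB0 hL1 (E0 % L) (fun s => jacobiSym (s : ℤ) n0)
    (by
      intro s hs
      obtain ⟨h1, h2, ho, h4, h5⟩ := hS1 s hs
      refine ⟨ho, h4, ?_⟩
      rw [Nat.coprime_iff_gcd_eq_one]
      by_contra hne
      obtain ⟨p, hpp, hpd⟩ := Nat.exists_prime_and_dvd hne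
      exact (h5 p hpp (hpd.trans (Nat.gcd_dvd_left _ _))).2
        (Nat.mem_primeFactors.2 ⟨hpp, hpd.trans (Nat.gcd_dvd_right _ _), by omega⟩))
    (by
      intro s hs s' hs'
      have a1 := (hS1 s hs).1
      have a2 := (hS1 s hs).2.1
      have b1 := (hS1 s' hs').1
      have b2 := (hS1 s' hs').2.1
      have h1 := hpv (s * s') (Nat.mul_pos a1 b1)
      have h2 : ((s * s' : ℕ) : ℝ) ≤ (M : ℝ) ^ (2 : ℝ) := by
        rw [show (2 : ℝ) = ((2 : ℕ) : ℝ) by norm_num, rpow_natCast, sq]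
        push_cast
        exact mul_le_mul (by exact_mod_cast a2) (by exact_mod_cast b2) (Nat.cast_nonneg _)
          hM0.le
      have h3 : ((s * s' : ℕ) : ℝ) ^ (1 / 2 + δ / 2) ≤ (M : ℝ) ^ (1 + δ) := by
        calc ((s * s' : ℕ) : ℝ) ^ (1 / 2 + δ / 2) ≤ ((M : ℝ) ^ (2 : ℝ)) ^ (1 / 2 + δ / 2) :=
              rpow_le_rpow (Nat.cast_nonneg _) h2 (by positivity)
          _ = (M : ℝ) ^ (1 + δ) := by
              rw [← rpow_mul hM0.le]; congr 1; ring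
      rw [hB]
      have h4 := mul_le_mul_of_nonneg_left h3 hCP.le
      linarith)
    (by
      intro n hn
      obtain ⟨h1, h2, h3, h4, h5, h6⟩ := hT n hn
      refine ⟨h2, h3, h4, fun s hs => ?_⟩
      exact sy_smooth (h5.trans (hT n0 hn0).2.2.2.2.1.symm) s (hS1 s hs).1 (hSV s hs))
    (fun s hs => nz_abs (hT n0 hn0).2.2.2.2.2 (hSV s hs))
  rw [← hZ] at hls
  have hScard : (1 : ℝ) / 2 * Z ^ (1 / 3 - 2 / 3 * δ) ≤ S.card := by
    refine le_trans ?_ hS2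
    have h1 : (Z ^ (2 / 3 : ℝ) / 2) ^ ((1 : ℝ) - 1 / 2 - δ) ≤ (M : ℝ) ^ ((1 : ℝ) - 1 / 2 - δ) :=
      rpow_le_rpow (by positivity) hMhalf (by linarith)
    refine le_trans ?_ h1
    rw [div_rpow (by positivity) (by norm_num), ← rpow_mul hZ0.le]
    have h2 : (2 : ℝ) ^ ((1 : ℝ) - 1 / 2 - δ) ≤ 2 := by
      calc (2 : ℝ) ^ ((1 : ℝ) - 1 / 2 - δ) ≤ (2 : ℝ) ^ (1 : ℝ) :=
            rpow_le_rpow_of_exponent_le (by norm_num) (by linarith)
        _ = 2 := rpow_one 2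
    have h3 : (2 / 3 : ℝ) * (1 - 1 / 2 - δ) = 1 / 3 - 2 / 3 * δ := by ring
    rw [h3]
    have h4 : 0 < Z ^ (1 / 3 - 2 / 3 * δ) := by positivity
    rw [div_mul_eq_mul_div, one_mul]
    exact div_le_div_of_nonneg_left h4.le (by positivity) h2
  have hSpos : (0 : ℝ) < S.card := by
    have : 0 < Z ^ (1 / 3 - 2 / 3 * δ) := by positivity
    linarith
  have hZd : Z ^ (2 / 3 * δ) ≤ (Q : ℝ) ^ δ := by
    calc Z ^ (2 / 3 * δ) ≤ (Q : ℝ) ^ (2 / 3 * δ) :=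
          rpow_le_rpow hZ0.le hZQ (by positivity)
      _ ≤ (Q : ℝ) ^ δ := rpow_le_rpow_of_exponent_le hQ1' (by linarith)
  have hMB : B ≤ 8 * CP * (Z ^ (2 / 3 : ℝ) * (Q : ℝ) ^ δ) := by
    rw [hB]
    have h1 : (M : ℝ) ^ (1 + δ) ≤ Z ^ (2 / 3 : ℝ) * (Q : ℝ) ^ δ := by
      calc (M : ℝ) ^ (1 + δ) ≤ (Z ^ (2 / 3 : ℝ)) ^ (1 + δ) :=
            rpow_le_rpow hM0.le hMle (by positivity)
        _ = Z ^ (2 / 3 : ℝ) * Z ^ (2 / 3 * δ) := by
            rw [← rpow_mul hZ0.le, ← rpow_add hZ0]; congr 1; ring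
        _ ≤ _ := mul_le_mul_of_nonneg_left hZd hZ23
    have h2 := mul_le_mul_of_nonneg_left h1 hCP.le
    linarith
  have h1 : (T.card : ℝ) * S.card ≤ (Z + 1) + S.card * B := by
    have h2 : ((T.card : ℝ) * S.card) * S.card ≤
        ((Z + 1) + S.card * B) * S.card := by
      calc ((T.card : ℝ) * S.card) * S.card = (T.card : ℝ) * (S.card : ℝ) ^ 2 := by ring
        _ ≤ _ := hls
        _ = _ := by ring
    exact le_of_mul_le_mul_right h2 hSpos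
  have h2 : Z + 1 ≤ S.card * (4 * (Z ^ (2 / 3 : ℝ) * (Q : ℝ) ^ δ)) := by
    have h3 : Z + 1 ≤ 2 * Z := by linarith
    have h4 : Z = Z ^ (1 / 3 - 2 / 3 * δ) * (Z ^ (2 / 3 : ℝ) * Z ^ (2 / 3 * δ)) := by
      rw [← rpow_add hZ0, ← rpow_add hZ0]
      rw [show (1 / 3 - 2 / 3 * δ + (2 / 3 + 2 / 3 * δ) : ℝ) = 1 by ring, rpow_one]
    calc Z + 1 ≤ 2 * Z := h3
      _ = (1 / 2 * Z ^ (1 / 3 - 2 / 3 * δ)) * (4 * (Z ^ (2 / 3 : ℝ) * Z ^ (2 / 3 * δ))) := by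
          nth_rewrite 1 [h4]; ring
      _ ≤ S.card * (4 * (Z ^ (2 / 3 : ℝ) * (Q : ℝ) ^ δ)) := by
          refine mul_le_mul hScard ?_ (by positivity) hSpos.le
          exact mul_le_mul_of_nonneg_left (mul_le_mul_of_nonneg_left hZd hZ23) (by norm_num)
  have h3 : (T.card : ℝ) ≤ 4 * (Z ^ (2 / 3 : ℝ) * (Q : ℝ) ^ δ) + B := by
    have h4 : (T.card : ℝ) * S.card ≤
        (4 * (Z ^ (2 / 3 : ℝ) * (Q : ℝ) ^ δ) + B) * S.card := by
      calc (T.card : ℝ) * S.card ≤ _ := h1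
        _ ≤ S.card * (4 * (Z ^ (2 / 3 : ℝ) * (Q : ℝ) ^ δ)) + S.card * B := by
            linarith
        _ = _ := by ring
    exact le_of_mul_le_mul_right h4 hSpos
  have h5 : (4 + 8 * CP) * ((Q : ℝ) ^ δ * Z ^ (2 / 3 : ℝ)) ≤
      ((⌈Y⌉₊ : ℝ) + (8 + 8 * CP)) * ((Q : ℝ) ^ δ * Z ^ (2 / 3 : ℝ)) :=
    mul_le_mul_of_nonneg_right (by linarith) (by positivity)
  calc (T.card : ℝ) ≤ (4 + 8 * CP) * ((Q : ℝ) ^ δ * Z ^ (2 / 3 : ℝ)) := by linarith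
    _ ≤ ((⌈Y⌉₊ : ℝ) + (8 + 8 * CP)) * ((Q : ℝ) ^ δ * Z ^ (2 / 3 : ℝ)) := h5
    _ ≤ ((⌈Y⌉₊ : ℝ) + (8 + 8 * CP)) * (Q : ℝ) ^ δ * (Z ^ (2 / 3 : ℝ) + 1) := by
        rw [mul_assoc]
        apply mul_le_mul_of_nonneg_left _ (by positivity)
        apply mul_le_mul_of_nonneg_left _ (by positivity)
        linarith

end Pool.Agent.H35.WS
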