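import Pool.Graph.R_seed8.H379R2.W.JChar
import Pool.Graph.R_pool_sql_team_seeded_efc1946e.K1H88.WS.Jac2

set_option autoImplicit false

/-! Incomplete sums of Jacobi symbols along arithmetic progressions: the bound of
Pólya and Vinogradov. -/

namespace Pool.Agent.H35.WS

open Finset Pool.Agent.K1H88.WS Pool.Agent.H379R2.W

/-- the bound -/
noncomputable def pvb (M : ℕ) : ℝ := M.divisors.card * (2 * Real.sqrt M * (1 + Real.log M))

lemma pvb_nonneg (M : ℕ) : 0 ≤ pvb M := by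
  unfold pvb
  have : 0 ≤ Real.log (M : ℝ) := Real.log_natCast_nonneg M
  positivity

/-- consecutive integers -/
lemma jac_window (M : ℕ) (hM : 1 ≤ M) (hne : ∃ a : ℕ, jacobiSym (a : ℤ) M = -1) (v I : ℕ)
    (hv : 1 ≤ v) :
    |((∑ i ∈ range I, jacobiSym ((v + i : ℕ) : ℤ) M : ℤ) : ℝ)| ≤ 2 * pvb M := by
  have h1 : ∑ i ∈ range I, jacobiSym ((v + i : ℕ) : ℤ) M =
      ∑ n ∈ Icc 1 (v + I - 1), jacobiSym (n : ℤ) M - ∑ n ∈ Icc 1 (v - 1), jacobiSym (n : ℤ) M := by
    have h2 : Icc 1 (v + I - 1) = Icc 1 (v - 1) ∪ (range I).image (fun i => v + i) := by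
      ext n
      simp only [mem_union, mem_Icc, mem_image, mem_range]
      constructor
      · rintro ⟨h3, h4⟩
        rcases lt_or_ge n v with h | h
        · left; omega
        · right; exact ⟨n - v, by omega, by omega⟩
      · rintro (⟨h3, h4⟩ | ⟨i, h3, h4⟩) <;> omega
    have h3 : Disjoint (Icc 1 (v - 1)) ((range I).image (fun i => v + i)) := by
      rw [Finset.disjoint_left]
      intro n hn hn'
      rw [mem_Icc] at hn
      rw [mem_image] at hn'
      obtain ⟨i, _, h4⟩ := hn'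
      omega
    rw [h2, sum_union h3, sum_image (by intro a _ b _ h; simpa using h)]
    ring
  rw [h1]
  push_cast
  have h4 := jacobi_sum_le M hM hne (v + I - 1)
  have h5 := jacobi_sum_le M hM hne (v - 1)
  push_cast at h4 h5
  unfold pvb
  calc _ ≤ _ := abs_sub _ _
    _ ≤ _ := add_le_add h4 h5
    _ = _ := by ring

/-- progressions -/
lemma jac_ap (M : ℕ) (hM : 1 ≤ M) (hne : ∃ a : ℕ, jacobiSym (a : ℤ) M = -1) (u b I : ℕ)
    (hb : Nat.Coprime b M) :
    |((∑ i ∈ range I, jacobiSym ((u + b * i : ℕ) : ℤ) M : ℤ) : ℝ)| ≤ 2 * pvb M := by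
  have hNZ : NeZero M := ⟨by omega⟩
  obtain ⟨w, hw⟩ : ∃ w : ℕ, w = ((b : ZMod M)⁻¹).val := ⟨_, rfl⟩
  have hwb : (b : ZMod M) * (w : ZMod M) = 1 := by
    rw [hw, ZMod.natCast_zmod_val]
    exact ZMod.coe_mul_inv_eq_one b hb
  have h1 : ∀ i ∈ range I, jacobiSym ((u + b * i : ℕ) : ℤ) M =
      jacobiSym (b : ℤ) M * jacobiSym ((w * u + M + i : ℕ) : ℤ) M := by
    intro i _
    rw [← jacobiSym.mul_left, jacobiSym.mod_left, jacobiSym.mod_left ((b : ℤ) * _)]
    congr 1
    have h2 : (((u + b * i : ℕ) : ℤ) : ZMod M) = (((b : ℤ) * ((w * u + M + i : ℕ) : ℤ) : ℤ) : ZMod M) := by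
      push_cast
      rw [ZMod.natCast_self]
      linear_combination (-(u : ZMod M)) * hwb
    exact (ZMod.intCast_eq_intCast_iff _ _ _).1 h2
  rw [sum_congr rfl h1, ← mul_sum]
  push_cast
  rw [abs_mul]
  have h3 : |((jacobiSym (b : ℤ) M : ℤ) : ℝ)| ≤ 1 := by
    exact_mod_cast jacobi_natAbs_le (b : ℤ) M
  have h4 := jac_window M hM hne (w * u + M) I (by omega)
  push_cast at h4
  calc _ ≤ 1 * |∑ i ∈ range I, ((jacobiSym ((w : ℤ) * u + M + i) M : ℤ) : ℝ)| :=
        mul_le_mul_of_nonneg_right h3 (abs_nonneg _)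
    _ ≤ _ := by rw [one_mul]; exact h4

/-- splitting modulo four -/
lemma sum_four (F : ℕ → ℤ) (K : ℕ) : ∑ k ∈ range K, F k =
    ∑ c ∈ range 4, ∑ i ∈ range ((K + 3 - c) / 4), F (c + 4 * i) := by
  rw [← sum_fiberwise_of_maps_to (g := fun k => k % 4) (t := range 4)
    (fun k _ => mem_range.2 (Nat.mod_lt _ (by norm_num)))]
  refine sum_congr rfl fun c hc => ?_
  rw [mem_range] at hc
  symm
  refine sum_nbij' (fun i => c + 4 * i) (fun k => k / 4) ?_ ?_ ?_ ?_ ?_
  · intro i hi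
    rw [mem_range] at hi
    rw [mem_filter, mem_range]
    constructor
    · omega
    · omega
  · intro k hk
    rw [mem_filter, mem_range] at hk
    rw [mem_range]
    omega
  · intro i _
    omega
  · intro k hk
    rw [mem_filter, mem_range] at hk
    omega
  · intro i _
    rfl

/-- the bound along progressions -/
theorem ap_sum_pv {s s' L : ℕ} (hs : Squarefree s) (hs' : Squarefree s') (hne : s ≠ s')
    (ho : Odd s) (ho' : Odd s') (hL : Nat.Coprime s L) (hL' : Nat.Coprime s' L) (r0 K : ℕ) :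
    |((∑ k ∈ range K, jo (s * s') (r0 + L * k) : ℤ) : ℝ)| ≤ 8 * pvb (s * s') := by
  have hM : 1 ≤ s * s' := Nat.mul_pos (Nat.pos_of_ne_zero hs.ne_zero) (Nat.pos_of_ne_zero hs'.ne_zero)
  have hneg := exists_neg_one hs hs' ho ho' hne
  have hodd : Odd (s * s') := ho.mul ho'
  have hcop : Nat.Coprime (4 * L) (s * s') := by
    have h1 : Nat.Coprime (s * s') L := Nat.Coprime.mul_left hL hL'
    have h2 : Nat.Coprime 2 (s * s') := hodd.coprime_two_left
    have h3 : Nat.Coprime 4 (s * s') := by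
      rw [show (4 : ℕ) = 2 * 2 by norm_num]
      exact h2.mul_left h2
    exact h3.mul_left h1.symm
  rw [sum_four]
  push_cast
  have hc : ∀ c ∈ range 4, |∑ i ∈ range ((K + 3 - c) / 4),
      ((jo (s * s') (r0 + L * (c + 4 * i)) : ℤ) : ℝ)| ≤ 2 * pvb (s * s') := by
    intro c _
    obtain ⟨n0, hn0⟩ : ∃ n0, n0 = r0 + L * c := ⟨_, rfl⟩
    have e0 : ∀ i, r0 + L * (c + 4 * i) = n0 + 4 * L * i := by
      intro i; rw [hn0]; ring
    have hpar : ∀ i, Odd (n0 + 4 * L * i) ↔ Odd n0 := by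
      intro i
      have e : 4 * L * i = 2 * (2 * L * i) := by ring
      rw [e, Nat.odd_iff, Nat.odd_iff]
      omega
    by_cases hn : Odd n0
    · have h1 : ∀ i ∈ range ((K + 3 - c) / 4), ((jo (s * s') (r0 + L * (c + 4 * i)) : ℤ) : ℝ) =
          ((qrSign n0 (s * s') : ℤ) : ℝ) *
            ((jacobiSym ((n0 + 4 * L * i : ℕ) : ℤ) (s * s') : ℤ) : ℝ) := by
        intro i _
        rw [e0, jo, if_pos ((hpar i).2 hn),
          jacobiSym.quadratic_reciprocity' hodd ((hpar i).2 hn)]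
        push_cast
        congr 2
        unfold qrSign
        congr 1
        rw [ZMod.χ₄_nat_mod_four, ZMod.χ₄_nat_mod_four n0]
        congr 2
        rw [show 4 * L * i = 4 * (L * i) by ring, Nat.add_mul_mod_self_left]
      rw [sum_congr rfl h1, ← mul_sum, abs_mul]
      have h2 : |((qrSign n0 (s * s') : ℤ) : ℝ)| ≤ 1 := by
        have : |qrSign n0 (s * s')| ≤ 1 := jacobi_natAbs_le _ _
        exact_mod_cast this
      have h3 := jac_ap (s * s') hM hneg n0 (4 * L) ((K + 3 - c) / 4) hcop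
      push_cast at h3 ⊢
      calc _ ≤ 1 * _ := mul_le_mul_of_nonneg_right h2 (abs_nonneg _)
        _ ≤ _ := by rw [one_mul]; exact h3
    · have h1 : ∀ i ∈ range ((K + 3 - c) / 4), ((jo (s * s') (r0 + L * (c + 4 * i)) : ℤ) : ℝ) = 0 := by
        intro i _
        rw [e0, jo, if_neg (fun h => hn ((hpar i).1 h))]
        simp
      rw [sum_congr rfl h1]
      simp only [sum_const_zero, abs_zero]
      have := pvb_nonneg (s * s')
      linarith
  refine (abs_sum_le_sum_abs _ _).trans ?_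
  refine (sum_le_sum hc).trans ?_
  rw [sum_const, card_range, nsmul_eq_mul]
  apply le_of_eq
  push_cast
  ring

end Pool.Agent.H35.WS
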