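import Pool.Agent.H35.WS.Cas3
import Pool.Graph.R_pool_sql_team_seeded_efc1946e.K1H88.WS.CaseA4

set_option autoImplicit false

/-! Two primes with equal symbols and a small cofactor. -/

namespace Pool.Agent.H35.WS

open Finset Real Pool.Agent.K1H88.WS Pool.Agent.W57.SW

/-- the bound for the pairs -/
noncomputable def Bm (x m : ℕ) : ℝ := (x : ℝ) ^ (1 / 2 - 1 / 63 : ℝ) * (m : ℝ) ^ (-(1 / 2 : ℝ))

theorem caseP1 : ∃ C : ℝ, 0 < C ∧ ∀ x : ℕ, 1 ≤ x → ∀ A : Finset ℕ,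
    (∀ n ∈ A, ∃ p1 p2 m : ℕ, n = p1 * p2 * m ∧ n ≤ x ∧ p1.Prime ∧ p2.Prime ∧ Nz x p1 ∧ Nz x p2 ∧
      Odd p2 ∧ Sy x p2 p1 ∧ m ∈ UU x p1 ∧ Lam x p1 ∣ m * p2 - 1 ∧
      ((Lam x p1 : ℕ) : ℝ) ≤ Bm x m ∧
      ((Lam x p1 : ℕ) : ℝ) ^ (1 / 3 : ℝ) * (p2 : ℝ) ^ (2 / 3 : ℝ) ≤ Bm x m) →
    (A.card : ℝ) ≤ C * (x : ℝ) ^ (31 / 64 : ℝ) := by
  classical
  obtain ⟨C, hC, hap⟩ := Pool.Agent.H35.WS.ap_count (1 / 1000000) (by norm_num) (by norm_num)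
  obtain ⟨C', hC', hsum⟩ := inv_lam_sum (1 / 1000000) (by norm_num)
  obtain ⟨R, hR, hU⟩ := UU_sum (1 / 1000000) (by norm_num)
  refine ⟨2 * C * C' * R, by positivity, ?_⟩
  intro x hx1 A hA
  have hx1' : (1 : ℝ) ≤ x := by exact_mod_cast hx1
  have hx0 : (0 : ℝ) < x := by linarith
  let K : Finset ((_ : ℕ) × ℕ) := (P0 x).sigma (fun p => UU x p)
  let F : ((_ : ℕ) × ℕ) → Finset ℕ := fun k =>
    (Icc 1 x).filter (fun q => Odd q ∧ Sy x q k.1 ∧ Nz x q ∧ Lam x k.1 ∣ k.2 * q - 1 ∧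
      ((Lam x k.1 : ℕ) : ℝ) ≤ Bm x k.2 ∧
      ((Lam x k.1 : ℕ) : ℝ) ^ (1 / 3 : ℝ) * (q : ℝ) ^ (2 / 3 : ℝ) ≤ Bm x k.2 ∧ 2 ≤ k.2 * q)
  have h1 := count_img K A F (fun k q => k.1 * q * k.2)
    (fun k => 1 / ((Lam x k.1 : ℕ) : ℝ) * (k.2 : ℝ) ^ (-(1 / 2 + 2 * (1 / 1000000 : ℝ))))
    (2 * C * ((x : ℝ) ^ (1 / 1000000 : ℝ) * (x : ℝ) ^ (1 / 2 - 1 / 63 : ℝ) *
      (x : ℝ) ^ (2 * (1 / 1000000) : ℝ))) (by
      intro n hn
      obtain ⟨p1, p2, m, h1, h2, h3, h4, h5, h6, h7, h8, h9, h10, h11, h12⟩ := hA n hn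
      have hp1 := h3.pos
      have hp2 := h4.two_le
      have hm1 := (mem_UU.1 h9).1.1
      have hp1x : p1 ≤ x := by
        have : p1 * 1 ≤ p1 * (p2 * m) := Nat.mul_le_mul_left _ (by nlinarith)
        rw [← mul_assoc, ← h1] at this
        omega
      have hp2x : p2 ≤ x := by
        have : p2 * 1 ≤ p2 * (p1 * m) := Nat.mul_le_mul_left _ (by nlinarith)
        rw [← mul_assoc, mul_comm p2 p1, ← h1] at this
        omega
      refine ⟨⟨p1, m⟩, ?_, p2, ?_, h1⟩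
      · rw [mem_sigma]
        exact ⟨mem_P0.2 ⟨⟨hp1, hp1x⟩, h3, h5⟩, h9⟩
      · rw [mem_filter, mem_Icc]
        exact ⟨⟨by omega, hp2x⟩, h7, h8, h6, h10, h11, h12, by
          show 2 ≤ m * p2
          nlinarith⟩) (by
      rintro ⟨p1, m⟩ hk
      rw [mem_sigma, mem_P0] at hk
      obtain ⟨⟨⟨k1, k2⟩, k3, k4⟩, k5⟩ := hk
      simp only at k1 k2 k3 k4 k5
      obtain ⟨⟨k6, k7⟩, _⟩ := mem_UU.1 k5
      have hm0 : (0 : ℝ) < m := by exact_mod_cast k6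
      rcases (F ⟨p1, m⟩).eq_empty_or_nonempty with h0 | hne
      · rw [h0]; simp; positivity
      obtain ⟨F', hF'⟩ : ∃ F', F' = F ⟨p1, m⟩ := ⟨_, rfl⟩
      rw [← hF'] at hne ⊢
      have hFm : ∀ q ∈ F', (1 ≤ q ∧ q ≤ x) ∧ Odd q ∧ Sy x q p1 ∧ Nz x q ∧
          Lam x p1 ∣ m * q - 1 ∧ ((Lam x p1 : ℕ) : ℝ) ≤ Bm x m ∧
          ((Lam x p1 : ℕ) : ℝ) ^ (1 / 3 : ℝ) * (q : ℝ) ^ (2 / 3 : ℝ) ≤ Bm x m ∧
          2 ≤ m * q := by
        intro q hq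
        rw [hF'] at hq
        have h := mem_filter.1 hq
        exact ⟨mem_Icc.1 h.1, h.2⟩
      obtain ⟨X', hX'⟩ : ∃ X', X' = F'.max' hne := ⟨_, rfl⟩
      have hX'F : X' ∈ F' := by rw [hX']; exact F'.max'_mem hne
      obtain ⟨⟨g1, g2⟩, g3, g4, g5, g6, g7, g8, g9⟩ := hFm X' hX'F
      obtain ⟨L, hL⟩ : ∃ L, L = Lam x p1 := ⟨_, rfl⟩
      have hL1 : 1 ≤ L := by rw [hL]; exact lam_pos k3 k4
      have hLx : L ≤ x := by
        have h2 := Nat.le_of_dvd (Nat.sub_pos_of_lt k3.one_lt) (lam_dvd_pred k3 k4)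
        rw [hL]; omega
      have hL0 : (0 : ℝ) < L := by exact_mod_cast hL1
      have hX'0 : (0 : ℝ) < X' := by exact_mod_cast g1
      rw [← hL] at g7 g8
      have h2 := hap x x X' L X' p1 le_rfl g2 hL1 hLx F' (by
        intro q hq
        obtain ⟨⟨b1, b2⟩, b3, b4, b5, b6, b7, b8, b9⟩ := hFm q hq
        refine ⟨b1, by rw [hX']; exact F'.le_max' q hq, b3, ?_, b4, b5⟩
        rw [hL]
        exact mod_unique (by omega) (by omega) b6 g6)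
      have h3 : ((X' : ℝ) / L) ^ (2 / 3 : ℝ) ≤ Bm x m / L := by
        rw [div_rpow hX'0.le hL0.le, div_le_div_iff₀ (by positivity) hL0]
        have h4 : (L : ℝ) = (L : ℝ) ^ (1 / 3 : ℝ) * (L : ℝ) ^ (2 / 3 : ℝ) := by
          rw [← rpow_add hL0]; norm_num
        calc (X' : ℝ) ^ (2 / 3 : ℝ) * L = ((L : ℝ) ^ (1 / 3 : ℝ) * (X' : ℝ) ^ (2 / 3 : ℝ)) *
              (L : ℝ) ^ (2 / 3 : ℝ) := by nth_rewrite 1 [h4]; ring
          _ ≤ Bm x m * (L : ℝ) ^ (2 / 3 : ℝ) := mul_le_mul_of_nonneg_right g8 (by positivity)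
      have h4 : (1 : ℝ) ≤ Bm x m / L := by
        rw [one_le_div hL0]; exact g7
      have h5 : Bm x m ≤ (x : ℝ) ^ (1 / 2 - 1 / 63 : ℝ) * ((x : ℝ) ^ (2 * (1 / 1000000) : ℝ) *
          (m : ℝ) ^ (-(1 / 2 + 2 * (1 / 1000000 : ℝ)))) := by
        unfold Bm
        apply mul_le_mul_of_nonneg_left _ (by positivity)
        calc (m : ℝ) ^ (-(1 / 2 : ℝ)) = (m : ℝ) ^ (2 * (1 / 1000000) : ℝ) *
              (m : ℝ) ^ (-(1 / 2 + 2 * (1 / 1000000 : ℝ))) := by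
              rw [← rpow_add hm0]; congr 1; norm_num
          _ ≤ _ := by
              apply mul_le_mul_of_nonneg_right _ (by positivity)
              exact rpow_le_rpow hm0.le (by exact_mod_cast k7) (by norm_num)
      rw [← hL]
      calc (F'.card : ℝ) ≤ _ := h2
        _ ≤ C * (x : ℝ) ^ (1 / 1000000 : ℝ) * (2 * (Bm x m / L)) :=
            mul_le_mul_of_nonneg_left (by linarith) (by positivity)
        _ ≤ C * (x : ℝ) ^ (1 / 1000000 : ℝ) * (2 * (((x : ℝ) ^ (1 / 2 - 1 / 63 : ℝ) *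
            ((x : ℝ) ^ (2 * (1 / 1000000) : ℝ) *
              (m : ℝ) ^ (-(1 / 2 + 2 * (1 / 1000000 : ℝ))))) / L)) := by gcongr
        _ = _ := by ring)
  have h2 : ∑ k ∈ K, 1 / ((Lam x k.1 : ℕ) : ℝ) * (k.2 : ℝ) ^ (-(1 / 2 + 2 * (1 / 1000000 : ℝ))) ≤
      C' * (x : ℝ) ^ (1 / 1000000 : ℝ) * R := by
    rw [Finset.sum_sigma]
    have h3 : ∀ p ∈ P0 x, ∑ m ∈ UU x p, 1 / ((Lam x p : ℕ) : ℝ) *
        (m : ℝ) ^ (-(1 / 2 + 2 * (1 / 1000000 : ℝ))) ≤ 1 / ((Lam x p : ℕ) : ℝ) * R := by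
      intro p _
      rw [← mul_sum]
      exact mul_le_mul_of_nonneg_left (hU x p) (by positivity)
    refine (sum_le_sum h3).trans ?_
    rw [← sum_mul]
    apply mul_le_mul_of_nonneg_right _ hR.le
    apply hsum x hx1 (P0 x)
    intro p hp
    obtain ⟨⟨a1, a2⟩, a3, a4⟩ := mem_P0.1 hp
    exact ⟨a3, a2, a4⟩
  calc (A.card : ℝ) ≤ _ := h1
    _ ≤ _ * (C' * (x : ℝ) ^ (1 / 1000000 : ℝ) * R) :=
        mul_le_mul_of_nonneg_left h2 (by positivity)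
    _ = 2 * C * C' * R * ((x : ℝ) ^ (1 / 1000000 : ℝ) * (x : ℝ) ^ (1 / 2 - 1 / 63 : ℝ) *
        (x : ℝ) ^ (2 * (1 / 1000000) : ℝ) * (x : ℝ) ^ (1 / 1000000 : ℝ)) := by ring
    _ = 2 * C * C' * R * (x : ℝ) ^ ((1 / 1000000 : ℝ) + (1 / 2 - 1 / 63) + 2 * (1 / 1000000) +
        1 / 1000000) := by
        rw [← rpow_add hx0, ← rpow_add hx0, ← rpow_add hx0]
    _ ≤ _ := mul_le_mul_of_nonneg_left (fin_exp hx1 (by norm_num)) (by positivity)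

/-- two primes, both one modulo a large number -/
theorem caseP2 : ∃ C : ℝ, 0 < C ∧ ∀ x : ℕ, 1 ≤ x → ∀ A : Finset ℕ,
    (∀ n ∈ A, ∃ p1 p2 : ℕ, n = p1 * p2 ∧ n ≤ x ∧ p1.Prime ∧ p2.Prime ∧ p1 ≠ p2 ∧ Nz x p1 ∧
      Nz x p2 ∧ n ∈ QQ x ∧ Lam x p1 ∣ p2 - 1 ∧ Lam x p2 ∣ p1 - 1 ∧
      (x : ℝ) ^ (1 - 2 / 21 : ℝ) ≤ (Lam x p1 : ℝ) * Lam x p2) →
    (A.card : ℝ) ≤ C * (x : ℝ) ^ (31 / 64 : ℝ) := by
  classical
  obtain ⟨C, hC, hquad⟩ := quad_count (1 / 1000) (by norm_num) (by norm_num)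
  refine ⟨2 * C * (1000 * 1000), by positivity, ?_⟩
  intro x hx1 A hA
  have hx1' : (1 : ℝ) ≤ x := by exact_mod_cast hx1
  have hx0 : (0 : ℝ) < x := by linarith
  obtain ⟨B, hB⟩ : ∃ B : ℝ, B = (x : ℝ) ^ (2 / 21 : ℝ) := ⟨_, rfl⟩
  have hB1 : 1 ≤ B := by rw [hB]; exact one_le_rpow hx1' (by norm_num)
  have hB0 : 0 < B := by linarith
  have hBx : B ≤ x := by
    rw [hB]
    calc (x : ℝ) ^ (2 / 21 : ℝ) ≤ (x : ℝ) ^ (1 : ℝ) :=
          rpow_le_rpow_of_exponent_le hx1' (by norm_num)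
      _ = x := rpow_one _
  have hBB : (x : ℝ) ^ (1 - 2 / 21 : ℝ) * B = x := by
    rw [hB, ← rpow_add hx0]
    norm_num
  let K : Finset (ℕ × ℕ) := (Icc 1 ⌊B⌋₊ ×ˢ Icc 1 ⌊B⌋₊).filter
    (fun k => k.1 ≠ k.2 ∧ (k.1 : ℝ) * k.2 ≤ B)
  let F : ℕ × ℕ → Finset ℕ := fun k => (Icc 0 (Nat.sqrt (x / (k.1 * k.2)))).filter (fun g =>
    Odd (NN k.1 k.2 g) ∧ ∀ ℓ ∈ Vs x, jacobiSym (ℓ : ℤ) (NN k.1 k.2 g) = 1)
  have h1 := count_img K A F (fun k g => NN k.1 k.2 g)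
    (fun k => (k.1 : ℝ) ^ (-(1 - 1 / 1000 : ℝ)) * (k.2 : ℝ) ^ (-(1 - 1 / 1000 : ℝ)))
    (C * (x : ℝ) ^ (1 / 1000 : ℝ) * (2 * ((x : ℝ) ^ (2 / 5 : ℝ) * B ^ (3 / 5 : ℝ)))) (by
      intro n hn
      obtain ⟨p1, p2, h1, h2, h3, h4, h5, h6, h7, h8, h9, h10, h11⟩ := hA n hn
      obtain ⟨g, hg⟩ : ∃ g, g = Nat.gcd (p1 - 1) (p2 - 1) := ⟨_, rfl⟩
      have hp1 := h3.two_le
      have hp2 := h4.two_le
      have hg1 : Lam x p1 ∣ g := by
        rw [hg]; exact Nat.dvd_gcd (lam_dvd_pred h3 h6) h9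
      have hg2 : Lam x p2 ∣ g := by
        rw [hg]; exact Nat.dvd_gcd h10 (lam_dvd_pred h4 h7)
      obtain ⟨a, ha⟩ : g ∣ p1 - 1 := by rw [hg]; exact Nat.gcd_dvd_left _ _
      obtain ⟨b, hb⟩ : g ∣ p2 - 1 := by rw [hg]; exact Nat.gcd_dvd_right _ _
      have hg0 : 0 < g := by
        rcases Nat.eq_zero_or_pos g with h | h
        · rw [h, zero_mul] at ha; omega
        · exact h
      have ha0 : 1 ≤ a := by
        rcases Nat.eq_zero_or_pos a with h | h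
        · rw [h, mul_zero] at ha; omega
        · exact h
      have hb0 : 1 ≤ b := by
        rcases Nat.eq_zero_or_pos b with h | h
        · rw [h, mul_zero] at hb; omega
        · exact h
      have e1 : p1 = 1 + g * a := by omega
      have e2 : p2 = 1 + g * b := by omega
      have hNN : n = NN a b g := by rw [h1, e1, e2]; rfl
      have hne : a ≠ b := by
        rintro rfl
        exact h5 (by rw [e1, e2])
      have hgab : (g * a) * (g * b) ≤ x := by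
        refine le_trans ?_ h2
        rw [h1]
        exact Nat.mul_le_mul (by omega) (by omega)
      have hgg : g ≤ Nat.sqrt (x / (a * b)) := by
        rw [Nat.le_sqrt, Nat.le_div_iff_mul_le (Nat.mul_pos ha0 hb0)]
        calc g * g * (a * b) = (g * a) * (g * b) := by ring
          _ ≤ x := hgab
      have hTT : (Lam x p1 : ℝ) * Lam x p2 ≤ (g : ℝ) * g := by
        have := Nat.mul_le_mul (Nat.le_of_dvd hg0 hg1) (Nat.le_of_dvd hg0 hg2)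
        exact_mod_cast this
      have hab : (a : ℝ) * b ≤ B := by
        have i1 : ((g : ℝ) * g) * (a * b) ≤ x := by
          have : ((g * a) * (g * b) : ℕ) ≤ (x : ℝ) := by exact_mod_cast hgab
          push_cast at this
          linarith
        have i2 : (x : ℝ) ^ (1 - 2 / 21 : ℝ) * ((a : ℝ) * b) ≤
            (x : ℝ) ^ (1 - 2 / 21 : ℝ) * B := by
          rw [hBB]
          refine le_trans ?_ i1
          exact mul_le_mul_of_nonneg_right (h11.trans hTT) (by positivity)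
        exact le_of_mul_le_mul_left i2 (by positivity)
      have ha1 : (1 : ℝ) ≤ a := by exact_mod_cast ha0
      have hb1 : (1 : ℝ) ≤ b := by exact_mod_cast hb0
      refine ⟨⟨a, b⟩, ?_, g, ?_, hNN⟩
      · rw [mem_filter, mem_product, mem_Icc, mem_Icc]
        exact ⟨⟨⟨ha0, Nat.le_floor (by nlinarith)⟩, hb0, Nat.le_floor (by nlinarith)⟩, hne, hab⟩
      · rw [mem_filter, mem_Icc]
        refine ⟨⟨Nat.zero_le _, hgg⟩, ?_, ?_⟩
        · show Odd (NN a b g)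
          rw [← hNN]; exact (mem_QQ.1 h8).2.1
        · intro ℓ hℓ
          show jacobiSym (ℓ : ℤ) (NN a b g) = 1
          rw [← hNN, (mem_QQ.1 h8).2.2.2.2 ℓ hℓ]
          simp) (by
      rintro ⟨a, b⟩ hk
      rw [mem_filter, mem_product, mem_Icc, mem_Icc] at hk
      obtain ⟨⟨⟨k1, k2⟩, k3, k4⟩, k5, k6⟩ := hk
      simp only at k1 k2 k3 k4 k5 k6
      have hfx : ⌊B⌋₊ ≤ x := by
        have : ((⌊B⌋₊ : ℕ) : ℝ) ≤ x := (Nat.floor_le (by linarith)).trans hBx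
        exact_mod_cast this
      have ha0 : (0 : ℝ) < a := by exact_mod_cast k1
      have hb0 : (0 : ℝ) < b := by exact_mod_cast k3
      have ha1 : (1 : ℝ) ≤ a := by exact_mod_cast k1
      have hb1 : (1 : ℝ) ≤ b := by exact_mod_cast k3
      obtain ⟨G, hG⟩ : ∃ G, G = Nat.sqrt (x / (a * b)) := ⟨_, rfl⟩
      have hGx : G ≤ x := by
        rw [hG]; exact (Nat.sqrt_le_self _).trans (Nat.div_le_self _ _)
      have h2 := hquad x G a b hx1 hGx k1 (k2.trans hfx) k3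
        (k4.trans hfx) k5 (F ⟨a, b⟩) (by
          intro g hg
          have h := mem_filter.1 hg
          exact ⟨by rw [hG]; exact (mem_Icc.1 h.1).2, h.2⟩)
      refine h2.trans ?_
      rw [mul_assoc (C * (x : ℝ) ^ (1 / 1000 : ℝ))]
      apply mul_le_mul_of_nonneg_left _ (by positivity)
      have hab0 : (0 : ℝ) < (a : ℝ) * b := by positivity
      have h3 : (G : ℝ) ≤ ((x : ℝ) / (a * b)) ^ (1 / 2 : ℝ) := by
        rw [← Real.sqrt_eq_rpow, hG]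
        refine Real.nat_sqrt_le_real_sqrt.trans (Real.sqrt_le_sqrt ?_)
        have := @Nat.cast_div_le ℝ _ _ _ x (a * b)
        push_cast at this ⊢
        exact this
      have h4 : (G : ℝ) ^ (4 / 5 : ℝ) ≤ ((x : ℝ) / (a * b)) ^ (2 / 5 : ℝ) := by
        calc (G : ℝ) ^ (4 / 5 : ℝ) ≤ (((x : ℝ) / (a * b)) ^ (1 / 2 : ℝ)) ^ (4 / 5 : ℝ) :=
              rpow_le_rpow (Nat.cast_nonneg _) h3 (by norm_num)
          _ = _ := by rw [← rpow_mul (by positivity)]; norm_num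
      have h5 : (1 : ℝ) ≤ ((x : ℝ) / (a * b)) ^ (2 / 5 : ℝ) := by
        apply one_le_rpow _ (by norm_num)
        rw [one_le_div hab0]
        exact k6.trans hBx
      have h6 : ((x : ℝ) / (a * b)) ^ (2 / 5 : ℝ) ≤ (x : ℝ) ^ (2 / 5 : ℝ) * B ^ (3 / 5 : ℝ) *
          ((a : ℝ) ^ (-(1 - 1 / 1000 : ℝ)) * (b : ℝ) ^ (-(1 - 1 / 1000 : ℝ))) := by
        rw [div_rpow hx0.le hab0.le, ← mul_rpow ha0.le hb0.le, div_eq_mul_inv, ← rpow_neg hab0.le,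
          mul_assoc]
        apply mul_le_mul_of_nonneg_left _ (by positivity)
        have hab1 : (1 : ℝ) ≤ (a : ℝ) * b := by nlinarith
        calc ((a : ℝ) * b) ^ (-(2 / 5 : ℝ)) = ((a : ℝ) * b) ^ (3 / 5 - 1 / 1000 : ℝ) *
              ((a : ℝ) * b) ^ (-(1 - 1 / 1000 : ℝ)) := by
              rw [← rpow_add hab0]; congr 1; norm_num
          _ ≤ B ^ (3 / 5 : ℝ) * ((a : ℝ) * b) ^ (-(1 - 1 / 1000 : ℝ)) := by
              apply mul_le_mul_of_nonneg_right _ (by positivity)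
              calc ((a : ℝ) * b) ^ (3 / 5 - 1 / 1000 : ℝ) ≤ ((a : ℝ) * b) ^ (3 / 5 : ℝ) :=
                    rpow_le_rpow_of_exponent_le hab1 (by norm_num)
                _ ≤ _ := rpow_le_rpow hab0.le k6 (by norm_num)
      linarith)
  have h2 : ∑ k ∈ K, (k.1 : ℝ) ^ (-(1 - 1 / 1000 : ℝ)) * (k.2 : ℝ) ^ (-(1 - 1 / 1000 : ℝ)) ≤
      (1000 * B ^ (1 / 1000 : ℝ)) * (1000 * B ^ (1 / 1000 : ℝ)) := by
    have h3 : ∑ a ∈ Icc 1 ⌊B⌋₊, (a : ℝ) ^ (-(1 - 1 / 1000 : ℝ)) ≤ 1000 * B ^ (1 / 1000 : ℝ) := by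
      refine (sum_rpow_le (1 - 1 / 1000) (by norm_num) (by norm_num) ⌊B⌋₊).trans ?_
      rw [div_le_iff₀ (by norm_num)]
      have i1 : (⌊B⌋₊ : ℝ) ^ (1 - (1 - 1 / 1000) : ℝ) ≤ B ^ (1 - (1 - 1 / 1000) : ℝ) :=
        rpow_le_rpow (Nat.cast_nonneg _) (Nat.floor_le hB0.le) (by norm_num)
      rw [show (1 - (1 - 1 / 1000) : ℝ) = 1 / 1000 by norm_num] at i1 ⊢
      linarith
    calc _ ≤ ∑ k ∈ Icc 1 ⌊B⌋₊ ×ˢ Icc 1 ⌊B⌋₊,
          (k.1 : ℝ) ^ (-(1 - 1 / 1000 : ℝ)) * (k.2 : ℝ) ^ (-(1 - 1 / 1000 : ℝ)) :=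
          sum_le_sum_of_subset_of_nonneg (filter_subset _ _) fun _ _ _ => by positivity
      _ = (∑ a ∈ Icc 1 ⌊B⌋₊, (a : ℝ) ^ (-(1 - 1 / 1000 : ℝ))) *
          (∑ b ∈ Icc 1 ⌊B⌋₊, (b : ℝ) ^ (-(1 - 1 / 1000 : ℝ))) := by
          rw [sum_product, sum_mul_sum]
      _ ≤ _ := mul_le_mul h3 h3 (sum_nonneg fun _ _ => by positivity) (by positivity)
  calc (A.card : ℝ) ≤ _ := h1
    _ ≤ _ * ((1000 * B ^ (1 / 1000 : ℝ)) * (1000 * B ^ (1 / 1000 : ℝ))) :=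
        mul_le_mul_of_nonneg_left h2 (by positivity)
    _ = 2 * C * (1000 * 1000) * ((x : ℝ) ^ (1 / 1000 : ℝ) * (x : ℝ) ^ (2 / 5 : ℝ) *
        B ^ (3 / 5 : ℝ) * B ^ (1 / 1000 : ℝ) * B ^ (1 / 1000 : ℝ)) := by ring
    _ = 2 * C * (1000 * 1000) * (x : ℝ) ^ ((1 / 1000 : ℝ) + 2 / 5 + 2 / 21 * (3 / 5) +
        2 / 21 * (1 / 1000) + 2 / 21 * (1 / 1000)) := by
        rw [hB, ← rpow_mul hx0.le, ← rpow_mul hx0.le, ← rpow_add hx0, ← rpow_add hx0,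
          ← rpow_add hx0, ← rpow_add hx0]
    _ ≤ _ := mul_le_mul_of_nonneg_left (fin_exp hx1 (by norm_num)) (by positivity)

/-- two primes and a small cofactor: the pair is determined by few parameters -/
theorem caseP3 : ∃ C : ℝ, 0 < C ∧ ∀ x : ℕ, 1 ≤ x → ∀ A : Finset ℕ,
    (∀ n ∈ A, ∃ p1 p2 m : ℕ, n = p1 * p2 * m ∧ n ≤ x ∧ p1.Prime ∧ p2.Prime ∧ Nz x p1 ∧ Nz x p2 ∧
      2 ≤ m ∧ (m : ℝ) ≤ (x : ℝ) ^ (2 / 63 : ℝ) ∧ Lam x p1 ∣ m * p2 - 1 ∧ Lam x p2 ∣ m * p1 - 1 ∧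
      (x : ℝ) ^ (1 - 4 / 21 : ℝ) ≤ (Lam x p1 : ℝ) * Lam x p2) →
    (A.card : ℝ) ≤ C * (x : ℝ) ^ (31 / 64 : ℝ) := by
  classical
  obtain ⟨C, hC, hd⟩ := card_divisors_le (1 / 1000) (by norm_num)
  refine ⟨C * C, by positivity, ?_⟩
  intro x hx1 A hA
  have hx1' : (1 : ℝ) ≤ x := by exact_mod_cast hx1
  have hx0 : (0 : ℝ) < x := by linarith
  obtain ⟨Z, hZ⟩ : ∃ Z : ℝ, Z = (x : ℝ) ^ (2 / 63 : ℝ) := ⟨_, rfl⟩
  have hZ1 : 1 ≤ Z := by rw [hZ]; exact one_le_rpow hx1' (by norm_num)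
  have hZ0 : 0 < Z := by linarith
  obtain ⟨B, hB⟩ : ∃ B : ℝ, B = (x : ℝ) ^ (4 / 21 : ℝ) := ⟨_, rfl⟩
  have hB1 : 1 ≤ B := by rw [hB]; exact one_le_rpow hx1' (by norm_num)
  have hB0 : 0 < B := by linarith
  have hBx : B ≤ x := by
    rw [hB]
    calc (x : ℝ) ^ (4 / 21 : ℝ) ≤ (x : ℝ) ^ (1 : ℝ) :=
          rpow_le_rpow_of_exponent_le hx1' (by norm_num)
      _ = x := rpow_one _
  have hZBx : Z * B ≤ x := by
    rw [hZ, hB, ← rpow_add hx0]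
    calc (x : ℝ) ^ (2 / 63 + 4 / 21 : ℝ) ≤ (x : ℝ) ^ (1 : ℝ) :=
          rpow_le_rpow_of_exponent_le hx1' (by norm_num)
      _ = x := rpow_one _
  have hBB : (x : ℝ) ^ (1 - 4 / 21 : ℝ) * B = x := by
    rw [hB, ← rpow_add hx0]
    norm_num
  rw [← hZ] at hA
  let S1 : Finset ((_ : ℕ) × ℕ) := (Icc 1 ⌊B⌋₊).sigma (fun k => k.divisors)
  let S2 : Finset ((_ : ℕ) × ℕ) := (Icc 1 ⌊Z * B⌋₊).sigma (fun k => k.divisors)
  let K : Finset (ℕ × ((_ : ℕ) × ℕ) × ((_ : ℕ) × ℕ)) := Icc 1 ⌊Z⌋₊ ×ˢ (S1 ×ˢ S2)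
  let G : ℕ × ((_ : ℕ) × ℕ) × ((_ : ℕ) × ℕ) → Finset ℕ := fun k => A.filter (fun n =>
    ∃ p1 p2 T1 T2 : ℕ, n = p1 * p2 * k.1 ∧ 2 ≤ p1 ∧ 2 ≤ p2 ∧ 2 ≤ k.1 ∧
      p1 = 1 + k.2.1.2 * T1 ∧ p2 = 1 + (k.2.1.1 / k.2.1.2) * T2 ∧ k.1 * p2 = 1 + k.2.2.2 * T1 ∧
      k.1 * p1 = 1 + (k.2.2.1 / k.2.2.2) * T2)
  have h1 := count_le K A G (fun _ => 1) 1 (by
      intro n hn
      obtain ⟨p1, p2, m, h1, h2, h3, h4, h5, h6, h7, h8, h9, h10, h11⟩ := hA n hn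
      have hp1 := h3.two_le
      have hp2 := h4.two_le
      obtain ⟨T1, hT1⟩ : ∃ T1, T1 = Lam x p1 := ⟨_, rfl⟩
      obtain ⟨T2, hT2⟩ : ∃ T2, T2 = Lam x p2 := ⟨_, rfl⟩
      have d1 := lam_dvd_pred h3 h5
      have d2 := lam_dvd_pred h4 h6
      rw [← hT1] at d1 h9
      rw [← hT2] at d2 h10
      rw [← hT1, ← hT2] at h11
      obtain ⟨a, ha⟩ := d1
      obtain ⟨b, hb⟩ := d2
      obtain ⟨h, hh⟩ := h9
      obtain ⟨h', hh'⟩ := h10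
      have hmp1 : 2 ≤ m * p1 := by nlinarith
      have hmp2 : 2 ≤ m * p2 := by nlinarith
      have hpos : ∀ u v w : ℕ, 1 ≤ w → w = u * v → 1 ≤ v := by
        intro u v w hw h
        rcases Nat.eq_zero_or_pos v with h0 | h0
        · rw [h0, mul_zero] at h; omega
        · exact h0
      have ha0 : 1 ≤ a := hpos _ _ _ (by omega) ha
      have hb0 : 1 ≤ b := hpos _ _ _ (by omega) hb
      have hh0 : 1 ≤ h := hpos _ _ _ (by omega) hh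
      have hh0' : 1 ≤ h' := hpos _ _ _ (by omega) hh'
      have hnx : ((p1 * p2 * m : ℕ) : ℝ) ≤ x := by rw [← h1]; exact_mod_cast h2
      have hab : ((a * b : ℕ) : ℝ) ≤ B := by
        have i0 : T1 * a * (T2 * b) ≤ p1 * p2 * m := by
          rw [← ha, ← hb]
          calc (p1 - 1) * (p2 - 1) ≤ p1 * p2 := Nat.mul_le_mul (by omega) (by omega)
            _ ≤ p1 * p2 * m := Nat.le_mul_of_pos_right _ (by omega)
        have i1 : ((T1 : ℝ) * T2) * (a * b) ≤ x := by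
          have : ((T1 * a * (T2 * b) : ℕ) : ℝ) ≤ (x : ℝ) := le_trans (by exact_mod_cast i0) hnx
          push_cast at this
          linarith
        have i2 : (x : ℝ) ^ (1 - 4 / 21 : ℝ) * ((a : ℝ) * b) ≤
            (x : ℝ) ^ (1 - 4 / 21 : ℝ) * B := by
          rw [hBB]
          refine le_trans ?_ i1
          exact mul_le_mul_of_nonneg_right h11 (by positivity)
        push_cast
        exact le_of_mul_le_mul_left i2 (by positivity)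
      have hhh : ((h * h' : ℕ) : ℝ) ≤ Z * B := by
        have i0 : T1 * h * (T2 * h') ≤ m * (p1 * p2 * m) := by
          rw [← hh, ← hh']
          calc (m * p2 - 1) * (m * p1 - 1) ≤ (m * p2) * (m * p1) :=
                Nat.mul_le_mul (by omega) (by omega)
            _ = m * (p1 * p2 * m) := by ring
        have i1 : ((T1 : ℝ) * T2) * (h * h') ≤ Z * x := by
          have : ((T1 * h * (T2 * h') : ℕ) : ℝ) ≤ ((m * (p1 * p2 * m) : ℕ) : ℝ) := by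
            exact_mod_cast i0
          rw [Nat.cast_mul m] at this
          push_cast at this hnx
          have i3 : (m : ℝ) * (p1 * p2 * m) ≤ Z * x := mul_le_mul h8 hnx (by positivity) hZ0.le
          linarith
        have i2 : (x : ℝ) ^ (1 - 4 / 21 : ℝ) * ((h : ℝ) * h') ≤
            (x : ℝ) ^ (1 - 4 / 21 : ℝ) * (Z * B) := by
          have i4 : (x : ℝ) ^ (1 - 4 / 21 : ℝ) * (Z * B) = Z * x := by
            calc (x : ℝ) ^ (1 - 4 / 21 : ℝ) * (Z * B) =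
                Z * ((x : ℝ) ^ (1 - 4 / 21 : ℝ) * B) := by ring
              _ = Z * x := by rw [hBB]
          rw [i4]
          refine le_trans ?_ i1
          exact mul_le_mul_of_nonneg_right h11 (by positivity)
        push_cast
        exact le_of_mul_le_mul_left i2 (by positivity)
      refine ⟨⟨m, ⟨a * b, a⟩, ⟨h * h', h⟩⟩, ?_, ?_⟩
      · simp only [K, S1, S2, mem_product, mem_sigma, mem_Icc, Nat.mem_divisors]
        exact ⟨⟨by omega, Nat.le_floor h8⟩, ⟨⟨Nat.mul_pos ha0 hb0, Nat.le_floor hab⟩,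
          dvd_mul_right _ _, (Nat.mul_pos ha0 hb0).ne'⟩, ⟨Nat.mul_pos hh0 hh0', Nat.le_floor hhh⟩,
          dvd_mul_right _ _, (Nat.mul_pos hh0 hh0').ne'⟩
      · simp only [G, mem_filter]
        rw [Nat.mul_div_cancel_left b ha0, Nat.mul_div_cancel_left h' hh0]
        refine ⟨hn, p1, p2, T1, T2, h1, hp1, hp2, h7, ?_, ?_, ?_, ?_⟩
        · rw [mul_comm]; omega
        · rw [mul_comm]; omega
        · rw [mul_comm h T1]; omega
        · rw [mul_comm h' T2]; omega) (by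
      rintro ⟨m, ⟨ab, a⟩, ⟨hh, h⟩⟩ _
      rw [mul_one]
      have : (G ⟨m, ⟨ab, a⟩, ⟨hh, h⟩⟩).card ≤ 1 := by
        rw [card_le_one]
        intro n hn n' hn'
        simp only [G, mem_filter] at hn hn'
        obtain ⟨b, hb⟩ : ∃ b, b = ab / a := ⟨_, rfl⟩
        obtain ⟨h', hh'⟩ : ∃ h', h' = hh / h := ⟨_, rfl⟩
        rw [← hb, ← hh'] at hn hn'
        obtain ⟨_, p1, p2, T1, T2, i1, i2, i3, i4, i5, i6, i7, i8⟩ := hn
        obtain ⟨_, q1, q2, S1, S2, j1, j2, j3, j4, j5, j6, j7, j8⟩ := hn'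
        have h := lin_unique (m := m) (a := a) (b := b) (h := h) (h' := h') (p1 := p1) (p2 := p2)
          (T1 := T1) (T2 := T2) (q1 := q1) (q2 := q2) (S1 := S1) (S2 := S2)
          (by exact_mod_cast i4) (by exact_mod_cast i2) (by exact_mod_cast i3)
          (by exact_mod_cast i5) (by exact_mod_cast i6) (by exact_mod_cast i7)
          (by exact_mod_cast i8) (by exact_mod_cast j5) (by exact_mod_cast j6)
          (by exact_mod_cast j7) (by exact_mod_cast j8)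
        have e1 : p1 = q1 := by exact_mod_cast h.1
        have e2 : p2 = q2 := by exact_mod_cast h.2
        rw [i1, j1, e1, e2]
      exact_mod_cast this)
  have hS : ∀ W : ℝ, 0 < W → W ≤ x →
      (((Icc 1 ⌊W⌋₊).sigma (fun k => k.divisors)).card : ℝ) ≤
        W * (C * (x : ℝ) ^ (1 / 1000 : ℝ)) := by
    intro W hW0 hWx
    rw [card_sigma]
    push_cast
    have h3 : ∀ k ∈ Icc 1 ⌊W⌋₊, (k.divisors.card : ℝ) ≤ C * (x : ℝ) ^ (1 / 1000 : ℝ) := by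
      intro k hk
      rw [mem_Icc] at hk
      apply hd x k hk.1
      have : (k : ℝ) ≤ x := ((Nat.le_floor_iff hW0.le).1 hk.2).trans hWx
      exact_mod_cast this
    refine (sum_le_sum h3).trans ?_
    rw [sum_const, nsmul_eq_mul, Nat.card_Icc, Nat.add_sub_cancel]
    exact mul_le_mul_of_nonneg_right (Nat.floor_le hW0.le) (by positivity)
  have h2 : ∑ _k ∈ K, (1 : ℝ) ≤ Z * ((B * (C * (x : ℝ) ^ (1 / 1000 : ℝ))) *
      ((Z * B) * (C * (x : ℝ) ^ (1 / 1000 : ℝ)))) := by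
    rw [sum_const, nsmul_eq_mul, mul_one]
    have h3 : (K.card : ℝ) = (⌊Z⌋₊ : ℝ) * ((S1.card : ℝ) * (S2.card : ℝ)) := by
      simp only [K, card_product, Nat.card_Icc, Nat.add_sub_cancel]
      push_cast
      ring
    rw [h3]
    have h6 : (⌊Z⌋₊ : ℝ) ≤ Z := Nat.floor_le (by linarith)
    have h7 := hS B hB0 hBx
    have h8 := hS (Z * B) (by positivity) hZBx
    exact mul_le_mul h6 (mul_le_mul h7 h8 (Nat.cast_nonneg _) (by positivity))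
      (by positivity) hZ0.le
  calc (A.card : ℝ) ≤ _ := h1
    _ ≤ 1 * (Z * ((B * (C * (x : ℝ) ^ (1 / 1000 : ℝ))) *
      ((Z * B) * (C * (x : ℝ) ^ (1 / 1000 : ℝ))))) :=
        mul_le_mul_of_nonneg_left h2 (by norm_num)
    _ = C * C * (Z * B * (x : ℝ) ^ (1 / 1000 : ℝ) * Z * B * (x : ℝ) ^ (1 / 1000 : ℝ)) := by ring
    _ = C * C * (x : ℝ) ^ (2 / 63 + 4 / 21 + 1 / 1000 + 2 / 63 + 4 / 21 + 1 / 1000 : ℝ) := by
        rw [hZ, hB, ← rpow_add hx0, ← rpow_add hx0, ← rpow_add hx0, ← rpow_add hx0,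
          ← rpow_add hx0]
    _ ≤ _ := mul_le_mul_of_nonneg_left (fin_exp hx1 (by norm_num)) (by positivity)

end Pool.Agent.H35.WS
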