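import Pool.Agent.H35.WS.Fib

set_option autoImplicit false

/-! Products of primes whose orders divide a fixed number. -/

namespace Pool.Agent.H35.WS

open Finset Real Pool.Agent.K1H88.WS Pool.Agent.W57.SW

lemma sum_rpow_le (σ : ℝ) (h0 : 0 ≤ σ) (h1 : σ < 1) (K : ℕ) :
    ∑ k ∈ Icc 1 K, (k : ℝ) ^ (-σ) ≤ (K : ℝ) ^ (1 - σ) / (1 - σ) := by
  have hs : 0 < 1 - σ := by linarith
  induction K with
  | zero =>
    simp
    rw [zero_rpow hs.ne']
    simp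
  | succ K ih =>
    rw [sum_Icc_succ_top (by omega)]
    have hK1 : (0 : ℝ) < ((K + 1 : ℕ) : ℝ) := by positivity
    have hb := rpow_one_add_le_one_add_mul_self (s := -(1 / ((K + 1 : ℕ) : ℝ))) (p := 1 - σ)
      (by
        have : 1 / ((K + 1 : ℕ) : ℝ) ≤ 1 := by
          rw [div_le_one hK1]
          push_cast
          have : (0 : ℝ) ≤ K := Nat.cast_nonneg K
          linarith
        linarith) hs.le (by linarith)
    have e1 : 1 + -(1 / ((K + 1 : ℕ) : ℝ)) = (K : ℝ) / ((K + 1 : ℕ) : ℝ) := by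
      push_cast
      field_simp
      ring
    rw [e1, div_rpow (Nat.cast_nonneg K) hK1.le, div_le_iff₀ (by positivity)] at hb
    have e2 : (1 + (1 - σ) * -(1 / ((K + 1 : ℕ) : ℝ))) * ((K + 1 : ℕ) : ℝ) ^ (1 - σ) =
        ((K + 1 : ℕ) : ℝ) ^ (1 - σ) - (1 - σ) * ((K + 1 : ℕ) : ℝ) ^ (-σ) := by
      have e3 : ((K + 1 : ℕ) : ℝ) ^ (1 - σ) = ((K + 1 : ℕ) : ℝ) * ((K + 1 : ℕ) : ℝ) ^ (-σ) := by
        rw [sub_eq_add_neg, rpow_add hK1, rpow_one]
      rw [e3]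
      field_simp
      ring
    rw [e2] at hb
    rw [le_div_iff₀ hs] at ih ⊢
    nlinarith

/-- sums over the prime factors -/
lemma sum_primeFactors_le (σ : ℝ) (h0 : 0 < σ) (h1 : σ < 1) (N : ℕ) (hN : 1 ≤ N) :
    ∑ p ∈ N.primeFactors, (p : ℝ) ^ (-σ) ≤ (1 + 1 / (1 - σ)) * ((3 / 2) * log N) ^ (1 - σ) := by
  classical
  have hs : 0 < 1 - σ := by linarith
  obtain ⟨K, hK⟩ : ∃ K, K = N.primeFactors.card := ⟨_, rfl⟩
  have hKle : (K : ℝ) ≤ (3 / 2) * log N := by rw [hK]; exact card_primeFactors_le hN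
  have hK0 : (0 : ℝ) ≤ K := Nat.cast_nonneg K
  have key : ∑ p ∈ N.primeFactors, (p : ℝ) ^ (-σ) ≤ (1 + 1 / (1 - σ)) * (K : ℝ) ^ (1 - σ) := by
    rw [← sum_filter_add_sum_filter_not N.primeFactors (fun p => p ≤ K)]
    have i1 : ∑ p ∈ N.primeFactors.filter (fun p => p ≤ K), (p : ℝ) ^ (-σ) ≤
        (K : ℝ) ^ (1 - σ) / (1 - σ) := by
      refine le_trans (sum_le_sum_of_subset_of_nonneg ?_ fun _ _ _ => by positivity)
        (sum_rpow_le σ h0.le h1 K)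
      intro p hp
      rw [mem_filter] at hp
      exact mem_Icc.2 ⟨(Nat.prime_of_mem_primeFactors hp.1).one_lt.le, hp.2⟩
    have i2 : ∑ p ∈ N.primeFactors.filter (fun p => ¬ p ≤ K), (p : ℝ) ^ (-σ) ≤
        (K : ℝ) ^ (1 - σ) := by
      rcases Nat.eq_zero_or_pos K with hz | hp
      · have : N.primeFactors = ∅ := by
          rw [← card_eq_zero, ← hK, hz]
        rw [this]
        simp
        positivity
      · have hKp : (0 : ℝ) < K := by exact_mod_cast hp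
        have i3 : ∀ p ∈ N.primeFactors.filter (fun p => ¬ p ≤ K), (p : ℝ) ^ (-σ) ≤ (K : ℝ) ^ (-σ) := by
          intro p hp
          rw [mem_filter] at hp
          exact rpow_le_rpow_of_nonpos hKp (by exact_mod_cast (not_le.1 hp.2).le) (by linarith)
        refine (sum_le_sum i3).trans ?_
        rw [sum_const, nsmul_eq_mul]
        have i4 : ((N.primeFactors.filter (fun p => ¬ p ≤ K)).card : ℝ) ≤ K := by
          rw [hK]; exact_mod_cast card_filter_le _ _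
        calc _ ≤ (K : ℝ) * (K : ℝ) ^ (-σ) := mul_le_mul_of_nonneg_right i4 (by positivity)
          _ = (K : ℝ) ^ (1 - σ) := by rw [sub_eq_add_neg, rpow_add hKp, rpow_one]
    calc _ ≤ (K : ℝ) ^ (1 - σ) / (1 - σ) + (K : ℝ) ^ (1 - σ) := add_le_add i1 i2
      _ = _ := by ring
  refine key.trans (mul_le_mul_of_nonneg_left ?_ (by positivity))
  exact rpow_le_rpow hK0 hKle hs.le

/-- the sum over the divisors -/
lemma divsum (σ : ℝ) (h0 : 0 < σ) (h1 : σ < 1) : ∃ C : ℝ, 0 < C ∧ ∀ x N : ℕ, 1 ≤ N → N ≤ x →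
    ∑ T ∈ N.divisors, (T : ℝ) ^ (-σ) ≤ exp (C * (log x) ^ (1 - σ)) := by
  have hs : 0 < 1 - σ := by linarith
  have h2σ : (2 : ℝ) ^ (-σ) < 1 := rpow_lt_one_of_one_lt_of_neg (by norm_num) (by linarith)
  obtain ⟨c, hc⟩ : ∃ c : ℝ, c = 1 / (1 - (2 : ℝ) ^ (-σ)) := ⟨_, rfl⟩
  have hc0 : 0 < c := by rw [hc]; apply one_div_pos.2; linarith
  refine ⟨c * ((1 + 1 / (1 - σ)) * (3 / 2) ^ (1 - σ)), by positivity, ?_⟩
  intro x N hN hNx
  refine (sum_divisors_le N (by omega) σ h0).trans ?_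
  have h3 : ∏ p ∈ N.primeFactors, (1 - (p : ℝ) ^ (-σ))⁻¹ ≤
      exp (∑ p ∈ N.primeFactors, c * (p : ℝ) ^ (-σ)) := by
    rw [Real.exp_sum]
    refine prod_le_prod (fun p hp => ?_) fun p hp => ?_
    · have hp1 : (1 : ℝ) < p := by exact_mod_cast (Nat.prime_of_mem_primeFactors hp).one_lt
      have : (p : ℝ) ^ (-σ) < 1 := rpow_lt_one_of_one_lt_of_neg hp1 (by linarith)
      exact inv_nonneg.2 (by linarith)
    · have hp2 : (2 : ℝ) ≤ p := by exact_mod_cast (Nat.prime_of_mem_primeFactors hp).two_le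
      obtain ⟨u, hu⟩ : ∃ u : ℝ, u = (p : ℝ) ^ (-σ) := ⟨_, rfl⟩
      rw [← hu]
      have hu0 : 0 < u := by rw [hu]; positivity
      have hu1 : u ≤ (2 : ℝ) ^ (-σ) := by
        rw [hu]
        exact rpow_le_rpow_of_nonpos (by norm_num) hp2 (by linarith)
      have h4 : 0 < 1 - u := by linarith
      have h5 : (1 - u)⁻¹ ≤ 1 + c * u := by
        have h6 : (1 - u)⁻¹ ≤ c := by
          rw [hc, one_div]
          exact inv_anti₀ (by linarith) (by linarith)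
        have h7 : (1 - u)⁻¹ = 1 + (1 - u)⁻¹ * u := by field_simp; ring
        rw [h7]
        have := mul_le_mul_of_nonneg_right h6 hu0.le
        linarith
      exact h5.trans (by rw [add_comm]; exact add_one_le_exp _)
  refine h3.trans (exp_le_exp.2 ?_)
  rw [← mul_sum]
  have hN1 : (1 : ℝ) ≤ N := by exact_mod_cast hN
  have hlogN : 0 ≤ log (N : ℝ) := log_nonneg hN1
  have hlog : log (N : ℝ) ≤ log x := log_le_log (by linarith) (by exact_mod_cast hNx)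
  have h8 := sum_primeFactors_le σ h0 h1 N hN
  calc c * ∑ p ∈ N.primeFactors, (p : ℝ) ^ (-σ) ≤
      c * ((1 + 1 / (1 - σ)) * ((3 / 2) * log N) ^ (1 - σ)) := mul_le_mul_of_nonneg_left h8 hc0.le
    _ = c * ((1 + 1 / (1 - σ)) * (3 / 2) ^ (1 - σ)) * (log N) ^ (1 - σ) := by
        rw [mul_rpow (by norm_num) hlogN]; ring
    _ ≤ _ := by
        apply mul_le_mul_of_nonneg_left _ (by positivity)
        exact rpow_le_rpow hlogN hlog hs.le

theorem PL_rank (δ : ℝ) (hδ : 0 < δ) (hδ1 : δ ≤ 1 / 1000) : ∃ K : ℝ, 0 < K ∧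
    ∀ x m0 N X : ℕ, 1 ≤ X → X ≤ x → 1 ≤ N → N ≤ x →
    (((PL x m0 N).filter (fun q => q ≤ X)).card : ℝ) ≤ K * (X : ℝ) ^ (5 / 12 + 4 * δ) := by
  classical
  obtain ⟨K, hK, hrank⟩ := PP_rank (12 / 5) δ (by norm_num) hδ
  obtain ⟨C, hC, D0, hap⟩ := ap_prime_T δ hδ hδ1
  obtain ⟨C', hC', hdiv⟩ := divsum (1 / 6 + δ) (by positivity) (by linarith)
  have hev1 : ∀ᶠ t : ℝ in Filter.atTop, C' * t ^ (1 - (1 / 6 + δ)) ≤ δ * t ^ (5 / 6 : ℝ) := by
    have h := (tendsto_rpow_atTop hδ).eventually (Filter.eventually_ge_atTop (C' / δ))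
    filter_upwards [h, Filter.eventually_gt_atTop 0] with t ht ht0
    rw [div_le_iff₀ hδ] at ht
    calc C' * t ^ (1 - (1 / 6 + δ)) ≤ (t ^ δ * δ) * t ^ (1 - (1 / 6 + δ)) :=
          mul_le_mul_of_nonneg_right ht (by positivity)
      _ = δ * (t ^ δ * t ^ (1 - (1 / 6 + δ))) := by ring
      _ = δ * t ^ (5 / 6 : ℝ) := by
          rw [← rpow_add ht0]; congr 2; ring
  obtain ⟨Y0, hY0⟩ := Filter.eventually_atTop.mp (tendsto_log_atTop.eventually hev1)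
  refine ⟨K + D0 + C + ⌈Y0⌉₊, by positivity, ?_⟩
  intro x m0 N X hX1 hXx hN1 hNx
  have hX1' : (1 : ℝ) ≤ X := by exact_mod_cast hX1
  have hX0 : (0 : ℝ) < X := by linarith
  have hD00 : (0 : ℝ) ≤ D0 := Nat.cast_nonneg _
  have hY00 : (0 : ℝ) ≤ (⌈Y0⌉₊ : ℝ) := Nat.cast_nonneg _
  have hlogx : 0 ≤ log (x : ℝ) := log_natCast_nonneg x
  have hXp : (1 : ℝ) ≤ (X : ℝ) ^ (5 / 12 + 4 * δ) := one_le_rpow hX1' (by positivity)
  rcases le_or_gt (log (X : ℝ)) ((log (x : ℝ)) ^ (5 / 6 : ℝ)) with hs | hl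
  · have h1 : (log (X : ℝ)) ^ (12 / 5 : ℝ) ≤ (log (x : ℝ)) ^ (2 : ℝ) := by
      calc (log (X : ℝ)) ^ (12 / 5 : ℝ) ≤ ((log (x : ℝ)) ^ (5 / 6 : ℝ)) ^ (12 / 5 : ℝ) :=
            rpow_le_rpow (log_natCast_nonneg X) hs (by norm_num)
        _ = (log (x : ℝ)) ^ (2 : ℝ) := by rw [← rpow_mul hlogx]; norm_num
    have h2 := hrank x X m0 hX1 h1
    have h3 : (PL x m0 N).filter (fun q => q ≤ X) ⊆ (PP x m0).filter (fun q => q ≤ X) := by
      intro q hq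
      rw [mem_filter, mem_PL] at hq
      exact mem_filter.2 ⟨hq.1.1, hq.2⟩
    have h4 : (((PL x m0 N).filter (fun q => q ≤ X)).card : ℝ) ≤
        (((PP x m0).filter (fun q => q ≤ X)).card : ℝ) := by exact_mod_cast card_le_card h3
    calc _ ≤ _ := h4
      _ ≤ K * (X : ℝ) ^ (1 / (12 / 5) + δ : ℝ) := h2
      _ ≤ (K + D0 + C + ⌈Y0⌉₊) * (X : ℝ) ^ (5 / 12 + 4 * δ) := by
          apply mul_le_mul _ (rpow_le_rpow_of_exponent_le hX1' (by norm_num; linarith))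
            (by positivity) (by positivity)
          linarith
  rcases lt_or_ge x ⌈Y0⌉₊ with hsm | hlg
  · have h1 : (PL x m0 N).filter (fun q => q ≤ X) ⊆ Icc 1 X := by
      intro q hq
      rw [mem_filter, mem_PL, mem_PP] at hq
      exact mem_Icc.2 ⟨hq.1.1.1.1, hq.2⟩
    have h2 := card_le_card h1
    rw [Nat.card_Icc, Nat.add_sub_cancel] at h2
    have h3 : (((PL x m0 N).filter (fun q => q ≤ X)).card : ℝ) ≤ ⌈Y0⌉₊ := by
      exact_mod_cast h2.trans (hXx.trans hsm.le)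
    calc _ ≤ (K + D0 + C + ⌈Y0⌉₊) * 1 := by linarith
      _ ≤ _ := mul_le_mul_of_nonneg_left hXp (by positivity)
  · have hc1 := hY0 x ((Nat.le_ceil Y0).trans (by exact_mod_cast hlg))
    obtain ⟨F, hF⟩ : ∃ F, F = (PL x m0 N).filter (fun q => q ≤ X) := ⟨_, rfl⟩
    rw [← hF]
    have hFm : ∀ q ∈ F, q ∈ PP x m0 ∧ Lam x q ∣ N ∧ q ≤ X := by
      intro q hq
      rw [hF, mem_filter, mem_PL] at hq
      exact ⟨hq.1.1, hq.1.2, hq.2⟩
    have hlam : ∀ q ∈ F, 1 ≤ Lam x q ∧ Lam x q ≤ X := by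
      intro q hq
      obtain ⟨a1, a2, a3⟩ := hFm q hq
      rw [mem_PP] at a1
      refine ⟨lam_pos a1.2.1 a1.2.2.2.1, ?_⟩
      have h1 := Nat.le_of_dvd (Nat.sub_pos_of_lt a1.2.1.one_lt)
        (lam_dvd_pred a1.2.1 a1.2.2.2.1)
      omega
    obtain ⟨Ds, hDs⟩ : ∃ Ds, Ds = N.divisors.filter (fun T => T ≤ X) := ⟨_, rfl⟩
    have hcov : F ⊆ Ico 0 D0 ∪ Ds.biUnion (fun T => F.filter (fun q => D0 ≤ q ∧ Lam x q = T)) := by
      intro q hq
      rw [mem_union, mem_Ico, mem_biUnion]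
      rcases lt_or_ge q D0 with h | h
      · exact Or.inl ⟨Nat.zero_le _, h⟩
      · refine Or.inr ⟨Lam x q, ?_, mem_filter.2 ⟨hq, h, rfl⟩⟩
        rw [hDs, mem_filter, Nat.mem_divisors]
        exact ⟨⟨(hFm q hq).2.1, by omega⟩, (hlam q hq).2⟩
    have h1 : (F.card : ℝ) ≤ D0 +
        ∑ T ∈ Ds, ((F.filter (fun q => D0 ≤ q ∧ Lam x q = T)).card : ℝ) := by
      have h2 := (card_le_card hcov).trans (card_union_le _ _)
      have h3 := h2.trans (add_le_add_right card_biUnion_le _)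
      rw [Nat.card_Ico, Nat.sub_zero] at h3
      exact_mod_cast h3
    have h2 : ∀ T ∈ Ds, ((F.filter (fun q => D0 ≤ q ∧ Lam x q = T)).card : ℝ) ≤
        C * (X : ℝ) ^ (5 / 12 + 3 * δ) * (T : ℝ) ^ (-(1 / 6 + δ)) := by
      intro T hT
      rw [hDs, mem_filter, Nat.mem_divisors] at hT
      obtain ⟨⟨hT1, hT2⟩, hT3⟩ := hT
      have hTpos : 1 ≤ T := Nat.pos_of_dvd_of_pos hT1 (by omega)
      have hT0 : (0 : ℝ) < T := by exact_mod_cast hTpos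
      have i1 := hap x X T m0 hXx hTpos hT3 (F.filter (fun q => D0 ≤ q ∧ Lam x q = T)) (by
        intro q hq
        rw [mem_filter] at hq
        obtain ⟨a1, a2, a3⟩ := hFm q hq.1
        exact ⟨a1, hq.2.1, a3, hq.2.2⟩)
      refine i1.trans ?_
      have i2 : (T : ℝ) ^ (-(1 / 6 : ℝ)) ≤ (X : ℝ) ^ δ * (T : ℝ) ^ (-(1 / 6 + δ)) := by
        calc (T : ℝ) ^ (-(1 / 6 : ℝ)) = (T : ℝ) ^ δ * (T : ℝ) ^ (-(1 / 6 + δ)) := by
              rw [← rpow_add hT0]; congr 1; ring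
          _ ≤ _ := mul_le_mul_of_nonneg_right
              (rpow_le_rpow hT0.le (by exact_mod_cast hT3) hδ.le) (by positivity)
      calc C * (X : ℝ) ^ (5 / 12 + 2 * δ) * (T : ℝ) ^ (-(1 / 6 : ℝ)) ≤
          C * (X : ℝ) ^ (5 / 12 + 2 * δ) * ((X : ℝ) ^ δ * (T : ℝ) ^ (-(1 / 6 + δ))) :=
            mul_le_mul_of_nonneg_left i2 (by positivity)
        _ = C * ((X : ℝ) ^ (5 / 12 + 2 * δ) * (X : ℝ) ^ δ) * (T : ℝ) ^ (-(1 / 6 + δ)) := by ring
        _ = _ := by rw [← rpow_add hX0]; congr 3; ring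
    have h3 := sum_le_sum h2
    rw [← mul_sum] at h3
    have h4 : ∑ T ∈ Ds, (T : ℝ) ^ (-(1 / 6 + δ)) ≤ (X : ℝ) ^ δ := by
      calc ∑ T ∈ Ds, (T : ℝ) ^ (-(1 / 6 + δ)) ≤ ∑ T ∈ N.divisors, (T : ℝ) ^ (-(1 / 6 + δ)) := by
            rw [hDs]
            exact sum_le_sum_of_subset_of_nonneg (filter_subset _ _) fun _ _ _ => by positivity
        _ ≤ exp (C' * (log x) ^ (1 - (1 / 6 + δ))) := hdiv x N hN1 hNx
        _ ≤ exp (δ * log X) := by
            apply exp_le_exp.2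
            refine hc1.trans ?_
            exact mul_le_mul_of_nonneg_left hl.le hδ.le
        _ = (X : ℝ) ^ δ := by rw [rpow_def_of_pos hX0, mul_comm]
    have h5 : C * (X : ℝ) ^ (5 / 12 + 3 * δ) * ∑ T ∈ Ds, (T : ℝ) ^ (-(1 / 6 + δ)) ≤
        C * (X : ℝ) ^ (5 / 12 + 4 * δ) := by
      calc _ ≤ C * (X : ℝ) ^ (5 / 12 + 3 * δ) * (X : ℝ) ^ δ :=
            mul_le_mul_of_nonneg_left h4 (by positivity)
        _ = C * ((X : ℝ) ^ (5 / 12 + 3 * δ) * (X : ℝ) ^ δ) := by ring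
        _ = _ := by rw [← rpow_add hX0]; congr 2; ring
    have h6 : (D0 : ℝ) ≤ D0 * (X : ℝ) ^ (5 / 12 + 4 * δ) := le_mul_of_one_le_right hD00 hXp
    have h7 : 0 ≤ K * (X : ℝ) ^ (5 / 12 + 4 * δ) := by positivity
    have h8 : 0 ≤ (⌈Y0⌉₊ : ℝ) * (X : ℝ) ^ (5 / 12 + 4 * δ) := by positivity
    linarith

open Classical in
/-- squarefree products of the primes of `PL` -/
noncomputable def UL (x m0 N : ℕ) : Finset ℕ :=
  (Icc 1 x).filter (fun m => Squarefree m ∧ m.primeFactors ⊆ PL x m0 N)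

lemma mem_UL {x m0 N m : ℕ} : m ∈ UL x m0 N ↔ (1 ≤ m ∧ m ≤ x) ∧ Squarefree m ∧
    m.primeFactors ⊆ PL x m0 N := by
  unfold UL
  simp only [mem_filter, mem_Icc]

theorem UL_sum (e : ℝ) (he : 0 < e) (he1 : e ≤ 1 / 1000) : ∃ R : ℝ, 0 < R ∧ ∀ x m0 N : ℕ,
    1 ≤ N → N ≤ x → ∑ m ∈ UL x m0 N, (m : ℝ) ^ (-(5 / 12 + 2 * e)) ≤ R := by
  obtain ⟨K, hK, hrank⟩ := PL_rank (e / 4) (by positivity) (by linarith)
  obtain ⟨R, hR⟩ : ∃ R : ℝ, R = K ^ ((5 / 12 + 2 * e) / (5 / 12 + e)) *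
    ∑' k : ℕ, (k : ℝ) ^ (-((5 / 12 + 2 * e) / (5 / 12 + e))) := ⟨_, rfl⟩
  refine ⟨exp R, exp_pos _, ?_⟩
  intro x m0 N hN1 hNx
  refine (gen_sum (PL x m0 N) (UL x m0 N) _ fun m hm => (mem_UL.1 hm).2).trans ?_
  apply exp_le_exp.2
  rw [hR]
  apply rank_sum _ K (5 / 12 + e) (5 / 12 + 2 * e) hK (by positivity) (by linarith)
  · intro q hq; exact (mem_PP.1 (mem_PL.1 hq).1).1.1
  · intro q hq
    obtain ⟨⟨a1, a2⟩, _⟩ := mem_PP.1 (mem_PL.1 hq).1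
    have := hrank x m0 N q a1 a2 hN1 hNx
    rwa [show 5 / 12 + 4 * (e / 4) = 5 / 12 + e by ring] at this

end Pool.Agent.H35.WS
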