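import Pool.Agent.H35.WS.Pair
import Pool.Graph.R_pool_sql_team_seeded_efc1946e.K1H88.WS.Split

set_option autoImplicit false

/-! The exceptions fall into the cases. -/

namespace Pool.Agent.H35.WS

open Finset Real Pool.Agent.K1H88.WS Pool.Agent.W57.SW

def JA1 (x n : ℕ) : Prop :=
  ∃ r p1 m q : ℕ, n = r * m * q ∧ n ≤ x ∧ 2 ≤ r ∧ r ∈ QQ x ∧ p1 ∣ r ∧ m ∈ UU x p1 ∧
      q ∈ PP x p1 ∧ (yy x) ^ (6 : ℝ) ≤ q ∧ Lam x q ∣ r * m - 1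

def JA2 (x n : ℕ) : Prop :=
  ∃ r p1 m E : ℕ, n = r * m * E ∧ n ≤ x ∧ 2 ≤ r ∧ r ∈ QQ x ∧ p1 ∣ r ∧ m ∈ UU x p1 ∧
      1 ≤ E ∧ Odd E ∧ Lam x (r * m) ∣ r * m * E - 1 ∧ Nz x E ∧ (Sy x E p1 ∨ Sy x E 1) ∧
      yy x ≤ (E : ℝ) ^ (1 / 2 : ℝ) ∧
      yy x * ((E : ℝ) / (Lam x (r * m) : ℕ)) ^ (2 / 3 : ℝ) ≤ (E : ℝ) ^ (1 / 2 : ℝ)

def JB0 (x n : ℕ) : Prop :=
  ∃ p m : ℕ, n = p * m ∧ n ≤ x ∧ p.Prime ∧ Nz x p ∧ 2 ≤ m ∧ m ∈ UU x 1 ∧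
      Lam x p ∣ m - 1 ∧ (p : ℝ) ^ (1 / 2 : ℝ) * (x : ℝ) ^ (1 / 63 : ℝ) ≤ Lam x p

def JB1 (x n : ℕ) : Prop :=
  ∃ p m q : ℕ, n = p * m * q ∧ n ≤ x ∧ p ∈ P0 x ∧ m ∈ UU x 1 ∧
      q ∈ PP x 1 ∧ (yp x p) ^ (6 : ℝ) ≤ q ∧ Lam x q ∣ p * m - 1

def JB2 (x n : ℕ) : Prop :=
  ∃ p m E : ℕ, n = p * m * E ∧ n ≤ x ∧ p ∈ P0 x ∧ m ∈ UU x 1 ∧
      1 ≤ E ∧ Odd E ∧ Lam x (p * m) ∣ p * m * E - 1 ∧ Nz x E ∧ (Sy x E 1 ∨ Sy x E 1) ∧
      yp x p ≤ (E : ℝ) ^ (1 / 2 : ℝ) ∧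
      yp x p * ((E : ℝ) / (Lam x (p * m) : ℕ)) ^ (2 / 3 : ℝ) ≤ (E : ℝ) ^ (1 / 2 : ℝ)

def J3 (Y : ℕ → ℝ) (x n : ℕ) : Prop :=
  ∃ p u s : ℕ, n = p * u * s ∧ n ≤ x ∧ p.Prime ∧ Nz x p ∧
      (Y p) ^ (5 / 2 : ℝ) * (p : ℝ) ^ (-(5 / 12 : ℝ)) ≤ (x : ℝ) ^ (25 / 378 : ℝ) ∧
      1 ≤ u ∧ Squarefree u ∧ u.primeFactors ⊆ PP x p ∧
      (1 ≤ s ∧ Odd s ∧ Lam x (p * u) ∣ p * u * s - 1 ∧ Nz x s ∧ (Sy x s p ∨ Sy x s 1)) ∧
      (Y p) ^ (2 : ℝ) ≤ s ∧ (s : ℝ) ≤ (Y p) ^ (6 : ℝ) ∧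
      ((Lam x (p * u) : ℕ) : ℝ) ≤ (Y p) ^ (3 : ℝ)

def JP1 (x n : ℕ) : Prop :=
  ∃ p1 p2 m : ℕ, n = p1 * p2 * m ∧ n ≤ x ∧ p1.Prime ∧ p2.Prime ∧ Nz x p1 ∧ Nz x p2 ∧
      Odd p2 ∧ Sy x p2 p1 ∧ m ∈ UU x p1 ∧ Lam x p1 ∣ m * p2 - 1 ∧
      ((Lam x p1 : ℕ) : ℝ) ≤ Bm x m ∧
      ((Lam x p1 : ℕ) : ℝ) ^ (1 / 3 : ℝ) * (p2 : ℝ) ^ (2 / 3 : ℝ) ≤ Bm x m

def JP2 (x n : ℕ) : Prop :=
  ∃ p1 p2 : ℕ, n = p1 * p2 ∧ n ≤ x ∧ p1.Prime ∧ p2.Prime ∧ p1 ≠ p2 ∧ Nz x p1 ∧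
      Nz x p2 ∧ n ∈ QQ x ∧ Lam x p1 ∣ p2 - 1 ∧ Lam x p2 ∣ p1 - 1 ∧
      (x : ℝ) ^ (1 - 2 / 21 : ℝ) ≤ (Lam x p1 : ℝ) * Lam x p2

def JP3 (x n : ℕ) : Prop :=
  ∃ p1 p2 m : ℕ, n = p1 * p2 * m ∧ n ≤ x ∧ p1.Prime ∧ p2.Prime ∧ Nz x p1 ∧ Nz x p2 ∧
      2 ≤ m ∧ (m : ℝ) ≤ (x : ℝ) ^ (2 / 63 : ℝ) ∧ Lam x p1 ∣ m * p2 - 1 ∧ Lam x p2 ∣ m * p1 - 1 ∧
      (x : ℝ) ^ (1 - 4 / 21 : ℝ) ≤ (Lam x p1 : ℝ) * Lam x p2

/-- a divisor of medium size -/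
lemma exists_div {m : ℕ} {y : ℝ} (hy : 1 ≤ y) (hm : y ^ (2 : ℝ) ≤ m) (hm0 : m ≠ 0)
    (hp : ∀ q : ℕ, q.Prime → q ∣ m → (q : ℝ) < y ^ (6 : ℝ)) :
    ∃ E : ℕ, E ∣ m ∧ y ^ (2 : ℝ) ≤ E ∧ (E : ℝ) ≤ y ^ (6 : ℝ) := by
  by_cases h : ∃ q : ℕ, q.Prime ∧ q ∣ m ∧ y ^ (2 : ℝ) ≤ q
  · obtain ⟨q, h1, h2, h3⟩ := h
    exact ⟨q, h2, h3, (hp q h1 h2).le⟩
  · push Not at h
    have hy0 : 0 < y := by linarith
    obtain ⟨E, h1, h2, h3⟩ := exists_divisor (z := y ^ (2 : ℝ)) (one_le_rpow hy (by norm_num))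
      hm hm0 h
    refine ⟨E, h1, h2, h3.trans ?_⟩
    rw [← rpow_natCast, ← rpow_mul hy0.le]
    exact rpow_le_rpow_of_exponent_le hy (by norm_num)

/-- the square root of a number of medium size -/
lemma sqrt_ge {y s : ℝ} (hy : 1 ≤ y) (h : y ^ (2 : ℝ) ≤ s) : y ≤ s ^ (1 / 2 : ℝ) := by
  have hy0 : 0 < y := by linarith
  calc y = (y ^ (2 : ℝ)) ^ (1 / 2 : ℝ) := by rw [← rpow_mul hy0.le]; norm_num
    _ ≤ _ := rpow_le_rpow (by positivity) h (by norm_num)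

/-- the exponent is small if the modulus is not large -/
lemma small_L {y s L : ℝ} (hy : 1 ≤ y) (hs0 : 0 < s) (hs : s ≤ y ^ (6 : ℝ)) (hL : 0 < L)
    (h : s ^ (1 / 2 : ℝ) < y * (s / L) ^ (2 / 3 : ℝ)) : L ≤ y ^ (3 : ℝ) := by
  have hy0 : 0 < y := by linarith
  have h1 : L ^ (2 / 3 : ℝ) ≤ y * s ^ (1 / 6 : ℝ) := by
    rw [div_rpow hs0.le hL.le, ← mul_div_assoc, lt_div_iff₀ (by positivity)] at h
    have h2 : s ^ (2 / 3 : ℝ) = s ^ (1 / 2 : ℝ) * s ^ (1 / 6 : ℝ) := by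
      rw [← rpow_add hs0]; norm_num
    rw [h2] at h
    have h3 : s ^ (1 / 2 : ℝ) * L ^ (2 / 3 : ℝ) ≤ s ^ (1 / 2 : ℝ) * (y * s ^ (1 / 6 : ℝ)) := by
      linarith
    exact le_of_mul_le_mul_left h3 (by positivity)
  have h4 : s ^ (1 / 6 : ℝ) ≤ y := by
    calc s ^ (1 / 6 : ℝ) ≤ (y ^ (6 : ℝ)) ^ (1 / 6 : ℝ) := rpow_le_rpow hs0.le hs (by norm_num)
      _ = y := by rw [← rpow_mul hy0.le]; norm_num
  have h5 : L ^ (2 / 3 : ℝ) ≤ y ^ (2 : ℝ) := by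
    calc L ^ (2 / 3 : ℝ) ≤ y * y := h1.trans (mul_le_mul_of_nonneg_left h4 hy0.le)
      _ = y ^ (2 : ℝ) := by
        rw [show (2 : ℝ) = ((2 : ℕ) : ℝ) by norm_num, rpow_natCast, sq]
  calc L = (L ^ (2 / 3 : ℝ)) ^ (3 / 2 : ℝ) := by rw [← rpow_mul hL.le]; norm_num
    _ ≤ (y ^ (2 : ℝ)) ^ (3 / 2 : ℝ) := rpow_le_rpow (by positivity) h5 (by norm_num)
    _ = y ^ (3 : ℝ) := by rw [← rpow_mul hy0.le]; norm_num

/-- a pair of primes which cannot be treated with the progressions -/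
lemma pair_real {x L1 L2 p1 p2 m B : ℝ} (hx : 0 < x) (hx1 : 1 ≤ x) (hL1 : 0 < L1) (hL2 : 0 < L2)
    (hp1 : 0 < p1) (hp2 : 0 < p2) (hm : 0 < m) (h1 : p1 * p2 * m ≤ x) (h2 : L1 ≤ m * p2)
    (h3 : L2 ≤ m * p1) (hm1 : 1 ≤ m)
    (hB : B = x ^ (1 / 2 - 1 / 63 : ℝ) * m ^ (-(1 / 2 : ℝ)))
    (h4 : ¬ (L1 ≤ B ∧ L1 ^ (1 / 3 : ℝ) * p2 ^ (2 / 3 : ℝ) ≤ B))
    (h5 : ¬ (L2 ≤ B ∧ L2 ^ (1 / 3 : ℝ) * p1 ^ (2 / 3 : ℝ) ≤ B)) :
    x ^ (1 - 2 / 21 : ℝ) ≤ L1 * L2 * m ^ (3 : ℝ) := by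
  have hB0 : 0 < B := by rw [hB]; positivity
  have e0 : log B = (1 / 2 - 1 / 63) * log x - 1 / 2 * log m := by
    rw [hB, log_mul (by positivity) (by positivity), log_rpow hx, log_rpow hm]
    ring
  have e1 := log_le_log (by positivity) h1
  rw [log_mul (by positivity) hm.ne', log_mul hp1.ne' hp2.ne'] at e1
  have e2 := log_le_log hL1 h2
  rw [log_mul hm.ne' hp2.ne'] at e2
  have e3 := log_le_log hL2 h3
  rw [log_mul hm.ne' hp1.ne'] at e3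
  have e6 : 0 ≤ log m := log_nonneg hm1
  have e7 : 0 ≤ log x := log_nonneg hx1
  have e4 : log B < log L1 ∨ log B < 1 / 3 * log L1 + 2 / 3 * log p2 := by
    by_contra hcon
    push Not at hcon
    apply h4
    constructor
    · exact (log_le_log_iff hL1 hB0).1 hcon.1
    · rw [← log_le_log_iff (by positivity) hB0, log_mul (by positivity) (by positivity),
        log_rpow hL1, log_rpow hp2]
      exact hcon.2
  have e5 : log B < log L2 ∨ log B < 1 / 3 * log L2 + 2 / 3 * log p1 := by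
    by_contra hcon
    push Not at hcon
    apply h5
    constructor
    · exact (log_le_log_iff hL2 hB0).1 hcon.1
    · rw [← log_le_log_iff (by positivity) hB0, log_mul (by positivity) (by positivity),
        log_rpow hL2, log_rpow hp1]
      exact hcon.2
  rw [← log_le_log_iff (by positivity) (by positivity), log_mul (by positivity) (by positivity),
    log_mul hL1.ne' hL2.ne', log_rpow hx, log_rpow hm]
  rcases e4 with e4 | e4 <;> rcases e5 with e5 | e5 <;> linarith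

/-- the weight of a free prime -/
lemma yp_weight {x p : ℕ} (hx : 1 ≤ x) (hp : 1 ≤ p) (h1 : Lam x p ≤ p)
    (h2 : ((Lam x p : ℕ) : ℝ) ≤ (p : ℝ) ^ (1 / 2 : ℝ) * (x : ℝ) ^ (1 / 63 : ℝ)) :
    (yp x p) ^ (5 / 2 : ℝ) * (p : ℝ) ^ (-(5 / 12 : ℝ)) ≤ (x : ℝ) ^ (25 / 378 : ℝ) := by
  have hx1 : (1 : ℝ) ≤ x := by exact_mod_cast hx
  have hx0 : (0 : ℝ) < x := by linarith
  have hp1 : (1 : ℝ) ≤ p := by exact_mod_cast hp
  have hp0 : (0 : ℝ) < p := by linarith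
  obtain ⟨ρ, hρ⟩ : ∃ ρ : ℝ, ρ = max 1 (((Lam x p : ℕ) : ℝ) / (p : ℝ) ^ (1 / 2 : ℝ)) := ⟨_, rfl⟩
  have hρ1 : 1 ≤ ρ := by rw [hρ]; exact le_max_left _ _
  have hρ0 : 0 < ρ := by linarith
  have hρa : ρ ≤ (x : ℝ) ^ (1 / 63 : ℝ) := by
    rw [hρ]
    apply max_le (one_le_rpow hx1 (by norm_num))
    rw [div_le_iff₀ (by positivity), mul_comm]
    exact h2
  have hρb : ρ ≤ (p : ℝ) ^ (1 / 2 : ℝ) := by
    rw [hρ]
    apply max_le (one_le_rpow hp1 (by norm_num))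
    rw [div_le_iff₀ (by positivity), ← rpow_add hp0]
    norm_num
    exact_mod_cast h1
  have e : yp x p = (x : ℝ) ^ (1 / 63 : ℝ) * ρ := by rw [yp, hρ]
  rw [e, mul_rpow (by positivity) hρ0.le]
  have h3 : ρ ^ (5 / 2 : ℝ) ≤ (x : ℝ) ^ (1 / 63 * (5 / 3) : ℝ) * (p : ℝ) ^ (5 / 12 : ℝ) := by
    calc ρ ^ (5 / 2 : ℝ) = ρ ^ (5 / 3 : ℝ) * ρ ^ (5 / 6 : ℝ) := by
          rw [← rpow_add hρ0]; norm_num
      _ ≤ ((x : ℝ) ^ (1 / 63 : ℝ)) ^ (5 / 3 : ℝ) * ((p : ℝ) ^ (1 / 2 : ℝ)) ^ (5 / 6 : ℝ) :=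
          mul_le_mul (rpow_le_rpow hρ0.le hρa (by norm_num))
            (rpow_le_rpow hρ0.le hρb (by norm_num)) (by positivity) (by positivity)
      _ = _ := by
          rw [← rpow_mul hx0.le, ← rpow_mul hp0.le]; norm_num
  calc ((x : ℝ) ^ (1 / 63 : ℝ)) ^ (5 / 2 : ℝ) * ρ ^ (5 / 2 : ℝ) * (p : ℝ) ^ (-(5 / 12 : ℝ)) ≤
      ((x : ℝ) ^ (1 / 63 : ℝ)) ^ (5 / 2 : ℝ) *
        ((x : ℝ) ^ (1 / 63 * (5 / 3) : ℝ) * (p : ℝ) ^ (5 / 12 : ℝ)) * (p : ℝ) ^ (-(5 / 12 : ℝ)) := by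
        gcongr
    _ = ((x : ℝ) ^ (1 / 63 : ℝ)) ^ (5 / 2 : ℝ) * (x : ℝ) ^ (1 / 63 * (5 / 3) : ℝ) *
        ((p : ℝ) ^ (5 / 12 : ℝ) * (p : ℝ) ^ (-(5 / 12 : ℝ))) := by ring
    _ = (x : ℝ) ^ (25 / 378 : ℝ) := by
        rw [← rpow_mul hx0.le, ← rpow_add hx0, ← rpow_add hp0]
        norm_num

theorem split_A (x : ℕ) (hx1 : 1 ≤ x) (n : ℕ) (ht : Top x n) (hc : CA x n) :
    JA1 x n ∨ JA2 x n ∨ J3 (fun _ => yy x) x n ∨ JP1 x n ∨ JP2 x n ∨ JP3 x n := by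
  have hx1' : (1 : ℝ) ≤ x := by exact_mod_cast hx1
  have hx0 : (0 : ℝ) < x := by linarith
  have hy1 := yy_one hx1
  have hy0 : 0 < yy x := by linarith
  obtain ⟨t1, t2, t3, t4, t5, t6, t7⟩ := ht
  obtain ⟨p1, p2, m, e, hp1, hp2, hne, hsy, hm⟩ := hc
  have hn0 : n ≠ 0 := by omega
  have hm0 : m ≠ 0 := by rintro rfl; simp at e; omega
  have hm1 : 1 ≤ m := Nat.pos_of_ne_zero hm0
  have hmn : m ∣ n := ⟨p1 * p2, by rw [e]; ring⟩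
  have hrn : p1 * p2 ∣ n := ⟨m, e⟩
  have hp1n : p1 ∣ n := (dvd_mul_right p1 p2).trans hrn
  have hp2n : p2 ∣ n := (dvd_mul_left p2 p1).trans hrn
  have hr2 : 2 ≤ p1 * p2 := by have := hp1.two_le; have := hp2.two_le; nlinarith
  have hrQ : p1 * p2 ∈ QQ x := mul_mem_QQ hp1 hp2 hne hsy
    ((Nat.le_of_dvd (by omega) hrn).trans t1) (Odd.of_dvd_nat t5 hrn) (nz_dvd t6 hrn)
  have hnz1 := nz_dvd t6 hp1n
  have hnz2 := nz_dvd t6 hp2n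
  have hodd1 : Odd p1 := Odd.of_dvd_nat t5 hp1n
  have hodd2 : Odd p2 := Odd.of_dvd_nat t5 hp2n
  have hp1x : p1 ≤ x := (Nat.le_of_dvd (by omega) hp1n).trans t1
  have hp2x : p2 ≤ x := (Nat.le_of_dvd (by omega) hp2n).trans t1
  by_cases hq : ∃ q : ℕ, q.Prime ∧ q ∣ m ∧ (yy x) ^ (6 : ℝ) ≤ q
  · -- a large prime
    left
    obtain ⟨q, hqp, ⟨m', hm'⟩, hzq⟩ := hq
    have hqn : q ∣ n := (dvd_mul_right q m').trans (hm' ▸ hmn)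
    have hqP : q ∈ PP x p1 := hm (Nat.mem_primeFactors.2 ⟨hqp, ⟨m', hm'⟩, hm0⟩)
    have e' : n = p1 * p2 * m' * q := by rw [e, hm']; ring
    have hm'0 : 1 ≤ m' := by
      rcases Nat.eq_zero_or_pos m' with h | h
      · rw [h, mul_zero] at hm'; omega
      · exact h
    refine ⟨p1 * p2, p1, m', q, e', t1, hr2, hrQ, dvd_mul_right _ _,
      mem_UU_of t1 hn0 t4 hmn hm ⟨q, by rw [hm']; ring⟩, hqP, hzq, ?_⟩
    have h1 := t7 q hqn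
    rw [e'] at h1
    exact lam_dvd_sub hqp (nz_dvd t6 hqn) (by nlinarith) h1
  push Not at hq
  rcases le_or_gt ((yy x) ^ (2 : ℝ)) m with hzm | hzm
  · obtain ⟨E, ⟨m', hm'⟩, hE1, hE2⟩ := exists_div hy1 hzm hm0 hq
    have hEm : E ∣ m := ⟨m', hm'⟩
    have hEn : E ∣ n := hEm.trans hmn
    have hE0 : E ≠ 0 := by rintro rfl; rw [zero_mul] at hm'; exact hm0 hm'
    have hE1' : 1 ≤ E := Nat.pos_of_ne_zero hE0
    have hm'0 : 1 ≤ m' := by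
      rcases Nat.eq_zero_or_pos m' with h | h
      · rw [h, mul_zero] at hm'; omega
      · exact h
    have e' : n = p1 * p2 * m' * E := by rw [e, hm']; ring
    have hDn : p1 * p2 * m' ∣ n := ⟨E, e'⟩
    have hLD := t7 _ hDn
    have hm'U : m' ∈ UU x p1 := mem_UU_of t1 hn0 t4 hmn hm ⟨E, by rw [hm']; ring⟩
    have hEP : E.primeFactors ⊆ PP x p1 := (Nat.primeFactors_mono hEm hm0).trans hm
    have hL0 : 0 < Lam x (p1 * p2 * m') := lam_pos_of_dvd hLD (by omega)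
    have hL0' : (0 : ℝ) < (Lam x (p1 * p2 * m') : ℕ) := by exact_mod_cast hL0
    rw [e'] at hLD
    rcases le_or_gt (yy x * ((E : ℝ) / (Lam x (p1 * p2 * m') : ℕ)) ^ (2 / 3 : ℝ))
      ((E : ℝ) ^ (1 / 2 : ℝ)) with hG | hG
    · right; left
      exact ⟨p1 * p2, p1, m', E, e', t1, hr2, hrQ, dvd_mul_right _ _, hm'U, hE1',
        Odd.of_dvd_nat t5 hEn, hLD, nz_dvd t6 hEn, sy_of_PP hnz1 E hE0 hEP,
        sqrt_ge hy1 hE1, hG⟩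
    · right; right; left
      have hL3 := small_L hy1 (by exact_mod_cast hE1') hE2 hL0' hG
      have e3 : p1 * (p2 * m') = p1 * p2 * m' := by ring
      refine ⟨p1, p2 * m', E, by rw [e']; ring, t1, hp1, hnz1, ?_,
        Nat.mul_pos hp2.pos hm'0, ?_, ?_, ⟨hE1', Odd.of_dvd_nat t5 hEn, ?_, nz_dvd t6 hEn,
        sy_of_PP hnz1 E hE0 hEP⟩, hE1, hE2, ?_⟩
      · have i1 : (p1 : ℝ) ^ (-(5 / 12 : ℝ)) ≤ 1 := by
          apply rpow_le_one_of_one_le_of_nonpos _ (by norm_num)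
          exact_mod_cast hp1.one_lt.le
        have i2 : (yy x) ^ (5 / 2 : ℝ) ≤ (x : ℝ) ^ (25 / 378 : ℝ) := by
          rw [yy, ← rpow_mul hx0.le]
          exact rpow_le_rpow_of_exponent_le hx1' (by norm_num)
        calc (yy x) ^ (5 / 2 : ℝ) * (p1 : ℝ) ^ (-(5 / 12 : ℝ)) ≤ (x : ℝ) ^ (25 / 378 : ℝ) * 1 :=
              mul_le_mul i2 i1 (by positivity) (by positivity)
          _ = _ := mul_one _
      · apply t4.squarefree_of_dvd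
        exact ⟨p1 * E, by rw [e']; ring⟩
      · intro q hq
        rw [Nat.mem_primeFactors] at hq
        obtain ⟨hqp, hqd, _⟩ := hq
        rcases (Nat.Prime.dvd_mul hqp).1 hqd with h | h
        · rw [(Nat.prime_dvd_prime_iff_eq hqp hp2).1 h, mem_PP]
          exact ⟨⟨hp2.one_lt.le, hp2x⟩, hp2, fun h2 => by
            rw [h2] at hodd2; exact absurd hodd2 (by decide), hnz2, Or.inl hsy.symm⟩
        · exact (mem_UU.1 hm'U).2.2 (Nat.mem_primeFactors.2 ⟨hqp, h, by omega⟩)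
      · rw [e3]; exact hLD
      · rw [e3]; exact hL3
  · -- pairs
    right; right; right
    have hL1 : Lam x p1 ∣ m * p2 - 1 := by
      apply lam_dvd_sub hp1 hnz1 (Nat.mul_pos hm1 hp2.pos)
      have h1 := t7 p1 hp1n
      rwa [show n = m * p2 * p1 by rw [e]; ring] at h1
    have hL2 : Lam x p2 ∣ m * p1 - 1 := by
      apply lam_dvd_sub hp2 hnz2 (Nat.mul_pos hm1 hp1.pos)
      have h1 := t7 p2 hp2n
      rwa [show n = m * p1 * p2 by rw [e]; ring] at h1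
    have hmU : m ∈ UU x p1 := mem_UU_of t1 hn0 t4 hmn hm dvd_rfl
    by_cases hP1 : ((Lam x p1 : ℕ) : ℝ) ≤ Bm x m ∧
        ((Lam x p1 : ℕ) : ℝ) ^ (1 / 3 : ℝ) * (p2 : ℝ) ^ (2 / 3 : ℝ) ≤ Bm x m
    · left
      exact ⟨p1, p2, m, e, t1, hp1, hp2, hnz1, hnz2, hodd2, hsy.symm, hmU, hL1, hP1.1, hP1.2⟩
    by_cases hP2 : ((Lam x p2 : ℕ) : ℝ) ≤ Bm x m ∧
        ((Lam x p2 : ℕ) : ℝ) ^ (1 / 3 : ℝ) * (p1 : ℝ) ^ (2 / 3 : ℝ) ≤ Bm x m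
    · left
      refine ⟨p2, p1, m, by rw [e]; ring, t1, hp2, hp1, hnz2, hnz1, hodd1, hsy, ?_, hL2, hP2.1,
        hP2.2⟩
      rw [mem_UU] at hmU ⊢
      refine ⟨hmU.1, hmU.2.1, fun q hq => ?_⟩
      have h := hmU.2.2 hq
      rw [mem_PP] at h ⊢
      refine ⟨h.1, h.2.1, h.2.2.1, h.2.2.2.1, ?_⟩
      rcases h.2.2.2.2 with h | h
      · exact Or.inl (h.trans hsy)
      · exact Or.inr h
    right
    have hmp1 : 2 ≤ m * p1 := by have := hp1.two_le; nlinarith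
    have hmp2 : 2 ≤ m * p2 := by have := hp2.two_le; nlinarith
    have hl1 := lam_pos hp1 hnz1
    have hl2 := lam_pos hp2 hnz2
    have hk := pair_real (x := x) (L1 := (Lam x p1 : ℕ)) (L2 := (Lam x p2 : ℕ)) (p1 := p1)
      (p2 := p2) (m := m) (B := Bm x m) hx0 hx1' (by exact_mod_cast hl1) (by exact_mod_cast hl2)
      (by exact_mod_cast hp1.pos) (by exact_mod_cast hp2.pos) (by exact_mod_cast hm1)
      (by
        have : ((p1 * p2 * m : ℕ) : ℝ) ≤ x := by rw [← e]; exact_mod_cast t1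
        push_cast at this
        exact this)
      (by
        have := Nat.le_of_dvd (by omega) hL1
        have : Lam x p1 ≤ m * p2 := by omega
        exact_mod_cast this)
      (by
        have := Nat.le_of_dvd (by omega) hL2
        have : Lam x p2 ≤ m * p1 := by omega
        exact_mod_cast this) (by exact_mod_cast hm1) rfl hP1 hP2
    rcases Nat.lt_or_ge m 2 with h2 | h2
    · left
      have hm' : m = 1 := by omega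
      subst hm'
      rw [one_mul] at hL1 hL2
      rw [mul_one] at e
      refine ⟨p1, p2, e, t1, hp1, hp2, hne, hnz1, hnz2, by rw [e]; exact hrQ, hL1, hL2, ?_⟩
      rw [Nat.cast_one, one_rpow, mul_one] at hk
      exact hk
    · right
      have hmz : (m : ℝ) ≤ (x : ℝ) ^ (2 / 63 : ℝ) := by
        have : (yy x) ^ (2 : ℝ) = (x : ℝ) ^ (2 / 63 : ℝ) := by
          rw [yy, ← rpow_mul hx0.le]; norm_num
        rw [← this]; exact hzm.le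
      refine ⟨p1, p2, m, e, t1, hp1, hp2, hnz1, hnz2, h2, hmz, hL1, hL2, ?_⟩
      have i1 : (m : ℝ) ^ (3 : ℝ) ≤ (x : ℝ) ^ (2 / 21 : ℝ) := by
        calc (m : ℝ) ^ (3 : ℝ) ≤ ((x : ℝ) ^ (2 / 63 : ℝ)) ^ (3 : ℝ) :=
              rpow_le_rpow (Nat.cast_nonneg _) hmz (by norm_num)
          _ = _ := by rw [← rpow_mul hx0.le]; norm_num
      have i2 : (x : ℝ) ^ (1 - 4 / 21 : ℝ) * (x : ℝ) ^ (2 / 21 : ℝ) = (x : ℝ) ^ (1 - 2 / 21 : ℝ) := by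
        rw [← rpow_add hx0]; norm_num
      have i3 : (x : ℝ) ^ (1 - 4 / 21 : ℝ) * (x : ℝ) ^ (2 / 21 : ℝ) ≤
          ((Lam x p1 : ℝ) * Lam x p2) * (x : ℝ) ^ (2 / 21 : ℝ) := by
        rw [i2]
        refine hk.trans ?_
        exact mul_le_mul_of_nonneg_left i1 (by positivity)
      exact le_of_mul_le_mul_right i3 (by positivity)

theorem split_B : ∃ X0 : ℕ, 1 ≤ X0 ∧ ∀ x : ℕ, X0 ≤ x → ∀ n : ℕ, Top x n → CB x n →
    JB0 x n ∨ JB1 x n ∨ JB2 x n ∨ J3 (yp x) x n ∨ (n : ℝ) ≤ (x : ℝ) ^ (31 / 64 : ℝ) := by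
  obtain ⟨D0, hsp⟩ := small_prime
  obtain ⟨X0, hX01, hX0⟩ := pow_large (4 / 63) (by norm_num) D0
  refine ⟨X0, hX01, fun x hx n ht hc => ?_⟩
  have hx1 : 1 ≤ x := hX01.trans hx
  have hx1' : (1 : ℝ) ≤ x := by exact_mod_cast hx1
  have hx0 : (0 : ℝ) < x := by linarith
  have hDz := hX0 x hx
  obtain ⟨t1, t2, t3, t4, t5, t6, t7⟩ := ht
  obtain ⟨p, m, e, hp, hm⟩ := hc
  have hn0 : n ≠ 0 := by omega
  have hm0 : m ≠ 0 := by rintro rfl; simp at e; omega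
  have hm1 : 1 ≤ m := Nat.pos_of_ne_zero hm0
  have hm2 : 2 ≤ m := by
    rcases Nat.lt_or_ge m 2 with h | h
    · have : m = 1 := by omega
      rw [this, mul_one] at e
      exact absurd (e ▸ hp) t3
    · exact h
  have hmn : m ∣ n := ⟨p, by rw [e]; ring⟩
  have hpn : p ∣ n := ⟨m, e⟩
  have hnzp := nz_dvd t6 hpn
  have hpx : p ≤ x := (Nat.le_of_dvd (by omega) hpn).trans t1
  have hp2 := hp.two_le
  have hy1 := yp_one hx1 p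
  have hy0 : 0 < yp x p := by linarith
  have hpP : p ∈ P0 x := mem_P0.2 ⟨⟨hp.one_lt.le, hpx⟩, hp, hnzp⟩
  have hLm : Lam x p ∣ m - 1 := by
    apply lam_dvd_sub hp hnzp hm1
    have h1 := t7 p hpn
    rwa [show n = m * p by rw [e]; ring] at h1
  have hLp : Lam x p ≤ p := by
    have := Nat.le_of_dvd (Nat.sub_pos_of_lt hp.one_lt) (lam_dvd_pred hp hnzp)
    omega
  rcases le_or_gt ((p : ℝ) ^ (1 / 2 : ℝ) * (x : ℝ) ^ (1 / 63 : ℝ)) (Lam x p) with hT | hT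
  · left
    exact ⟨p, m, e, t1, hp, hnzp, hm2, mem_UU_of t1 hn0 t4 hmn hm dvd_rfl, hLm, hT⟩
  right
  have hw := yp_weight hx1 hp.one_lt.le hLp hT.le
  by_cases hq : ∃ q : ℕ, q.Prime ∧ q ∣ m ∧ (yp x p) ^ (6 : ℝ) ≤ q
  · left
    obtain ⟨q, hqp, ⟨m', hm'⟩, hzq⟩ := hq
    have hqn : q ∣ n := (dvd_mul_right q m').trans (hm' ▸ hmn)
    have hqP : q ∈ PP x 1 := hm (Nat.mem_primeFactors.2 ⟨hqp, ⟨m', hm'⟩, hm0⟩)
    have e' : n = p * m' * q := by rw [e, hm']; ring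
    have hm'0 : 1 ≤ m' := by
      rcases Nat.eq_zero_or_pos m' with h | h
      · rw [h, mul_zero] at hm'; omega
      · exact h
    refine ⟨p, m', q, e', t1, hpP, mem_UU_of t1 hn0 t4 hmn hm ⟨q, by rw [hm']; ring⟩, hqP,
      hzq, ?_⟩
    have h1 := t7 q hqn
    rw [e'] at h1
    exact lam_dvd_sub hqp (nz_dvd t6 hqn) (by nlinarith) h1
  right
  push Not at hq
  rcases le_or_gt ((yp x p) ^ (2 : ℝ)) m with hzm | hzm
  · obtain ⟨E, ⟨m', hm'⟩, hE1, hE2⟩ := exists_div hy1 hzm hm0 hq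
    have hEm : E ∣ m := ⟨m', hm'⟩
    have hEn : E ∣ n := hEm.trans hmn
    have hE0 : E ≠ 0 := by rintro rfl; rw [zero_mul] at hm'; exact hm0 hm'
    have hE1' : 1 ≤ E := Nat.pos_of_ne_zero hE0
    have hm'0 : 1 ≤ m' := by
      rcases Nat.eq_zero_or_pos m' with h | h
      · rw [h, mul_zero] at hm'; omega
      · exact h
    have e' : n = p * m' * E := by rw [e, hm']; ring
    have hDn : p * m' ∣ n := ⟨E, e'⟩
    have hLD := t7 _ hDn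
    have hm'U : m' ∈ UU x 1 := mem_UU_of t1 hn0 t4 hmn hm ⟨E, by rw [hm']; ring⟩
    have hEP : E.primeFactors ⊆ PP x 1 := (Nat.primeFactors_mono hEm hm0).trans hm
    have hL0 : 0 < Lam x (p * m') := lam_pos_of_dvd hLD (by omega)
    have hL0' : (0 : ℝ) < (Lam x (p * m') : ℕ) := by exact_mod_cast hL0
    have hNz1 : Nz x 1 := nz_dvd t6 (one_dvd n)
    have hsyE := sy_of_PP hNz1 E hE0 hEP
    rw [e'] at hLD
    rcases le_or_gt (yp x p * ((E : ℝ) / (Lam x (p * m') : ℕ)) ^ (2 / 3 : ℝ))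
      ((E : ℝ) ^ (1 / 2 : ℝ)) with hG | hG
    · left
      exact ⟨p, m', E, e', t1, hpP, hm'U, hE1', Odd.of_dvd_nat t5 hEn, hLD, nz_dvd t6 hEn,
        hsyE, sqrt_ge hy1 hE1, hG⟩
    · right; left
      have hL3 := small_L hy1 (by exact_mod_cast hE1') hE2 hL0' hG
      refine ⟨p, m', E, e', t1, hp, hnzp, hw, hm'0, (mem_UU.1 hm'U).2.1, ?_,
        ⟨hE1', Odd.of_dvd_nat t5 hEn, hLD, nz_dvd t6 hEn, Or.inr (hsyE.elim id id)⟩,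
        hE1, hE2, hL3⟩
      intro q hq
      have h := (mem_UU.1 hm'U).2.2 hq
      rw [mem_PP] at h ⊢
      exact ⟨h.1, h.2.1, h.2.2.1, h.2.2.2.1, Or.inr (h.2.2.2.2.elim id id)⟩
  · right; right
    have hyx : yp x p ≤ (x : ℝ) ^ (2 / 63 : ℝ) := by
      have i1 : max 1 (((Lam x p : ℕ) : ℝ) / (p : ℝ) ^ (1 / 2 : ℝ)) ≤ (x : ℝ) ^ (1 / 63 : ℝ) := by
        have hp0 : (0 : ℝ) < p := by exact_mod_cast hp.pos
        apply max_le (one_le_rpow hx1' (by norm_num))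
        rw [div_le_iff₀ (by positivity), mul_comm]
        exact hT.le
      calc yp x p ≤ (x : ℝ) ^ (1 / 63 : ℝ) * (x : ℝ) ^ (1 / 63 : ℝ) :=
            mul_le_mul_of_nonneg_left i1 (by positivity)
        _ = _ := by rw [← rpow_add hx0]; norm_num
    have hmx : (m : ℝ) ≤ (x : ℝ) ^ (4 / 63 : ℝ) := by
      refine hzm.le.trans ?_
      calc (yp x p) ^ (2 : ℝ) ≤ ((x : ℝ) ^ (2 / 63 : ℝ)) ^ (2 : ℝ) :=
            rpow_le_rpow hy0.le hyx (by norm_num)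
        _ = _ := by rw [← rpow_mul hx0.le]; norm_num
    have h1 : (Lam x p : ℝ) ≤ (x : ℝ) ^ (4 / 63 : ℝ) := by
      have := Nat.le_of_dvd (by omega) hLm
      have h2 : (Lam x p : ℝ) ≤ m := by
        have : Lam x p ≤ m := by omega
        exact_mod_cast this
      linarith
    have hz1 : (1 : ℝ) ≤ (x : ℝ) ^ (4 / 63 : ℝ) := one_le_rpow hx1' (by norm_num)
    have hb : (p : ℝ) ≤ ((x : ℝ) ^ (4 / 63 : ℝ)) ^ (25 / 12 : ℝ) :=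
      hsp x p _ hp hpx hnzp hDz hz1 h1
    calc (n : ℝ) = p * m := by rw [e]; push_cast; ring
      _ ≤ ((x : ℝ) ^ (4 / 63 : ℝ)) ^ (25 / 12 : ℝ) * (x : ℝ) ^ (4 / 63 : ℝ) :=
          mul_le_mul hb hmx (Nat.cast_nonneg _) (by positivity)
      _ = (x : ℝ) ^ (4 / 63 * (25 / 12) + 4 / 63 : ℝ) := by
          rw [← rpow_mul hx0.le, ← rpow_add hx0]
      _ ≤ _ := fin_exp hx1 (by norm_num)

end Pool.Agent.H35.WS
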